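import Pool.Agent.H38.WM.Def

/-!
# [H38 WM A4] the group `A_4`, 60-110 lines. File Pool/Agent/H38/WM/A4.lean

Proof. `A_4 = alternatingGroup (Fin 4)` has 12 elements; everything is a finite check, but take care that `decide` stays small: define
`piF : Equiv.Perm (Fin 4) → ZMod 3` by the index of the pair partition `{σ 0, σ 1 | rest}`: `pr a b` is `0` for `{a,b} = {0,1}, {2,3}`,
`1` for `{0,2}, {1,3}`, `2` for `{0,3}, {1,2}`; for even `σ` the map `σ ↦ pr (σ 0) (σ 1)` is a homomorphism to `ZMod 3` up to sign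
(check: even permutations act on the three partitions by cyclic shifts; the shift is `pr (σ 0) (σ 1) - pr 0 1`). `psi σ` for `σ` in the
kernel `V_4`: `psi σ = 0` iff `σ 0 ∈ {0, 1}` (that is `psi` is trivial on `1` and `(01)(23)`, nontrivial on the other two).
`add`, `tr`, `sep` are finite checks over pairs/triples of even permutations; `decide` over `Equiv.Perm (Fin 4)` (24 elements, pairs:
576) should work with `set_option maxRecDepth`; or transport to an explicit `Fin 12` table; or use `Fintype` of the subtype and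
`decide` piece by piece. `surj`: a 3-cycle. For `a4_orbs`: `J ≤ A_4`, `J ≠ ⊥`: some `g ∈ J`, `g ≠ 1`, `g` is a 3-cycle or a product of two
transpositions (even), so the orbits of `g` on `Fin 4` are at most 2, and more permutations have fewer orbits
(`H38.BG.dup_orbs_anti`, H38/BG/DUp.lean; you may copy it; `H38.ML.orbs H` is the number of orbits of `H`).
-/

set_option autoImplicit false

open scoped NumberField
open IsDedekindDomain NumberField H38.ML H63.MA

noncomputable section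

namespace H38.WM

private def prA (a b : Fin 4) : ZMod 3 :=
  if (a = 0 ∧ b = 1) ∨ (a = 1 ∧ b = 0) ∨ (a = 2 ∧ b = 3) ∨ (a = 3 ∧ b = 2) then 0
  else if (a = 0 ∧ b = 2) ∨ (a = 2 ∧ b = 0) ∨ (a = 1 ∧ b = 3) ∨ (a = 3 ∧ b = 1) then 1
  else 2

private def psA (a : Fin 4) : ZMod 2 := if a = 0 ∨ a = 1 then 0 else 1

private def evB (s : Equiv.Perm (Fin 4)) : Bool :=
  !((decide (s 1 < s 0)) ^^ (decide (s 2 < s 0)) ^^ (decide (s 3 < s 0)) ^^ (decide (s 2 < s 1)) ^^
    (decide (s 3 < s 1)) ^^ (decide (s 3 < s 2)))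

private lemma ev_of_sign : ∀ s : Equiv.Perm (Fin 4), Equiv.Perm.sign s = 1 → evB s = true := by
  decide +kernel

private lemma ev_alt (s : alternatingGroup (Fin 4)) : evB (s : Equiv.Perm (Fin 4)) = true :=
  ev_of_sign _ (Equiv.Perm.mem_alternatingGroup.1 s.2)

private lemma pr_mul : ∀ s t : Equiv.Perm (Fin 4), evB s = true → evB t = true →
    prA ((s * t) 0) ((s * t) 1) = prA (s 0) (s 1) + prA (t 0) (t 1) := by
  decide +kernel

private lemma ps_add : ∀ s t : Equiv.Perm (Fin 4), evB s = true → evB t = true →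
    prA (s 0) (s 1) = 0 → prA (t 0) (t 1) = 0 → psA ((s * t) 0) = psA (s 0) + psA (t 0) := by
  decide +kernel

private lemma ps_tr : ∀ g x : Equiv.Perm (Fin 4), evB g = true → evB x = true →
    prA (g 0) (g 1) ≠ 0 → prA (x 0) (x 1) = 0 →
    psA (x 0) + psA ((g * x * g⁻¹) 0) + psA ((g ^ 2 * x * (g ^ 2)⁻¹) 0) = 0 := by
  decide +kernel

/-- the 3-cycle `(0 1 2)` -/
private def c3 : Equiv.Perm (Fin 4) := Equiv.swap 0 1 * Equiv.swap 1 2

private lemma c3_sign : Equiv.Perm.sign c3 = 1 := by decide +kernel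

private lemma ps_sep : ∀ x : Equiv.Perm (Fin 4), evB x = true → prA (x 0) (x 1) = 0 →
    psA (x 0) = 0 → psA ((c3 * x * c3⁻¹) 0) = 0 → x = 1 := by
  decide +kernel

private lemma pr_c3 : prA (c3 0) (c3 1) ≠ 0 := by decide +kernel

private lemma z3_gen : ∀ c z : ZMod 3, c ≠ 0 → z = 0 ∨ z = c ∨ z = c + c := by decide +kernel

theorem a4_td : Nonempty (TD (alternatingGroup (Fin 4))) := by
  obtain ⟨pi, hpi⟩ : ∃ pi : alternatingGroup (Fin 4) →* Multiplicative (ZMod 3), ∀ s,
      pi s = Multiplicative.ofAdd (prA ((s : Equiv.Perm (Fin 4)) 0) ((s : Equiv.Perm (Fin 4)) 1)) :=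
    ⟨MonoidHom.mk' (fun s => Multiplicative.ofAdd (prA ((s : Equiv.Perm (Fin 4)) 0)
      ((s : Equiv.Perm (Fin 4)) 1))) (fun s t => by
        rw [← ofAdd_add, ← pr_mul _ _ (ev_alt s) (ev_alt t)]
        rfl), fun s => rfl⟩
  have h1 : ∀ s, pi s = 1 ↔ prA ((s : Equiv.Perm (Fin 4)) 0) ((s : Equiv.Perm (Fin 4)) 1) = 0 := by
    intro s
    rw [hpi, ← ofAdd_zero]
    exact Multiplicative.ofAdd.injective.eq_iff
  refine ⟨⟨pi, fun s => psA ((s : Equiv.Perm (Fin 4)) 0), ?_, ?_, ?_, ?_⟩⟩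
  · intro z
    have hc : pi ⟨c3, Equiv.Perm.mem_alternatingGroup.2 c3_sign⟩ =
        Multiplicative.ofAdd (prA (c3 0) (c3 1)) := hpi _
    rcases z3_gen _ (Multiplicative.toAdd z) pr_c3 with h | h | h
    · exact ⟨1, by rw [map_one]; exact h.symm⟩
    · exact ⟨_, hc.trans (by rw [← h]; rfl)⟩
    · refine ⟨⟨c3, Equiv.Perm.mem_alternatingGroup.2 c3_sign⟩ *
        ⟨c3, Equiv.Perm.mem_alternatingGroup.2 c3_sign⟩, ?_⟩
      rw [map_mul, hc, ← ofAdd_add, ← h]
      rfl
  · intro x y hx hy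
    exact ps_add _ _ (ev_alt x) (ev_alt y) ((h1 x).1 hx) ((h1 y).1 hy)
  · intro g x hg hx
    exact ps_tr _ _ (ev_alt g) (ev_alt x) (fun h => hg ((h1 g).2 h)) ((h1 x).1 hx)
  · intro x hx hs
    have e1 := hs 1
    have e2 := hs ⟨c3, Equiv.Perm.mem_alternatingGroup.2 c3_sign⟩
    rw [one_mul, inv_one, mul_one] at e1
    exact Subtype.ext (ps_sep _ (ev_alt x) ((h1 x).1 hx) e1 e2)

private lemma tr_dec : ∀ i j : Fin 4, ∃ s : Equiv.Perm (Fin 4), Equiv.Perm.sign s = 1 ∧ s i = j := by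
  decide +kernel

theorem a4_trans : MulAction.IsPretransitive (alternatingGroup (Fin 4)) (Fin 4) := by
  refine ⟨fun i j => ?_⟩
  obtain ⟨s, hs, hij⟩ := tr_dec i j
  exact ⟨⟨s, Equiv.Perm.mem_alternatingGroup.2 hs⟩, hij⟩

/-- fewer permutations have more orbits -/
private theorem orbs_anti {n : ℕ} {H H' : Subgroup (Equiv.Perm (Fin n))} (h : H ≤ H') :
    orbs H' ≤ orbs H := by
  unfold orbs
  have hfin : Finite (MulAction.orbitRel.Quotient H (Fin n)) := Quotient.finite _
  refine Nat.card_le_card_of_surjective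
    (f := fun q : MulAction.orbitRel.Quotient H (Fin n) =>
      (Quotient.map' (s₁ := MulAction.orbitRel H (Fin n)) (s₂ := MulAction.orbitRel H' (Fin n)) id
        (by
          intro i j hij
          have h1 : i ∈ MulAction.orbit H j := hij
          obtain ⟨⟨m, hm⟩, h2⟩ := MulAction.mem_orbit_iff.1 h1
          exact MulAction.mem_orbit_iff.2 ⟨⟨m, h hm⟩, h2⟩) q :
        MulAction.orbitRel.Quotient H' (Fin n))) ?_
  intro q
  induction q using Quotient.inductionOn' with
  | h i => exact ⟨Quotient.mk'' i, rfl⟩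

/-- two points whose orbits under the powers of `g` cover everything -/
private lemma cov_dec : ∀ g : Equiv.Perm (Fin 4), Equiv.Perm.sign g = 1 → g ≠ 1 →
    ∃ a b : Fin 4, ∀ i : Fin 4, i = a ∨ i = g a ∨ i = g (g a) ∨ i = b ∨ i = g b := by
  decide +kernel

theorem a4_orbs (J : Subgroup (Equiv.Perm (Fin 4))) (hJ : J ≤ alternatingGroup (Fin 4))
    (h1 : J ≠ ⊥) : orbs J ≤ 2 := by
  obtain ⟨⟨g, hg⟩, hg1⟩ := (Subgroup.ne_bot_iff_exists_ne_one (H := J)).1 h1
  have hg2 : g ≠ 1 := fun h => hg1 (Subtype.ext h)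
  obtain ⟨a, b, hab⟩ := cov_dec g (Equiv.Perm.mem_alternatingGroup.1 (hJ hg)) hg2
  refine (orbs_anti (Subgroup.zpowers_le.2 hg)).trans ?_
  unfold orbs
  have hsurj : Function.Surjective (fun t : Fin 2 =>
      (Quotient.mk'' (if t = 0 then a else b) :
        MulAction.orbitRel.Quotient (Subgroup.zpowers g) (Fin 4))) := by
    intro q
    induction q using Quotient.inductionOn' with
    | h i =>
      have key : ∀ (n : ℕ) (c : Fin 4), i = (g ^ n) c →
          (Quotient.mk'' c : MulAction.orbitRel.Quotient (Subgroup.zpowers g) (Fin 4)) =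
            Quotient.mk'' i := by
        intro n c h
        refine Quotient.sound' ?_
        refine MulAction.mem_orbit_iff.2 ⟨⟨(g ^ n)⁻¹, inv_mem (pow_mem (Subgroup.mem_zpowers g) n)⟩, ?_⟩
        rw [h]
        show (g ^ n)⁻¹ ((g ^ n) c) = c
        rw [← Equiv.Perm.mul_apply, inv_mul_cancel, Equiv.Perm.one_apply]
      rcases hab i with h | h | h | h | h
      · exact ⟨0, key 0 a h⟩
      · exact ⟨0, key 1 a (by rw [pow_one]; exact h)⟩
      · exact ⟨0, key 2 a (by rw [pow_two]; exact h)⟩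
      · exact ⟨1, key 0 b h⟩
      · exact ⟨1, key 1 b (by rw [pow_one]; exact h)⟩
  have h2 := Nat.card_le_card_of_surjective _ hsurj
  rwa [Nat.card_fin] at h2

end H38.WM
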