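import Pool.Agent.H38.WM.Def
import Pool.Agent.H38.ML.Factor
import Pool.Agent.H38.ML.UnrFin
import Pool.Agent.H38.ML.RootInert

/-!
# [H38 WM RmF] a homomorphism of finite type is ramified at finitely many primes, 30-60 lines. File Pool/Agent/H38/WM/RmF.lean

Proof. `FT ρ`: a finite `E : IntermediateField K QBar` with `E.fixingSubgroup ≤ ρ.ker`; enlarge it to its normal closure `M`
(finite, Galois over `K`). `H38.ML.finite_not_unr K M` (H38/ML/UnrFin.lean): all but finitely many primes `v` of `K` are unramified in
`M`, that is all inertia groups of `Gal(M/K)` over `v` are trivial. For such `l` and `τ ∈ (Q.P l).inertia Gal(QBar/K)` the restriction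
of `τ` to `M` is in the inertia group of `(Q.P l).under (𝓞 M)`, so it is `1`, `τ ∈ M.fixingSubgroup ≤ E.fixingSubgroup ≤ ρ.ker`.
(Search the library first: the same statement is used in H38/BG, H63/MC or H57/D2; grep 'finite_not_unr'.)
-/

set_option autoImplicit false

open scoped NumberField
open IsDedekindDomain NumberField H38.ML H63.MA

noncomputable section

namespace H38.WM

variable {K : IntermediateField ℚ QBar} [NumberField K] {G : Type} [Group G]

theorem rmF (Q : DP K QBar) (ρ : Gal(QBar/K) →* G) (hft : FT ρ) : (Rm Q ρ).Finite := by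
  obtain ⟨M, hfd, hgal, e, he, h⟩ := H38.ML.factor ρ hft
  have : NumberField M := NumberField.of_module_finite K M
  have hfin := H38.ML.finite_not_unr K M
  have hinj : Function.Injective (fun v : Pl K => v.asIdeal) := by
    intro v w hvw
    exact HeightOneSpectrum.ext hvw
  refine (hfin.preimage hinj.injOn).subset ?_
  rintro v ⟨τ, hτ, hne⟩
  refine ⟨v.isPrime, v.ne_bot, fun hun => hne ?_⟩
  have := Q.prime v
  have hun' : H38.ML.Unr K M ((Q.P v).under (𝓞 K)) := by
    rw [Q.under]
    exact hun
  have h1 := H38.ML.res_eq_one M (Q.P v) hun' τ hτ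
  rw [← h, h1, map_one]

end H38.WM
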