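import Pool.Agent.H38.WM.Def
import Pool.Agent.H63.MA.PZb

/-!
# [H38 WM SumT] the sum over finite sets of primes, 30-50 lines. File Pool/Agent/H38/WM/SumT.lean

Proof. `x l = A (nm l)^(-(1+ε)) ≥ 0`. With `U` the union of the sets in `𝒯`: `∑ T ∈ 𝒯, ∏ l ∈ T, x l ≤ ∑ T ∈ U.powerset, ∏ l ∈ T, x l =
∏ l ∈ U, (1 + x l)` (`Finset.prod_one_add` / `Finset.prod_add`) `≤ exp (∑ l ∈ U, x l) ≤ exp (A ∑' l, (nm l)^(-(1+ε)))`
(`Real.add_one_le_exp`, `Real.exp_sum`, `H63.MA.pz_summable` or `pzb_...`: summability of `(nm v)^(-s)`, `s > 1`). The term is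
`A^#T / (∏ nm l)^(1+ε) = ∏ l ∈ T, x l` (`Real.finset_prod_rpow`). Case `𝒯` arbitrary finite.
-/

set_option autoImplicit false

open scoped NumberField
open IsDedekindDomain NumberField H38.ML H63.MA

noncomputable section

namespace H38.WM

theorem sumT (K : Type) [Field K] [NumberField K] (A ε : ℝ) (hA : 0 ≤ A) (hε : 0 < ε) :
    ∃ C : ℝ, 0 ≤ C ∧ ∀ 𝒯 : Finset (Finset (Pl K)),
      ∑ T ∈ 𝒯, A ^ T.card / (∏ l ∈ T, (nm l : ℝ)) ^ (1 + ε) ≤ C := by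
  classical
  have hsum : Summable fun l : Pl K => A * (nm l : ℝ) ^ (-(1 + ε)) :=
    (pz_summable K (by linarith : (1 : ℝ) < 1 + ε)).mul_left A
  have hx0 : ∀ l : Pl K, 0 ≤ A * (nm l : ℝ) ^ (-(1 + ε)) := fun l =>
    mul_nonneg hA (Real.rpow_nonneg (Nat.cast_nonneg _) _)
  refine ⟨Real.exp (∑' l : Pl K, A * (nm l : ℝ) ^ (-(1 + ε))), (Real.exp_pos _).le, fun 𝒯 => ?_⟩
  have h1 : ∀ T : Finset (Pl K), A ^ T.card / (∏ l ∈ T, (nm l : ℝ)) ^ (1 + ε)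
      = ∏ l ∈ T, A * (nm l : ℝ) ^ (-(1 + ε)) := by
    intro T
    have hT0 : 0 ≤ ∏ l ∈ T, (nm l : ℝ) := Finset.prod_nonneg fun l _ => Nat.cast_nonneg _
    rw [Finset.prod_mul_distrib, Finset.prod_const,
      Real.finsetProd_rpow T (fun l => (nm l : ℝ)) (fun l _ => Nat.cast_nonneg _) (-(1 + ε)),
      Real.rpow_neg hT0, div_eq_mul_inv]
  set U : Finset (Pl K) := 𝒯.biUnion id with hU
  calc ∑ T ∈ 𝒯, A ^ T.card / (∏ l ∈ T, (nm l : ℝ)) ^ (1 + ε)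
      = ∑ T ∈ 𝒯, ∏ l ∈ T, A * (nm l : ℝ) ^ (-(1 + ε)) := Finset.sum_congr rfl fun T _ => h1 T
    _ ≤ ∑ T ∈ U.powerset, ∏ l ∈ T, A * (nm l : ℝ) ^ (-(1 + ε)) := by
        refine Finset.sum_le_sum_of_subset_of_nonneg ?_ ?_
        · intro T hT
          rw [Finset.mem_powerset, hU]
          exact Finset.subset_biUnion_of_mem id hT
        · intro T _ _
          exact Finset.prod_nonneg fun l _ => hx0 l
    _ = ∏ l ∈ U, (1 + A * (nm l : ℝ) ^ (-(1 + ε))) := (Finset.prod_one_add _).symm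
    _ ≤ ∏ l ∈ U, Real.exp (A * (nm l : ℝ) ^ (-(1 + ε))) := by
        refine Finset.prod_le_prod (fun l _ => by linarith [hx0 l]) fun l _ => ?_
        rw [add_comm]
        exact Real.add_one_le_exp _
    _ = Real.exp (∑ l ∈ U, A * (nm l : ℝ) ^ (-(1 + ε))) := (Real.exp_sum _ _).symm
    _ ≤ Real.exp (∑' l : Pl K, A * (nm l : ℝ) ^ (-(1 + ε))) :=
        Real.exp_le_exp.2 (hsum.sum_le_tsum U fun l _ => hx0 l)

end H38.WM
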