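import Pool.Agent.H38.WM.CoB
import Pool.Agent.H38.WM.SumT
import Pool.Agent.H38.WM.RmF

/-!
# [H38 WM Ten] step 10: the count of all `ρ`, 30-50 lines. File Pool/Agent/H38/WM/Ten.lean

Proof. `C = C₁ C₂`, `C₁` from `coB`, `C₂` from `sumT K 8 ε`. For `ρ ∈ Rs` let `T ρ` be the finite set `Rm Q ρ \ R3 D Q ρ` (`rmF`). By
`coB` the fibre over `T` has at most `C₁ 8^#T (Z / ∏ T)^(1+ε) = C₁ Z^(1+ε) · 8^#T / (∏ T)^(1+ε)` elements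
(`Real.div_rpow`); sum over the image `𝒯` of `Rs` under `T` (`Finset.card_eq_sum_card_image`).
-/

set_option autoImplicit false

open scoped NumberField
open IsDedekindDomain NumberField H38.ML H63.MA

noncomputable section

namespace H38.WM

variable {K : IntermediateField ℚ QBar} [NumberField K] {G : Type} [Group G]

theorem ten [Finite G] (ω : K) (hω : IsPrimitiveRoot ω 3) (D : TD G) (Q : DP K QBar)
    (core : CoreBound K) (ε : ℝ) (hε : 0 < ε) : ∃ C : ℝ, 0 ≤ C ∧ ∀ Z : ℝ, 1 ≤ Z →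
    ∀ Rs : Finset (Gal(QBar/K) →* G), (∀ ρ ∈ Rs, Cn Q Z ρ) →
      (Rs.card : ℝ) ≤ C * Z ^ (1 + ε) := by
  classical
  obtain ⟨C₁, hC₁, h₁⟩ := coB ω hω D Q core ε hε
  obtain ⟨C₂, hC₂, h₂⟩ := sumT K 8 ε (by norm_num) hε
  refine ⟨C₁ * C₂, mul_nonneg hC₁ hC₂, fun Z hZ Rs hRs => ?_⟩
  have hfin : ∀ ρ : Gal(QBar/K) →* G, FT ρ → (Rm Q ρ \ R3 D Q ρ).Finite := fun ρ h =>
    (rmF Q ρ h).subset Set.sdiff_subset
  let T : (Gal(QBar/K) →* G) → Finset (Pl K) := fun ρ =>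
    if h : FT ρ then (hfin ρ h).toFinset else ∅
  have hT : ∀ ρ ∈ Rs, ∀ l, l ∈ T ρ ↔ l ∈ Rm Q ρ ∧ l ∉ R3 D Q ρ := by
    intro ρ hρ l
    have hft : FT ρ := (hRs ρ hρ).2.1
    simp only [T, dif_pos hft, Set.Finite.mem_toFinset, Set.mem_sdiff]
  have hZ0 : 0 ≤ Z := by linarith
  have hcard : (Rs.card : ℝ) = ∑ S ∈ Rs.image T, ((Rs.filter fun ρ => T ρ = S).card : ℝ) := by
    rw [← Nat.cast_sum, ← Finset.card_eq_sum_card_image]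
  have hterm : ∀ S ∈ Rs.image T, ((Rs.filter fun ρ => T ρ = S).card : ℝ) ≤
      C₁ * Z ^ (1 + ε) * (8 ^ S.card / (∏ l ∈ S, (nm l : ℝ)) ^ (1 + ε)) := by
    intro S _
    have h := h₁ Z hZ S (Rs.filter fun ρ => T ρ = S) (fun ρ hρ => by
      rw [Finset.mem_filter] at hρ
      refine ⟨hRs ρ hρ.1, fun l => ?_⟩
      rw [← hρ.2]
      exact hT ρ hρ.1 l)
    rw [Real.div_rpow hZ0 (Finset.prod_nonneg fun _ _ => Nat.cast_nonneg _)] at h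
    calc ((Rs.filter fun ρ => T ρ = S).card : ℝ)
        ≤ C₁ * 8 ^ S.card * (Z ^ (1 + ε) / (∏ l ∈ S, (nm l : ℝ)) ^ (1 + ε)) := h
      _ = C₁ * Z ^ (1 + ε) * (8 ^ S.card / (∏ l ∈ S, (nm l : ℝ)) ^ (1 + ε)) := by ring
  rw [hcard]
  calc ∑ S ∈ Rs.image T, ((Rs.filter fun ρ => T ρ = S).card : ℝ)
      ≤ ∑ S ∈ Rs.image T,
        C₁ * Z ^ (1 + ε) * (8 ^ S.card / (∏ l ∈ S, (nm l : ℝ)) ^ (1 + ε)) :=
        Finset.sum_le_sum hterm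
    _ = C₁ * Z ^ (1 + ε) *
        ∑ S ∈ Rs.image T, 8 ^ S.card / (∏ l ∈ S, (nm l : ℝ)) ^ (1 + ε) := by
        rw [Finset.mul_sum]
    _ ≤ C₁ * Z ^ (1 + ε) * C₂ :=
        mul_le_mul_of_nonneg_left (h₂ _) (mul_nonneg hC₁ (Real.rpow_nonneg hZ0 _))
    _ = C₁ * C₂ * Z ^ (1 + ε) := by ring

end H38.WM
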