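import Pool.Agent.H38.WM.Ten
import Pool.Agent.H38.WM.A4
import Pool.Agent.H38.BG.DRho
import Pool.Agent.H38.BG.DLow
import Pool.Agent.H38.ML.Small

/-!
# [H38 WM NkU] from homomorphisms to `n_K(A_4, B)`, 80-120 lines. File Pool/Agent/H38/WM/NkU.lean

Proof. As `H38.BG.afu` (H38/BG/AFu.lean, please read it) with `G = alternatingGroup (Fin 4)`, `n = 4`. `Q : DP K QBar` exists (a prime of
`𝓞 QBar` over every prime: `H63.MA.gloc_over`). `dsm_rho`: every `L` in the quotient of `Spec.nK` is `fieldOf i₀ ρ` with a surjective `ρ`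
of finite type; `q ↦ ρ_q` is injective. `small_field` and `H38.BG.dlow` (applied to `L = fieldOf i₀ ρ`, `T = S`, `P = Q.P`):
`∏ l ∈ S, nm l ^ (4 - embOrb L (inertia)) ≤ absNorm (differentIdeal)`, `embOrb L J = orbs (J.map ρ)`. For `l ∈ Rm Q ρ` the image of
the inertia group is a nontrivial subgroup of `A_4`, so `orbs ≤ 2` (`a4_orbs`), `(∏ l ∈ S, nm l)^2 ≤ relDisc ≤ B`, that is
`Cn Q (B^(1/2)) ρ`. `ten` with `Z = B^(1/2)` and `2 ε` in the place of `ε`: every finite set of classes has at most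
`C B^((1+2ε)/2) = C B^(1/2+ε)` elements, so the quotient is finite with at most `⌊C B^(1/2+ε)⌋₊` elements (see the end of the proof of
`afu`).
-/

set_option autoImplicit false

open scoped NumberField
open IsDedekindDomain NumberField H38.ML H63.MA

noncomputable section

namespace H38.WM

variable {K : IntermediateField ℚ QBar} [NumberField K]

theorem nku_disc (K : IntermediateField ℚ QBar) [NumberField K] (L : IntermediateField K QBar)
    (h : NumberField L) : H38.ML.relDisc K L = Spec.relDisc K L := by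
  unfold H38.ML.relDisc Spec.relDisc
  rw [dif_pos h]

theorem nkU (ω : K) (hω : IsPrimitiveRoot ω 3) (core : CoreBound K) (ε : ℝ) (hε : 0 < ε) :
    ∃ C : ℝ, 0 < C ∧ ∀ B : ℝ, 1 ≤ B →
      Spec.nK K QBar (alternatingGroup (Fin 4)) B ≤
        ((⌊C * B ^ (1 / 2 + ε)⌋₊ : ℕ) : ℕ∞) := by
  classical
  obtain ⟨D⟩ := a4_td
  have hG := a4_trans
  have hgl := fun v : Pl K => gloc_over K QBar v.asIdeal v.isPrime
  choose P hPp hPu using hgl
  let Q : DP K QBar := ⟨P, hPp, hPu⟩
  obtain ⟨C, hC, hten⟩ := ten ω hω D Q core (2 * ε) (by linarith)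
  have i₀ : Fin 4 := 0
  refine ⟨C + 1, by linarith, fun B hB => ?_⟩
  have hB0 : (0 : ℝ) ≤ B := by linarith
  obtain ⟨Z, hZ⟩ : ∃ Z : ℝ, Z = (C + 1) * B ^ (1 / 2 + ε) := ⟨_, rfl⟩
  rw [← hZ]
  have hex : ∀ q : (Quot fun L L' : {L : IntermediateField K QBar //
      Spec.IsSmall K QBar (alternatingGroup (Fin 4)) L ∧
        ∃ _ : NumberField L, (Spec.relDisc K L : ℝ) ≤ B} =>
      Nonempty (L.1 ≃ₐ[K] L'.1)), ∃ ρ : Gal(QBar/K) →* alternatingGroup (Fin 4),
      Function.Surjective ρ ∧ FT ρ ∧ (Quot.out q).1 = fieldOf i₀ ρ :=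
    fun q => H38.BG.dsm_rho (by norm_num) _ hG K i₀ _ (Quot.out q).2.1
  choose r hr1 hr2 hr3 using hex
  have hinj : Function.Injective r := by
    intro q q' h
    have h1 : (Quot.out q) = (Quot.out q') := Subtype.ext (by rw [hr3, hr3, h])
    rw [← Quot.out_eq q, ← Quot.out_eq q', h1]
  -- the discriminant
  have hcn : ∀ q, Cn Q (B ^ (1 / 2 : ℝ)) (r q) := by
    intro q
    refine ⟨hr1 q, hr2 q, fun S hS => ?_⟩
    obtain ⟨hfd, hdeg, -, hemb⟩ := small_field _ hG K i₀ (r q) (hr1 q) (hr2 q)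
    have hnf : NumberField (fieldOf i₀ (r q)) :=
      NumberField.of_module_finite K (fieldOf i₀ (r q))
    have h1 := H38.BG.dlow (fieldOf i₀ (r q)) S P (fun v _ => ⟨hPp v, hPu v⟩)
    have h2 : (∏ v ∈ S, nm v) ^ 2 ≤
        Ideal.absNorm (differentIdeal (𝓞 K) (𝓞 (fieldOf i₀ (r q)))) := by
      refine le_trans ?_ h1
      rw [← Finset.prod_pow]
      refine Finset.prod_le_prod' fun v hv => ?_
      apply Nat.pow_le_pow_right (one_lt_nm v).le
      rw [hdeg, hemb]
      have h3 : orbs ((((P v).inertia Gal(QBar/K)).map (r q)).map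
          (alternatingGroup (Fin 4)).subtype) ≤ 2 := by
        apply a4_orbs
        · intro x hx
          obtain ⟨y, -, rfl⟩ := Subgroup.mem_map.1 hx
          exact y.2
        · intro hbot
          obtain ⟨τ, hτ, hne⟩ := hS v hv
          apply hne
          have h4 : ((r q τ : alternatingGroup (Fin 4)) : Equiv.Perm (Fin 4)) ∈
              (((P v).inertia Gal(QBar/K)).map (r q)).map
                (alternatingGroup (Fin 4)).subtype :=
            Subgroup.mem_map.2 ⟨r q τ, Subgroup.mem_map.2 ⟨τ, hτ, rfl⟩, rfl⟩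
          rw [hbot, Subgroup.mem_bot] at h4
          exact Subtype.ext h4
      omega
    have h5 : ((Ideal.absNorm (differentIdeal (𝓞 K) (𝓞 (fieldOf i₀ (r q)))) : ℕ) : ℝ) ≤ B := by
      have h6 : (H38.ML.relDisc K (fieldOf i₀ (r q)) : ℝ) ≤ B := by
        rw [← hr3 q]
        obtain ⟨hnf', hle⟩ := (Quot.out q).2.2
        rw [nku_disc K _ hnf']
        exact hle
      have h8 : H38.ML.relDisc K (fieldOf i₀ (r q)) =
          Ideal.absNorm (differentIdeal (𝓞 K) (𝓞 (fieldOf i₀ (r q)))) := by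
        unfold H38.ML.relDisc
        rw [dif_pos hnf]
      rw [← h8]
      exact h6
    have h9 : (∏ v ∈ S, (nm v : ℝ)) ^ 2 ≤ B := by
      refine le_trans ?_ h5
      exact_mod_cast h2
    have h10 : (0 : ℝ) ≤ ∏ v ∈ S, (nm v : ℝ) := Finset.prod_nonneg fun v _ => Nat.cast_nonneg _
    rw [← Real.sqrt_eq_rpow]
    exact Real.le_sqrt_of_sq_le h9
  have hB1 : (1 : ℝ) ≤ B ^ (1 / 2 : ℝ) := Real.one_le_rpow hB (by norm_num)
  have hfin : ∀ F : Finset (Quot fun L L' : {L : IntermediateField K QBar //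
      Spec.IsSmall K QBar (alternatingGroup (Fin 4)) L ∧
        ∃ _ : NumberField L, (Spec.relDisc K L : ℝ) ≤ B} =>
      Nonempty (L.1 ≃ₐ[K] L'.1)), (F.card : ℝ) ≤ Z := by
    intro F
    have h1 := hten (B ^ (1 / 2 : ℝ)) hB1 (F.map ⟨r, hinj⟩) (by
      intro φ hφ
      obtain ⟨q, -, rfl⟩ := Finset.mem_map.1 hφ
      exact hcn q)
    rw [Finset.card_map, ← Real.rpow_mul hB0] at h1
    have h2 : (1 / 2 : ℝ) * (1 + 2 * ε) = 1 / 2 + ε := by ring
    rw [h2] at h1
    rw [hZ]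
    have h3 : (0 : ℝ) ≤ B ^ (1 / 2 + ε) := Real.rpow_nonneg hB0 _
    nlinarith
  have hfinQ : Finite (Quot fun L L' : {L : IntermediateField K QBar //
      Spec.IsSmall K QBar (alternatingGroup (Fin 4)) L ∧
        ∃ _ : NumberField L, (Spec.relDisc K L : ℝ) ≤ B} =>
      Nonempty (L.1 ≃ₐ[K] L'.1)) := by
    by_contra hinf
    rw [not_finite_iff_infinite] at hinf
    obtain ⟨F, hF⟩ := Infinite.exists_subset_card_eq (Quot fun L L' : {L : IntermediateField K QBar //
      Spec.IsSmall K QBar (alternatingGroup (Fin 4)) L ∧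
        ∃ _ : NumberField L, (Spec.relDisc K L : ℝ) ≤ B} =>
      Nonempty (L.1 ≃ₐ[K] L'.1)) (⌊Z⌋₊ + 1)
    have h5 := hfin F
    rw [hF] at h5
    push_cast at h5
    have h6 := Nat.lt_floor_add_one Z
    linarith
  have hft := Fintype.ofFinite (Quot fun L L' : {L : IntermediateField K QBar //
      Spec.IsSmall K QBar (alternatingGroup (Fin 4)) L ∧
        ∃ _ : NumberField L, (Spec.relDisc K L : ℝ) ≤ B} =>
      Nonempty (L.1 ≃ₐ[K] L'.1))
  have h6 := hfin Finset.univ
  rw [Finset.card_univ, ← Nat.card_eq_fintype_card] at h6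
  unfold Spec.nK
  rw [ENat.card_eq_coe_natCard]
  exact_mod_cast Nat.le_floor h6

end H38.WM
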