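import Pool.Agent.H38.WM.Def
import Pool.Agent.H63.MA.GKum

/-!
# [H38 WM Fdp] the field `Fd u v` is the field of the Kummer character of `u v^2`, 50-90 lines. File Pool/Agent/H38/WM/Fdp.lean

Proof. `t = rt K u v`, `t^3 = y` in `QBar` (`rt_pow`). `kk_root` (H63/MA/GKum.lean): `σ t = ω^(kk 3 ω y σ).val t`, `t ≠ 0`.
`fd_fix`: `σ` fixes `K(t)` iff `σ t = t` (`IntermediateField.mem_fixingSubgroup_iff`, and the fixed field of the closure of `σ` is an
intermediate field containing `t`, so contains `adjoin {t}`: `IntermediateField.adjoin_le_iff`) iff `ω^k = 1` iff `k = 0` in `ZMod 3`.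
`fd_deg`: `t ∉ K` (some `σ` moves it), `X^3 - y` has a root `t`; it is irreducible over `K` (degree 3 without root in `K`: all roots in
`QBar` are `ω^i t`; or Mathlib `X_pow_sub_C_irreducible_of_prime` : `y` is not a cube), so `minpoly K t = X^3 - y` and
`IntermediateField.adjoin.finrank`. Another way: `finrank K F = index of F.fixingSubgroup` and the character `kk 3 ω y` is onto
`ZMod 3` with kernel `F.fixingSubgroup`.
-/

set_option autoImplicit false

open scoped NumberField
open IsDedekindDomain NumberField H38.ML H63.MA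

noncomputable section

namespace H38.WM

variable (K : IntermediateField ℚ QBar) [NumberField K]

private theorem fdp_pow (u v : 𝓞 K) (y : Kˣ) (hy : (y : K) = (u : K) * (v : K) ^ 2) :
    rt K u v ^ 3 = algebraMap K QBar (y : K) := by
  rw [rt_pow, hy, map_mul, map_pow]

theorem fd_fix (ω : K) (hω : IsPrimitiveRoot ω 3) (u v : 𝓞 K) (y : Kˣ)
    (hy : (y : K) = (u : K) * (v : K) ^ 2) (σ : Gal(QBar/K)) :
    σ ∈ (Fd K u v).fixingSubgroup ↔ kk 3 ω y σ = 0 := by
  have hpow := fdp_pow K u v y hy
  constructor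
  · intro h
    rw [IntermediateField.mem_fixingSubgroup_iff] at h
    have h1 : σ (rt K u v) = rt K u v :=
      h (rt K u v) (IntermediateField.subset_adjoin K _ (Set.mem_singleton _))
    have h2 := kk_of_root Nat.prime_three hω y (rt K u v) hpow σ 0 (by
      rw [zpow_zero, one_mul, h1])
    rw [h2, Int.cast_zero]
  · intro h
    have h1 := kk_root Nat.prime_three hω y (rt K u v) hpow σ
    rw [h, ZMod.val_zero, pow_zero, one_mul] at h1
    have h2 : Fd K u v ≤ IntermediateField.fixedField (Subgroup.zpowers σ) := by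
      unfold Fd
      rw [IntermediateField.adjoin_le_iff, Set.singleton_subset_iff]
      rintro ⟨τ, hτ⟩
      show τ (rt K u v) = rt K u v
      have h3 : Subgroup.zpowers σ ≤ MulAction.stabilizer Gal(QBar/K) (rt K u v) := by
        rw [Subgroup.zpowers_le]
        exact h1
      exact h3 hτ
    rw [IntermediateField.mem_fixingSubgroup_iff]
    intro x hx
    have h3 := h2 hx
    exact h3 ⟨σ, Subgroup.mem_zpowers σ⟩

theorem fd_deg (ω : K) (hω : IsPrimitiveRoot ω 3) (u v : 𝓞 K) (y : Kˣ)
    (hy : (y : K) = (u : K) * (v : K) ^ 2) (h : ∃ σ : Gal(QBar/K), kk 3 ω y σ ≠ 0) :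
    Module.finrank K (Fd K u v) = 3 := by
  have hpow := fdp_pow K u v y hy
  obtain ⟨σ, hσ⟩ := h
  have hirr : Irreducible (Polynomial.X ^ 3 - Polynomial.C (y : K)) := by
    refine X_pow_sub_C_irreducible_of_prime Nat.prime_three fun b hb => hσ ?_
    have hb0 : b ≠ 0 := by
      rintro rfl
      rw [zero_pow (by norm_num)] at hb
      exact y.ne_zero hb.symm
    exact (kk_eq_zero_iff Nat.prime_three hω y).2 ⟨Units.mk0 b hb0, by
      apply Units.ext
      rw [Units.val_pow_eq_pow_val, Units.val_mk0, hb]⟩ σ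
  have hmon : (Polynomial.X ^ 3 - Polynomial.C (y : K)).Monic :=
    Polynomial.monic_X_pow_sub_C _ (by norm_num)
  have hroot : Polynomial.aeval (rt K u v) (Polynomial.X ^ 3 - Polynomial.C (y : K)) = 0 := by
    rw [map_sub, map_pow, Polynomial.aeval_X, Polynomial.aeval_C, hpow, sub_self]
  have hmin := minpoly.eq_of_irreducible_of_monic hirr hroot hmon
  have hint : IsIntegral K (rt K u v) := ⟨_, hmon, hroot⟩
  have h1 : Module.finrank K (Fd K u v) = (minpoly K (rt K u v)).natDegree := by
    unfold Fd
    exact IntermediateField.adjoin.finrank hint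
  rw [h1, ← hmin]
  exact Polynomial.natDegree_X_pow_sub_C

end H38.WM
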