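import Pool.Agent.H38.WM.AdmEx
import Pool.Agent.H63.MA.GKus

/-!
# [H38 WM Kch] the cubic character in terms of `(u, v)`, 30-50 lines. File Pool/Agent/H38/WM/Kch.lean

Proof. `M, C₀` from `adm_ex K`. `H63.MA.kc_all` (H63/MA/GKus.lean): `χ = kc 3 ω QBar x` for some `x : Kˣ`. `x = u v^2 c^3`; put
`y = x (c^3)⁻¹`, so `(y : K) = u v^2`. `kk 3 ω x σ = kk 3 ω y σ + 3 kk 3 ω c σ = kk 3 ω y σ` in `ZMod 3` (`kk_mul_arg`,
`kk_zpow_arg` or `kk_pow_arg`; `kk` is `Multiplicative.toAdd` of `kc`), so `kc 3 ω QBar x = kc 3 ω QBar y`.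
-/

set_option autoImplicit false

open scoped NumberField
open IsDedekindDomain NumberField H38.ML H63.MA

noncomputable section

namespace H38.WM

variable (K : IntermediateField ℚ QBar) [NumberField K]

theorem kch (ω : K) (hω : IsPrimitiveRoot ω 3) : ∃ (M : ℕ) (C₀ : ℝ), M ≠ 0 ∧ 6 ∣ M ∧
    ∀ χ : Gal(QBar/K) →* Multiplicative (ZMod 3), FT χ → ∃ (u v : 𝓞 K) (y : Kˣ),
      Adm K M C₀ u v ∧ (y : K) = (u : K) * (v : K) ^ 2 ∧ χ = kc 3 ω QBar y := by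
  obtain ⟨M, C₀, hM, h6, h⟩ := adm_ex K
  refine ⟨M, C₀, hM, h6, fun χ hχ => ?_⟩
  obtain ⟨x, hx⟩ := kc_all Nat.prime_three hω χ hχ
  obtain ⟨u, v, c, hA, hxc⟩ := h x
  have hxy : x = (x * (c ^ (3 : ℤ))⁻¹) * c ^ (3 : ℤ) := by rw [inv_mul_cancel_right]
  refine ⟨u, v, x * (c ^ (3 : ℤ))⁻¹, hA, ?_, ?_⟩
  · have hc : (c : K) ≠ 0 := c.ne_zero
    rw [Units.val_mul, hxc, Units.val_inv_eq_inv_val]
    have h1 : ((c ^ (3 : ℤ) : Kˣ) : K) = (c : K) ^ 3 := by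
      rw [show (3 : ℤ) = ((3 : ℕ) : ℤ) by norm_num, zpow_natCast, Units.val_pow_eq_pow_val]
    rw [h1, mul_inv_cancel_right₀ (pow_ne_zero 3 hc)]
  · rw [hx]
    apply MonoidHom.ext
    intro σ
    apply Multiplicative.toAdd.injective
    show kk 3 ω x σ = kk 3 ω (x * (c ^ (3 : ℤ))⁻¹) σ
    conv_lhs => rw [hxy]
    rw [kk_mul_arg Nat.prime_three hω, kk_zpow_arg Nat.prime_three hω]
    have h3 : (((3 : ℤ)) : ZMod 3) = 0 := by decide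
    rw [h3, zero_mul, add_zero]

end H38.WM
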