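import Pool.Agent.H38.WM.Def

/-!
# [H38 WM Nrb] `|N(u v)|` is bounded by the product of the norms of the good primes dividing it, 50-80 lines. File Pool/Agent/H38/WM/Nrb.lean

Proof. The primes `l` with `M ∈ l` are finite in number, `S₀` (divisors of the ideal `(M) ≠ 0`: `Ideal.finite_factors`). The ideal
`J = (∏ l ∈ T, l) (∏ l ∈ S₀, l^(2 M))` is divisible by `(u v)`: compare the exponents at every prime `l`: if `M ∉ l` the exponent of
`u v` is `≤ 1`, and if it is `1` then `l ∈ T`; if `M ∈ l` it is `< 2 M` (`u ∉ l^M`, `v ∉ l^M`). (Compare multisets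
`UniqueFactorizationMonoid.normalizedFactors`, or use `Ideal.finprod_heightOneSpectrum_factorization` /
`Associates.count`; or: `∏` of the local inequalities via `IsDedekindDomain.inf_prime_pow_eq_prod`.) So `N(u v) ∣ N J` and
`N J ≤ C ∏ l ∈ T, nm l`, `C = ∏ l ∈ S₀, nm l ^ (2 M)`. `Ideal.absNorm_span_singleton`: `absNorm (span {x}) = natAbs (Algebra.norm ℤ x)`.
-/

set_option autoImplicit false

open scoped NumberField
open IsDedekindDomain NumberField H38.ML H63.MA

noncomputable section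

namespace H38.WM

variable (K : IntermediateField ℚ QBar) [NumberField K]

private theorem pow_dvd_iff_cnt [DecidableEq (Ideal (𝓞 K))]
    (l : Pl K) (n : ℕ) (I : Ideal (𝓞 K)) (hI : I ≠ 0) :
    l.asIdeal ^ n ∣ I ↔ n ≤ (UniqueFactorizationMonoid.normalizedFactors I).count l.asIdeal := by
  have hirr : Irreducible l.asIdeal := l.prime.irreducible
  rw [pow_dvd_iff_le_emultiplicity,
    UniqueFactorizationMonoid.le_emultiplicity_iff_replicate_le_normalizedFactors hirr hI,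
    normalize_eq, Multiset.le_count_iff_replicate_le]

private theorem dvd_of_pow (I J : Ideal (𝓞 K)) (hI : I ≠ 0) (hJ : J ≠ 0)
    (h : ∀ (l : Pl K) (n : ℕ), l.asIdeal ^ n ∣ I → l.asIdeal ^ n ∣ J) : I ∣ J := by
  classical
  rw [UniqueFactorizationMonoid.dvd_iff_normalizedFactors_le_normalizedFactors hI hJ,
    Multiset.le_iff_count]
  intro P
  by_cases hP : P ∈ UniqueFactorizationMonoid.normalizedFactors I
  · have h1 := UniqueFactorizationMonoid.prime_of_normalized_factor P hP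
    let l : Pl K := ⟨P, Ideal.isPrime_of_prime h1, h1.ne_zero⟩
    exact (pow_dvd_iff_cnt K l _ J hJ).1 (h l _ ((pow_dvd_iff_cnt K l _ I hI).2 le_rfl))
  · rw [Multiset.count_eq_zero_of_notMem hP]
    exact Nat.zero_le _

private theorem not_pow_dvd_mul (l : Pl K) (M : ℕ) (u v : 𝓞 K) (hu : u ≠ 0) (hv : v ≠ 0)
    (h1 : u ∉ l.asIdeal ^ M) (h2 : v ∉ l.asIdeal ^ M) (n : ℕ)
    (h : l.asIdeal ^ n ∣ Ideal.span {u * v}) : n ≤ 2 * M := by
  classical
  have hu' : Ideal.span {u} ≠ 0 := by rwa [Ne, Ideal.zero_eq_bot, Ideal.span_singleton_eq_bot]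
  have hv' : Ideal.span {v} ≠ 0 := by rwa [Ne, Ideal.zero_eq_bot, Ideal.span_singleton_eq_bot]
  rw [← Ideal.dvd_span_singleton, pow_dvd_iff_cnt K l _ _ hu'] at h1
  rw [← Ideal.dvd_span_singleton, pow_dvd_iff_cnt K l _ _ hv'] at h2
  rw [← Ideal.span_singleton_mul_span_singleton, pow_dvd_iff_cnt K l _ _ (mul_ne_zero hu' hv'),
    UniqueFactorizationMonoid.normalizedFactors_mul hu' hv', Multiset.count_add] at h
  omega

theorem nrb (M : ℕ) (C₀ : ℝ) (hM : M ≠ 0) : ∃ C : ℝ, 0 < C ∧ ∀ u v : 𝓞 K, Adm K M C₀ u v →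
    ∀ T : Finset (Pl K), (∀ l : Pl K, (M : 𝓞 K) ∉ l.asIdeal → u * v ∈ l.asIdeal → l ∈ T) →
      (|(Algebra.norm ℤ (u * v) : ℤ)| : ℝ) ≤ C * ∏ l ∈ T, (nm l : ℝ) := by
  classical
  have hM0 : (Ideal.span {(M : 𝓞 K)}) ≠ 0 := by
    rw [Ne, Ideal.zero_eq_bot, Ideal.span_singleton_eq_bot]
    exact Nat.cast_ne_zero.2 hM
  have hfin := Ideal.finite_factors hM0
  set S₀ : Finset (Pl K) := hfin.toFinset with hS₀
  have hS₀m : ∀ l : Pl K, l ∈ S₀ ↔ (M : 𝓞 K) ∈ l.asIdeal := by
    intro l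
    rw [hS₀, Set.Finite.mem_toFinset]
    exact Ideal.dvd_span_singleton
  have hnm : ∀ l : Pl K, nm l ≠ 0 := fun l h =>
    l.ne_bot (Ideal.absNorm_eq_zero_iff.1 h)
  refine ⟨∏ l ∈ S₀, (nm l : ℝ) ^ (2 * M), ?_, ?_⟩
  · exact Finset.prod_pos fun l _ => pow_pos (Nat.cast_pos.2 (Nat.pos_of_ne_zero (hnm l))) _
  · intro u v hadm T hT
    have huv : u * v ≠ 0 := mul_ne_zero hadm.u0 hadm.v0
    have hI : Ideal.span {u * v} ≠ 0 := by
      rwa [Ne, Ideal.zero_eq_bot, Ideal.span_singleton_eq_bot]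
    set J : Ideal (𝓞 K) := (∏ l ∈ S₀, l.asIdeal ^ (2 * M)) * ∏ l ∈ T, l.asIdeal with hJ
    have hJ0 : J ≠ 0 := by
      rw [hJ]
      refine mul_ne_zero (Finset.prod_ne_zero_iff.2 fun l _ => pow_ne_zero _ l.ne_bot)
        (Finset.prod_ne_zero_iff.2 fun l _ => l.ne_bot)
    have hdvd : Ideal.span {u * v} ∣ J := by
      refine dvd_of_pow K _ _ hI hJ0 fun l n hn => ?_
      by_cases hl : (M : 𝓞 K) ∈ l.asIdeal
      · have h1 := not_pow_dvd_mul K l M u v hadm.u0 hadm.v0 (hadm.badu l hl) (hadm.badv l hl) n hn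
        exact ((pow_dvd_pow _ h1).trans
          (Finset.dvd_prod_of_mem (fun l : Pl K => l.asIdeal ^ (2 * M)) ((hS₀m l).2 hl))).trans
          (Dvd.intro _ rfl)
      · have h2 : n < 2 := by
          by_contra hcon
          push Not at hcon
          exact hadm.good l hl (Ideal.dvd_span_singleton.1 ((pow_dvd_pow _ hcon).trans hn))
        rcases Nat.lt_or_ge n 1 with h3 | h3
        · rw [Nat.lt_one_iff.1 h3, pow_zero]
          exact one_dvd _
        · have h4 : n = 1 := by omega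
          rw [h4, pow_one] at hn ⊢
          exact (Finset.dvd_prod_of_mem (fun l : Pl K => l.asIdeal)
            (hT l hl (Ideal.dvd_span_singleton.1 hn))).trans (Dvd.intro_left _ rfl)
    have h5 := map_dvd Ideal.absNorm hdvd
    rw [Ideal.absNorm_span_singleton, hJ, map_mul Ideal.absNorm, map_prod, map_prod] at h5
    have h6 : (∏ l ∈ S₀, Ideal.absNorm (l.asIdeal ^ (2 * M))) * ∏ l ∈ T, Ideal.absNorm l.asIdeal
        ≠ 0 := by
      refine mul_ne_zero (Finset.prod_ne_zero_iff.2 fun l _ => ?_)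
        (Finset.prod_ne_zero_iff.2 fun l _ => hnm l)
      rw [map_pow]
      exact pow_ne_zero _ (hnm l)
    have h7 := Nat.le_of_dvd (Nat.pos_of_ne_zero h6) h5
    have h8 : (((Algebra.norm ℤ (u * v)).natAbs : ℕ) : ℝ)
        ≤ (∏ l ∈ S₀, (nm l : ℝ) ^ (2 * M)) * ∏ l ∈ T, (nm l : ℝ) := by
      refine (Nat.cast_le.2 h7).trans (le_of_eq ?_)
      rw [Nat.cast_mul, Nat.cast_prod, Nat.cast_prod]
      congr 1
      refine Finset.prod_congr rfl fun l _ => ?_
      rw [map_pow, Nat.cast_pow]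
      rfl
    rw [Nat.cast_natAbs, Int.cast_abs] at h8
    exact h8

end H38.WM
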