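import Pool.Agent.H38.WM.Def
import Pool.Agent.H63.BU.UOrd

/-!
# [H38 WM Rml] good primes dividing `u v` are ramified in the cubic field, 30-50 lines. File Pool/Agent/H38/WM/Rml.lean

Proof. `3 ∉ l` because `6 ∣ M` and `M ∉ l`, that is `¬ Above 3 l`. There is `π : Kˣ` with `ord l π = 1` (any uniformiser:
`HeightOneSpectrum.valuation_exists_uniformizer`; or search `exists_unif` / `ord l` in H63, e.g. in `RMkA`, `ClFin`).
`H63.BU.uord_at QBar Nat.prime_three hω _ hπ (Q.P l) (Q.prime l) (Q.under l)` gives `L : LD 3 ω QBar l π` with `L.P = Q.P l`,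
`τ := L.t ∈ L.P.inertia`, and `H63.MA.ld_kk_t`: `kk 3 ω y L.t = ord l y` in `ZMod 3`. `ord l y = a + 2 b` with `a, b ≥ 0` the orders of
`u, v`, and `a + b = 1` (`u v ∈ l`, `u v ∉ l^2`), so `ord l y ∈ {1, 2}`, not `0` in `ZMod 3`.
(`z ∈ l^k ↔ k ≤ ord l z` for nonzero `z : 𝓞 K`: `HeightOneSpectrum.intValuation_le_pow_iff_mem`, `valuation_of_algebraMap`.)
-/

set_option autoImplicit false

open scoped NumberField
open IsDedekindDomain NumberField H38.ML H63.MA

noncomputable section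

namespace H38.WM

private theorem ord_mem_pow {K : Type} [Field K] [NumberField K] (l : Pl K) (z : 𝓞 K) (x : Kˣ)
    (hx : (x : K) = (z : K)) (n : ℕ) : z ∈ l.asIdeal ^ n ↔ (n : ℤ) ≤ ord l x := by
  have h1 := val_eq l x
  have h2 : l.valuation K (z : K) = l.intValuation z := HeightOneSpectrum.valuation_of_algebraMap l z
  rw [hx, h2] at h1
  rw [← HeightOneSpectrum.intValuation_le_pow_iff_mem, h1, WithZero.exp_le_exp]
  omega

variable (K : IntermediateField ℚ QBar) [NumberField K]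

theorem rml (ω : K) (hω : IsPrimitiveRoot ω 3) (Q : DP K QBar) (M : ℕ) (C₀ : ℝ) (h6 : 6 ∣ M)
    (u v : 𝓞 K) (hA : Adm K M C₀ u v) (y : Kˣ) (hy : (y : K) = (u : K) * (v : K) ^ 2) (l : Pl K)
    (hl : (M : 𝓞 K) ∉ l.asIdeal) (huv : u * v ∈ l.asIdeal) :
    ∃ τ ∈ (Q.P l).inertia Gal(QBar/K), kk 3 ω y τ ≠ 0 := by
  have h3 : ¬ Above 3 l := by
    intro h
    obtain ⟨c, hc⟩ := h6
    apply hl
    have h1 : (M : 𝓞 K) = ((3 : ℕ) : 𝓞 K) * ((2 * c : ℕ) : 𝓞 K) := by
      rw [hc]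
      push_cast
      ring
    rw [h1]
    exact l.asIdeal.mul_mem_right _ h
  obtain ⟨π, hπ⟩ := exists_unif l
  obtain ⟨L, hL⟩ := H63.BU.uord_at QBar Nat.prime_three hω h3 hπ (Q.P l) (Q.prime l) (Q.under l)
  have hu0 : (u : K) ≠ 0 := fun h => hA.u0 (by exact_mod_cast h)
  have hv0 : (v : K) ≠ 0 := fun h => hA.v0 (by exact_mod_cast h)
  obtain ⟨x, hx⟩ : ∃ x : Kˣ, (x : K) = (u : K) := ⟨Units.mk0 _ hu0, rfl⟩
  obtain ⟨z, hz⟩ : ∃ z : Kˣ, (z : K) = (v : K) := ⟨Units.mk0 _ hv0, rfl⟩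
  have hyx : y = x * z ^ 2 := by
    apply Units.ext
    rw [hy, Units.val_mul, Units.val_pow_eq_pow_val, hx, hz]
  have a1 : 1 ≤ ord l (x * z) := by
    have := (ord_mem_pow l (u * v) (x * z) (by rw [Units.val_mul, hx, hz]; norm_cast) 1).1
      (by rw [pow_one]; exact huv)
    exact_mod_cast this
  have a2 : ¬ 2 ≤ ord l (x * z) := by
    intro h
    exact hA.good l hl ((ord_mem_pow l (u * v) (x * z) (by rw [Units.val_mul, hx, hz]; norm_cast) 2).2
      (by exact_mod_cast h))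
  have a3 : 0 ≤ ord l x := by
    have := (ord_mem_pow l u x hx 0).1 (by rw [pow_zero, Ideal.one_eq_top]; trivial)
    exact_mod_cast this
  have a4 : 0 ≤ ord l z := by
    have := (ord_mem_pow l v z hz 0).1 (by rw [pow_zero, Ideal.one_eq_top]; trivial)
    exact_mod_cast this
  rw [ord_mul] at a1 a2
  have a5 : ord l y = ord l x + 2 * ord l z := by
    rw [hyx, ord_mul, ord_pow]
    norm_num
  refine ⟨L.t, by rw [← hL]; exact L.ht, ?_⟩
  rw [ld_kk_t Nat.prime_three hω h3 hπ L y, a5]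
  intro h
  rw [ZMod.intCast_zmod_eq_zero_iff_dvd] at h
  push_cast at h
  omega

end H38.WM
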