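import Pool.Agent.H38.WM.Def
import Pool.Agent.H63.MA.KumB

/-!
# [H38 WM Lab] at most three primes of a cubic extension over every prime, 30-50 lines. File Pool/Agent/H38/WM/Lab.lean

Proof. For a prime `l` of `K` the primes of `F` over `l` are at most `finrank K F = 3` in number: Mathlib
`Ideal.sum_ramification_inertia` (each term `e f ≥ 1`), or `Ideal.primesOver` / `IsDedekindDomain.primesOver...ncard_le`. So there is
an injection of `{P // Over P l}` (finite: `H63.MA.over_finite`) into `Fin 3`; choose one for every `l` and put
`e P = (the injection for the prime l below P) P` (`H63.MA.exists_below`, `below_unique`).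
-/

set_option autoImplicit false

open scoped NumberField
open IsDedekindDomain NumberField H38.ML H63.MA

noncomputable section

namespace H38.WM

variable {K : IntermediateField ℚ QBar} [NumberField K]

private theorem lab_one (F : IntermediateField K QBar) [NumberField F] (h3 : Module.finrank K F = 3)
    (l : Pl K) : ∃ f : Pl F → Fin 3, ∀ P P' : Pl F, Over P l → Over P' l → f P = f P' → P = P' := by
  have hmax : l.asIdeal.IsMaximal := l.isPrime.isMaximal l.ne_bot
  have hnz : NoZeroSMulDivisors (𝓞 K) (𝓞 F) := by
    have hinj : Function.Injective (algebraMap (𝓞 K) (𝓞 F)) :=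
      FaithfulSMul.algebraMap_injective (𝓞 K) (𝓞 F)
    constructor
    intro x y h
    rw [Algebra.smul_def, mul_eq_zero] at h
    rcases h with h | h
    · left
      exact hinj (by rw [h, map_zero])
    · right
      exact h
  have hcard : (IsDedekindDomain.primesOverFinset l.asIdeal (𝓞 F)).card ≤ 3 := by
    rw [← h3]
    exact Ideal.card_primesOverFinset_le_finrank (𝓞 F) K F l.ne_bot
  have hmem : ∀ P : Pl F, Over P l → P.asIdeal ∈ IsDedekindDomain.primesOverFinset l.asIdeal (𝓞 F) := by
    intro P hP
    rw [IsDedekindDomain.mem_primesOverFinset_iff l.ne_bot]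
    exact ⟨P.isPrime, ⟨hP.symm⟩⟩
  classical
  refine ⟨fun P => if h : P.asIdeal ∈ IsDedekindDomain.primesOverFinset l.asIdeal (𝓞 F) then
    Fin.castLE hcard ((IsDedekindDomain.primesOverFinset l.asIdeal (𝓞 F)).equivFin ⟨P.asIdeal, h⟩) else 0,
    fun P P' hP hP' h => ?_⟩
  simp only [dif_pos (hmem P hP), dif_pos (hmem P' hP')] at h
  have h1 := (IsDedekindDomain.primesOverFinset l.asIdeal (𝓞 F)).equivFin.injective
    (Fin.castLE_injective hcard h)
  exact HeightOneSpectrum.ext (congrArg Subtype.val h1)

theorem lab (F : IntermediateField K QBar) [NumberField F] (h3 : Module.finrank K F = 3) :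
    ∃ e : Pl F → Fin 3, ∀ (P P' : Pl F) (l : Pl K), Over P l → Over P' l → e P = e P' → P = P' := by
  choose f hf using lab_one F h3
  choose b hb using fun P : Pl F => exists_below (K := K) P
  refine ⟨fun P => f (b P) P, fun P P' l hP hP' h => ?_⟩
  have h1 : b P = l := below_unique (hb P) hP
  have h2 : b P' = l := below_unique (hb P') hP'
  beta_reduce at h
  rw [h1, h2] at h
  exact hf l P P' hP hP' h

end H38.WM
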