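import Pool.Agent.H38.WM.Def
import Pool.Agent.H46.UnitsNear

/-!
# [H38 WM Bal] balancing by `n`-th powers of units, 60-100 lines. File Pool/Agent/H38/WM/Bal.lean

(helper63 proves a more general form (F2) in H63/W1; if it is on main use it.)
Proof. `Pool.Agent.H46.unitLattice_near K`: there is `C ≥ 0` such that every `y : logSpace K` is within `C` of
`logEmbedding K (Additive.ofMul e)` for some unit `e`. Put `d = finrank ℚ K`, `Λ = log |N x|`, `a_w = log (w x)`; `∑_w mult_w a_w = Λ`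
(`InfinitePlace.prod_eq_abs_norm`). Take `y_w = mult_w (Λ / d - a_w) / n` for `w ≠ w₀`: there is `e` with
`|mult_w log (w e) - mult_w (Λ/d - a_w)/n| ≤ C` for `w ≠ w₀`, and for `w₀` the same with `(number of places) C` because
`∑ mult_w log (w e) = 0` (`sum_mult_mul_log`) and `∑_w mult_w (Λ/d - a_w) = 0` (`∑ mult_w = d`: `InfinitePlace.sum_mult_eq`). See the
proof of `Pool.Agent.H46.units_near` in the same file, lines 46-100, for this argument. Multiply by `n` and divide by `mult_w ≥ 1`: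
`|log (w (e^n x)) - Λ/d| ≤ C'`, so `w (e^n x) ≤ exp(C') |N x|^(1/d)` and conversely. `nrm1 K x = exp (Λ/d)`.
-/

set_option autoImplicit false

open scoped NumberField
open IsDedekindDomain NumberField H38.ML H63.MA

noncomputable section

namespace H38.WM

open NumberField.InfinitePlace NumberField.Units NumberField.Units.dirichletUnitTheorem in
private theorem near_sum (K : Type) [Field K] [NumberField K] :
    ∃ C : ℝ, 0 ≤ C ∧ ∀ b : InfinitePlace K → ℝ, ∑ v, (mult v : ℝ) * b v = 0 →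
      ∃ u : (𝓞 K)ˣ, ∀ v : InfinitePlace K, |Real.log (v ((u : 𝓞 K) : K)) - b v| ≤ C := by
  classical
  obtain ⟨C, hC, hnear⟩ := Pool.Agent.H46.unitLattice_near K
  refine ⟨C + Fintype.card (InfinitePlace K) * C, by positivity, fun b hsum => ?_⟩
  obtain ⟨u, hu⟩ := hnear (fun v => mult v.1 * b v.1)
  refine ⟨u, fun v => ?_⟩
  have hcoord : ∀ v : InfinitePlace K, v ≠ w₀ →
      |mult v * Real.log (v ((u : 𝓞 K) : K)) - mult v * b v| ≤ C := by
    intro v hv
    have h1 := (norm_le_pi_norm (logEmbedding K (Additive.ofMul u)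
      - fun v : {v : InfinitePlace K // v ≠ w₀} => (mult v.1 : ℝ) * b v.1) ⟨v, hv⟩).trans hu
    rwa [Pi.sub_apply, logEmbedding_component, Real.norm_eq_abs] at h1
  have hall : |mult v * Real.log (v ((u : 𝓞 K) : K)) - mult v * b v|
        ≤ C + Fintype.card (InfinitePlace K) * C := by
    by_cases hv : v = w₀
    · subst hv
      have e1 := sum_mult_mul_log u
      have e3 : ∑ v : InfinitePlace K,
          (mult v * Real.log (v ((u : 𝓞 K) : K)) - mult v * b v) = 0 := by
        rw [Finset.sum_sub_distrib, e1, hsum, sub_zero]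
      rw [← Finset.add_sum_erase _ _ (Finset.mem_univ (w₀ : InfinitePlace K))] at e3
      have e4 : mult (w₀ : InfinitePlace K) * Real.log ((w₀ : InfinitePlace K) ((u : 𝓞 K) : K))
          - mult (w₀ : InfinitePlace K) * b w₀
          = -∑ v ∈ Finset.univ.erase (w₀ : InfinitePlace K),
            (mult v * Real.log (v ((u : 𝓞 K) : K)) - mult v * b v) := by
        linarith
      rw [e4, abs_neg]
      calc |∑ v ∈ Finset.univ.erase (w₀ : InfinitePlace K),
            (mult v * Real.log (v ((u : 𝓞 K) : K)) - mult v * b v)|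
          ≤ ∑ v ∈ Finset.univ.erase (w₀ : InfinitePlace K),
            |mult v * Real.log (v ((u : 𝓞 K) : K)) - mult v * b v| :=
            Finset.abs_sum_le_sum_abs _ _
        _ ≤ ∑ v ∈ Finset.univ.erase (w₀ : InfinitePlace K), C :=
            Finset.sum_le_sum fun v hv => hcoord v (Finset.ne_of_mem_erase hv)
        _ = ((Finset.univ.erase (w₀ : InfinitePlace K)).card : ℝ) * C := by
            rw [Finset.sum_const, nsmul_eq_mul]
        _ ≤ Fintype.card (InfinitePlace K) * C := by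
            apply mul_le_mul_of_nonneg_right _ hC
            have := Finset.card_le_univ (Finset.univ.erase (w₀ : InfinitePlace K))
            exact_mod_cast this
        _ ≤ C + Fintype.card (InfinitePlace K) * C := by linarith
    · refine (hcoord v hv).trans ?_
      have : 0 ≤ (Fintype.card (InfinitePlace K) : ℝ) * C := by positivity
      linarith
  have hmult : (1 : ℝ) ≤ mult v := by
    exact_mod_cast (Nat.one_le_iff_ne_zero.mpr (mult_ne_zero (w := v)))
  rw [← mul_sub, abs_mul, Nat.abs_cast] at hall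
  have h4 := abs_nonneg (Real.log (v ((u : 𝓞 K) : K)) - b v)
  nlinarith

theorem bal (K : Type) [Field K] [NumberField K] (n : ℕ) (hn : 0 < n) :
    ∃ C₀ : ℝ, 1 ≤ C₀ ∧ ∀ x : 𝓞 K, x ≠ 0 → ∃ e : (𝓞 K)ˣ, ∀ w : InfinitePlace K,
      w (((e : 𝓞 K) ^ n * x : 𝓞 K) : K) ≤ C₀ * nrm1 K x ∧
        nrm1 K x ≤ C₀ * w (((e : 𝓞 K) ^ n * x : 𝓞 K) : K) := by
  obtain ⟨C, hC, hu⟩ := near_sum K
  refine ⟨Real.exp (n * C), Real.one_le_exp (by positivity), fun x hx => ?_⟩
  have hn' : (0 : ℝ) < n := by exact_mod_cast hn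
  have hd : (0 : ℝ) < (Module.finrank ℚ K : ℝ) := by
    exact_mod_cast Module.finrank_pos
  have hxK : ((x : 𝓞 K) : K) ≠ 0 := by
    intro h
    exact hx (by exact_mod_cast h)
  have hN0 : (Algebra.norm ℤ x : ℤ) ≠ 0 := by
    rw [ne_eq, Algebra.norm_eq_zero_iff]
    exact hx
  have hNpos : (0 : ℝ) < |((Algebra.norm ℤ x : ℤ) : ℝ)| := by
    rw [abs_pos]
    exact_mod_cast hN0
  have hpos : ∀ w : InfinitePlace K, 0 < w ((x : 𝓞 K) : K) := fun w =>
    InfinitePlace.pos_iff.2 hxK
  have hprod : ∏ w : InfinitePlace K, w ((x : 𝓞 K) : K) ^ InfinitePlace.mult w =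
      |((Algebra.norm ℤ x : ℤ) : ℝ)| := by
    rw [InfinitePlace.prod_eq_abs_norm, ← Algebra.coe_norm_int]
    push_cast
    rfl
  have hlog : ∑ w : InfinitePlace K, (InfinitePlace.mult w : ℝ) * Real.log (w ((x : 𝓞 K) : K)) =
      Real.log |((Algebra.norm ℤ x : ℤ) : ℝ)| := by
    rw [← hprod, Real.log_prod (fun w _ => pow_ne_zero _ (hpos w).ne')]
    refine Finset.sum_congr rfl fun w _ => ?_
    rw [Real.log_pow]
  obtain ⟨Λ, hΛ⟩ : ∃ Λ : ℝ, Λ = Real.log |((Algebra.norm ℤ x : ℤ) : ℝ)| := ⟨_, rfl⟩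
  rw [← hΛ] at hlog
  have hnrm : nrm1 K x = Real.exp (Λ / (Module.finrank ℚ K : ℝ)) := by
    unfold nrm1
    rw [Real.rpow_def_of_pos hNpos, ← hΛ]
    congr 1
    ring
  have hmult : ∑ w : InfinitePlace K, (InfinitePlace.mult w : ℝ) = (Module.finrank ℚ K : ℝ) := by
    have h1 := InfinitePlace.sum_mult_eq (K := K)
    exact_mod_cast h1
  obtain ⟨e, he⟩ := hu (fun w => (Λ / (Module.finrank ℚ K : ℝ) -
    Real.log (w ((x : 𝓞 K) : K))) / n) (by
      have h1 : ∀ w : InfinitePlace K, (InfinitePlace.mult w : ℝ) *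
          ((Λ / (Module.finrank ℚ K : ℝ) - Real.log (w ((x : 𝓞 K) : K))) / n) =
          ((InfinitePlace.mult w : ℝ) * (Λ / (Module.finrank ℚ K : ℝ)) -
            (InfinitePlace.mult w : ℝ) * Real.log (w ((x : 𝓞 K) : K))) / n := by
        intro w
        ring
      rw [Finset.sum_congr rfl fun w _ => h1 w, ← Finset.sum_div, Finset.sum_sub_distrib,
        ← Finset.sum_mul, hmult, hlog, mul_div_cancel₀ _ hd.ne', sub_self, zero_div])
  refine ⟨e, fun w => ?_⟩
  have hepos : 0 < w ((e : 𝓞 K) : K) := by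
    rw [InfinitePlace.pos_iff]
    intro h
    exact e.ne_zero (by exact_mod_cast h)
  have hw : w (((e : 𝓞 K) ^ n * x : 𝓞 K) : K) =
      w ((e : 𝓞 K) : K) ^ n * w ((x : 𝓞 K) : K) := by
    push_cast
    rw [map_mul, map_pow]
  have hwpos : 0 < w (((e : 𝓞 K) ^ n * x : 𝓞 K) : K) := by
    rw [hw]
    exact mul_pos (pow_pos hepos n) (hpos w)
  have hlw : Real.log (w (((e : 𝓞 K) ^ n * x : 𝓞 K) : K)) =
      n * Real.log (w ((e : 𝓞 K) : K)) + Real.log (w ((x : 𝓞 K) : K)) := by
    rw [hw, Real.log_mul (pow_pos hepos n).ne' (hpos w).ne', Real.log_pow]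
  have hb := he w
  rw [abs_le] at hb
  have h1 : n * ((Λ / (Module.finrank ℚ K : ℝ) - Real.log (w ((x : 𝓞 K) : K))) / n) =
      Λ / (Module.finrank ℚ K : ℝ) - Real.log (w ((x : 𝓞 K) : K)) :=
    mul_div_cancel₀ _ hn'.ne'
  have h2 := mul_le_mul_of_nonneg_left hb.1 hn'.le
  have h3 := mul_le_mul_of_nonneg_left hb.2 hn'.le
  rw [mul_sub, h1] at h2 h3
  constructor
  · rw [hnrm, ← Real.exp_add, ← Real.exp_log hwpos]
    apply Real.exp_le_exp.2
    rw [hlw]
    linarith
  · rw [hnrm]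
    calc Real.exp (Λ / (Module.finrank ℚ K : ℝ))
        ≤ Real.exp (n * C + Real.log (w (((e : 𝓞 K) ^ n * x : 𝓞 K) : K))) := by
          apply Real.exp_le_exp.2
          rw [hlw]
          linarith
      _ = _ := by rw [Real.exp_add, Real.exp_log hwpos]

end H38.WM
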