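import Pool.Agent.H38.WM.Def

/-!
# [H38 WM Itg] integral and bounded at `T` after multiplication with the cube of a `T`-unit, 40-70 lines. File Pool/Agent/H38/WM/Itg.lean

Proof. `H63.MA.sunit_gen l`: for every prime `l` there are `x_l : Kˣ` and `h_l > 0` with `ord l x_l = h_l`, `ord w x_l = 0` for
`w ≠ l`. Put `N = max over l ∈ T of 3 h_l + 1` (or the sum). Given `y` put `k_l = -(ord l y / (3 h_l))` (floor division of integers)
and `c = ∏ l ∈ T, x_l ^ k_l`. Then for `l ∈ T`: `ord l (y c^3) = ord l y + 3 h_l k_l = ord l y mod (3 h_l)` (`Int.emod_nonneg`,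
`Int.emod_lt_of_pos`); for `l ∉ T`: `ord l c = 0`. Finally `y c^3` has `ord l ≥ 0` at all primes, so it is an algebraic integer:
`HeightOneSpectrum.mem_integers_of_valuation_le_one` and `ord_nonneg_iff` (see `sunit_exists` in `H63/MA/SUnit.lean`).
Tools: `ord_mul`, `ord_pow`, `ord_zpow`, `ord_prod` (H63/MA/SymA.lean).
-/

set_option autoImplicit false

open scoped NumberField
open IsDedekindDomain NumberField H38.ML H63.MA

noncomputable section

namespace H38.WM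

theorem itg {K : Type} [Field K] [NumberField K] (T : Finset (Pl K)) :
    ∃ N : ℕ, ∀ y : Kˣ, (∀ l, l ∉ T → 0 ≤ ord l y) →
      ∃ (c : Kˣ) (u : 𝓞 K), TUnit T c ∧ (∀ l ∈ T, ord l (y * c ^ 3) < N) ∧
        ((y * c ^ 3 : Kˣ) : K) = (u : K) := by
  classical
  choose x h hh hx hx' using fun l : Pl K => sunit_gen l
  refine ⟨∑ l ∈ T, 3 * h l, fun y hy => ?_⟩
  obtain ⟨k, hk⟩ : ∃ k : Pl K → ℤ, ∀ l, k l = -(ord l y / (3 * h l)) := ⟨_, fun _ => rfl⟩
  have hc : ∀ w, w ∈ T → ord w (∏ l ∈ T, x l ^ k l) = k w * h w := by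
    intro w hw
    rw [ord_prod, Finset.sum_eq_single w]
    · rw [ord_zpow, hx]
    · intro l _ hl
      rw [ord_zpow, hx' l w hl.symm, mul_zero]
    · intro h1
      exact absurd hw h1
  have hc' : ∀ w, w ∉ T → ord w (∏ l ∈ T, x l ^ k l) = 0 := by
    intro w hw
    rw [ord_prod]
    refine Finset.sum_eq_zero fun l hl => ?_
    rw [ord_zpow, hx' l w (fun h1 => hw (h1 ▸ hl)), mul_zero]
  have h1 : ∀ l ∈ T, 0 ≤ ord l (y * (∏ l ∈ T, x l ^ k l) ^ 3) ∧
      ord l (y * (∏ l ∈ T, x l ^ k l) ^ 3) < 3 * h l := by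
    intro l hl
    have h3 : (0 : ℤ) < 3 * h l := by
      have := hh l
      omega
    have h2 : ord l (y * (∏ l ∈ T, x l ^ k l) ^ 3) = ord l y % (3 * h l) := by
      rw [ord_mul, ord_pow, hc l hl, hk, Int.emod_def]
      push_cast
      ring
    rw [h2]
    exact ⟨Int.emod_nonneg _ h3.ne', Int.emod_lt_of_pos _ h3⟩
  have h2 : ∀ l, 0 ≤ ord l (y * (∏ l ∈ T, x l ^ k l) ^ 3) := by
    intro l
    by_cases hl : l ∈ T
    · exact (h1 l hl).1
    · rw [ord_mul, ord_pow, hc' l hl, mul_zero, add_zero]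
      exact hy l hl
  have h3 : ((y * (∏ l ∈ T, x l ^ k l) ^ 3 : Kˣ) : K) ∈ (algebraMap (𝓞 K) K).range := by
    apply HeightOneSpectrum.mem_integers_of_valuation_le_one
    intro v
    rw [← ord_nonneg_iff]
    exact h2 v
  obtain ⟨u, hu⟩ := h3
  refine ⟨∏ l ∈ T, x l ^ k l, u, fun w hw => hc' w hw, fun l hl => ?_, hu.symm⟩
  refine lt_of_lt_of_le (h1 l hl).2 ?_
  have h4 : 3 * h l ≤ ∑ l ∈ T, 3 * h l := Finset.single_le_sum (f := fun l => 3 * h l) (fun _ _ => Nat.zero_le _) hl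
  exact_mod_cast h4

end H38.WM
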