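import Pool.Agent.H38.WM.Def2

/-!
# [H38 WM Om2] basic facts about `M = K(ω)`, 50-80 lines. File Pool/Agent/H38/WM/Om2.lean

Proofs. `om_inv`: an automorphism of `M/K` is determined by its value at `ω` (`M = K(ω)`: `IntermediateField.adjoin` and
`algHom_ext`-type lemma), and `τ (τ ω) = τ (ω^2) = ω^4 = ω`. `om_sq`: for `σ : Gal(QBar/K)`, `σ ω` is a primitive cube root of unity, so
`ω` or `ω^2`; `σ (σ ω) = ω` in both cases, so `σ^2` fixes `K(ω) = M`. `om_lift`: `τ` extends to `QBar` (`AlgEquiv.liftNormal`,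
`QBar/K` is normal). `om_dich`: `σ ω = ω` or `σ ω = ω^2`; in the first case `σ` fixes `M`, so `σ = σ'.restrictScalars K`
(`IntermediateField.fixingSubgroupEquiv`). `exM`: let `ω ∈ QBar` be a primitive cube root of unity (`IsAlgClosed`, `X^2 + X + 1`, or
`IsCyclotomicExtension`/`HasEnoughRootsOfUnity`), not in `K`; `M = K(ω)`; the minimal polynomial is `X^2 + X + 1`, which has the root
`ω^2 ∈ M`, so there is an automorphism with `ω ↦ ω^2` (`IntermediateField.adjoin` and `minpoly.algEquiv`/`AlgEquiv` from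
`Normal.exists...`: or restrict an automorphism of `QBar` moving `ω`: it exists because `ω ∉ K` and `QBar/K` is Galois, and `M` is
normal over `K`: `AlgEquiv.restrictNormal`). `NumberField M`: finite over `K`.
-/

set_option autoImplicit false

open scoped NumberField
open IsDedekindDomain NumberField H38.ML H63.MA

noncomputable section

namespace H38.WM

variable {K : IntermediateField ℚ QBar} [NumberField K] {M : IntermediateField K QBar}
  [NumberField M]

omit [NumberField K] [NumberField M] in
/-- an automorphism which fixes `ω` fixes `M = K(ω)` -/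
private theorem fix_of {ω : M} (ht : IntermediateField.adjoin K {(ω : QBar)} = M)
    (σ : Gal(QBar/K)) (h : σ (ω : QBar) = ω) (x : M) : σ (x : QBar) = x := by
  have key : ∀ y ∈ IntermediateField.adjoin K {(ω : QBar)}, σ y = y := by
    intro y hy
    induction hy using IntermediateField.adjoin_induction with
    | mem y hy =>
      rw [Set.mem_singleton_iff] at hy
      rw [hy]
      exact h
    | algebraMap y => exact σ.commutes y
    | add y z _ _ h1 h2 => rw [map_add, h1, h2]
    | inv y _ h1 => rw [map_inv₀, h1]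
    | mul y z _ _ h1 h2 => rw [map_mul, h1, h2]
  refine key x ?_
  rw [ht]
  exact x.2

omit [NumberField K] [NumberField M] in
/-- an automorphism which fixes `M` is an automorphism over `M` -/
private theorem up_of (σ : Gal(QBar/K)) (h : ∀ x : M, σ (x : QBar) = x) :
    ∃ σ' : Gal(QBar/M), (σ'.restrictScalars K : Gal(QBar/K)) = σ :=
  ⟨{ σ.toRingEquiv with commutes' := h }, AlgEquiv.ext fun _ => rfl⟩

omit [NumberField K] in
private theorem img_of {ω : QBar} (hω : IsPrimitiveRoot ω 3) (σ : Gal(QBar/K)) :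
    σ ω = ω ∨ σ ω = ω ^ 2 := by
  have h1 : (σ ω) ^ 3 = 1 := by rw [← map_pow, hω.pow_eq_one, map_one]
  obtain ⟨i, hi, h2⟩ := hω.eq_pow_of_pow_eq_one h1
  have h3 : i ≠ 0 := by
    rintro rfl
    rw [pow_zero] at h2
    have h4 : ω = 1 := by
      apply σ.injective
      rw [← h2, map_one]
    exact hω.ne_one (by norm_num) h4
  have h4 : i = 1 ∨ i = 2 := by omega
  rcases h4 with rfl | rfl
  · left
    rw [← h2, pow_one]
  · right
    rw [← h2]

omit [NumberField K] [NumberField M] in
private theorem prim_coe {ω : M} (h : IsPrimitiveRoot ω 3) : IsPrimitiveRoot (ω : QBar) 3 :=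
  h.map_of_injective (f := algebraMap M QBar) (algebraMap M QBar).injective

omit [NumberField K] in
private theorem sq_fix {ω : QBar} (hω : IsPrimitiveRoot ω 3) (σ : Gal(QBar/K)) :
    σ (σ ω) = ω := by
  rcases img_of hω σ with h | h
  · rw [h, h]
  · rw [h, map_pow, h, ← pow_mul]
    have h1 : ω ^ (2 * 2) = ω ^ 3 * ω := by ring
    rw [h1, hω.pow_eq_one, one_mul]

private theorem lift_ex (τ : Gal(M/K)) :
    ∃ s : Gal(QBar/K), ∀ x : M, s (x : QBar) = (τ x : M) := by
  have : Normal K QBar := inferInstance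
  exact ⟨AlgEquiv.liftNormal τ QBar, fun x => AlgEquiv.liftNormal_commutes τ QBar x⟩

theorem om_inv (τ : Gal(M/K)) (ω : M) (H : Om τ ω) (x : M) : τ (τ x) = x := by
  obtain ⟨s, hs⟩ := lift_ex τ
  have h1 : (s * s : Gal(QBar/K)) (ω : QBar) = ω := sq_fix (prim_coe H.prim) s
  have h2 := fix_of H.top (s * s) h1 x
  apply Subtype.ext
  rw [← hs (τ x), ← hs x]
  exact h2

theorem om_sq (τ : Gal(M/K)) (ω : M) (H : Om τ ω) (σ : Gal(QBar/K)) :
    ∃ σ' : Gal(QBar/M), (σ'.restrictScalars K : Gal(QBar/K)) = σ * σ :=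
  up_of _ (fix_of H.top (σ * σ) (sq_fix (prim_coe H.prim) σ))

theorem om_lift (τ : Gal(M/K)) : ∃ s : Gal(QBar/K), ∀ x : M, s (x : QBar) = (τ x : M) :=
  lift_ex τ

/-- conjugation by an element of `Gal(QBar/K)` maps `Gal(QBar/M)` to itself -/
theorem om_conj (τ : Gal(M/K)) (ω : M) (H : Om τ ω) (s : Gal(QBar/K)) (σ : Gal(QBar/M)) :
    ∃ σ' : Gal(QBar/M), (σ'.restrictScalars K : Gal(QBar/K)) =
      s⁻¹ * (σ.restrictScalars K : Gal(QBar/K)) * s := by
  refine up_of _ (fix_of H.top _ ?_)
  have h1 : σ (s (ω : QBar)) = s (ω : QBar) := by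
    have h2 : σ (ω : QBar) = ω := σ.commutes ω
    rcases img_of (prim_coe H.prim) s with h | h
    · rw [h, h2]
    · rw [h, map_pow, h2]
  show s.symm (σ (s (ω : QBar))) = ω
  rw [h1]
  exact s.symm_apply_apply _

theorem exM (K : IntermediateField ℚ QBar) [NumberField K]
    (hK : ∀ ω : K, ¬ IsPrimitiveRoot ω 3) :
    ∃ (M : IntermediateField K QBar) (_ : NumberField M) (τ : Gal(M/K)) (ω : M), Om τ ω := by
  obtain ⟨ω, hω⟩ := HasEnoughRootsOfUnity.exists_primitiveRoot QBar 3
  have : Normal K QBar := inferInstance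
  have : IsGalois K QBar := inferInstance
  have h1 : ∃ σ : Gal(QBar/K), σ ω ≠ ω := by
    by_contra hcon
    push Not at hcon
    have h2 := (InfiniteGalois.mem_bot_iff_fixed ω).2 hcon
    rw [IntermediateField.mem_bot] at h2
    obtain ⟨k, hk⟩ := h2
    refine hK k (IsPrimitiveRoot.of_map_of_injective (f := algebraMap K QBar) ?_
      (algebraMap K QBar).injective)
    rw [hk]
    exact hω
  obtain ⟨σ, hσ⟩ := h1
  have hσ2 : σ ω = ω ^ 2 := (img_of hω σ).resolve_left hσ
  obtain ⟨M, hM⟩ : ∃ M : IntermediateField K QBar, M = IntermediateField.adjoin K {ω} :=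
    ⟨_, rfl⟩
  have hωM : ω ∈ M := by
    rw [hM]
    exact IntermediateField.mem_adjoin_simple_self K ω
  have hint : IsIntegral K ω := Algebra.IsIntegral.isIntegral ω
  have hfd : FiniteDimensional K M := by
    rw [hM]
    exact IntermediateField.adjoin.finiteDimensional hint
  have hnf : NumberField M := NumberField.of_module_finite K M
  have hnor : Normal K M := by
    rw [IntermediateField.normal_iff_forall_map_le']
    intro g
    rw [hM, IntermediateField.adjoin_map, Set.image_singleton,
      IntermediateField.adjoin_simple_le_iff]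
    have h3 : (g : QBar →ₐ[K] QBar) ω = g ω := rfl
    rw [h3]
    rcases img_of hω g with h | h
    · rw [h]
      exact IntermediateField.mem_adjoin_simple_self K ω
    · rw [h]
      exact pow_mem (IntermediateField.mem_adjoin_simple_self K ω) 2
  refine ⟨M, hnf, AlgEquiv.restrictNormal σ M, ⟨ω, hωM⟩, ⟨?_, ?_, ?_⟩⟩
  · exact IsPrimitiveRoot.of_map_of_injective (f := algebraMap M QBar) hω
      (algebraMap M QBar).injective
  · exact hM.symm
  · apply Subtype.ext
    have h3 := AlgEquiv.restrictNormal_commutes σ M (⟨ω, hωM⟩ : M)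
    exact h3.trans hσ2

end H38.WM
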