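import Pool.Agent.H38.WM.Def

/-!
# [H38 WM Uni] `T`-units modulo `n`-th powers are finite in number, 30-60 lines. File Pool/Agent/H38/WM/Uni.lean

Proof. `H63.MA.ut_finite T`: the `ℤ`-module `A = Additive (UT T)` is finitely generated, so `A / n A` is finite (finitely generated
and torsion: Mathlib `Module.finite_of_fg_torsion` / `AddCommGroup...`; or: generators `g_1..g_r` (`Module.Finite.fg_top`,
`Submodule.fg_iff...`), every element is `∑ k_i g_i`, `k_i = n q_i + r_i` with `0 ≤ r_i < n`, so take for `E` the finitely many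
`∏ g_i ^ r_i`, and `c = ∏ g_i ^ q_i`; this second proof needs no quotient). `mem_UT`, `TUnit T x ↔ x ∈ UT T` by definition.
-/

set_option autoImplicit false

open scoped NumberField
open IsDedekindDomain NumberField H38.ML H63.MA

noncomputable section

namespace H38.WM

theorem ut_mod {K : Type} [Field K] [NumberField K] (T : Finset (Pl K)) (n : ℕ) (hn : 0 < n) :
    ∃ E : Finset Kˣ, ∀ x : Kˣ, TUnit T x →
      ∃ e ∈ E, ∃ c : Kˣ, TUnit T e ∧ TUnit T c ∧ x = e * c ^ n := by
  classical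
  have hn0 : NeZero n := ⟨hn.ne'⟩
  have hfin := ut_finite T
  obtain ⟨m, f, hf⟩ := Module.Finite.exists_fin' ℤ (Additive (UT T))
  let g : (Fin m → Fin n) → Kˣ := fun r =>
    ((Additive.toMul (f (fun i => ((r i : ℕ) : ℤ))) : UT T) : Kˣ)
  refine ⟨Finset.univ.image g, ?_⟩
  intro x hx
  obtain ⟨c, hc⟩ := hf (Additive.ofMul (⟨x, hx⟩ : UT T))
  have hppos : (0 : ℤ) < n := by exact_mod_cast hn
  let r : Fin m → Fin n := fun i => ⟨(c i % n).toNat, by
    have h1 := Int.emod_nonneg (c i) hppos.ne'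
    have h2 := Int.emod_lt_of_pos (c i) hppos
    omega⟩
  let e : Fin m → ℤ := fun i => c i / n
  have hcr : c = (fun i => ((r i : ℕ) : ℤ)) + (n : ℤ) • e := by
    funext i
    have h1 := Int.emod_nonneg (c i) hppos.ne'
    have h2 : ((r i : ℕ) : ℤ) = c i % n := Int.toNat_of_nonneg h1
    rw [Pi.add_apply, Pi.smul_apply, smul_eq_mul, h2]
    exact (Int.emod_add_mul_ediv (c i) n).symm
  refine ⟨g r, Finset.mem_image_of_mem g (Finset.mem_univ r),
    ((Additive.toMul (f e) : UT T) : Kˣ),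
    (Additive.toMul (f (fun i => ((r i : ℕ) : ℤ))) : UT T).2, (Additive.toMul (f e) : UT T).2, ?_⟩
  have h3 : Additive.ofMul (⟨x, hx⟩ : UT T) = f (fun i => ((r i : ℕ) : ℤ)) + (n : ℤ) • f e := by
    rw [← hc, ← map_smul, ← map_add, ← hcr]
  have h4 := congrArg (fun a : Additive (UT T) => ((Additive.toMul a : UT T) : Kˣ)) h3
  simp only [toMul_ofMul, toMul_add, Subgroup.coe_mul, toMul_zsmul,
    zpow_natCast] at h4
  exact h4

end H38.WM
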