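import Pool.Agent.H38.WM.OrT
import Pool.Agent.H38.WM.Om2
import Pool.Agent.H38.WM.Uni
import Pool.Agent.H38.WM.Itg
import Pool.Agent.H38.WM.Bal
import Pool.Agent.H63.MA.ClFin

/-!
# [H38 WM AdE2] every `x ∈ M^*` with `x τ(x)` a cube is `u τ(u)^2` times a cube, `u` normalised, 120-180 lines. File Pool/Agent/H38/WM/AdE2.lean

Please read the proof of `adm_ex` (AdmEx.lean) first; this is the same with one more symmetry.
Proof. `T₀` with `ClOne T₀` (`exists_clone`), `T = T₀ ∪ τ T₀` (image under the map `T` of `orT`; `clone_mono`), so `T` is stable under `τ`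
(`om_inv`). `E` from `ut_mod T 3`, `N` from `itg T`, `C₀` from `bal M 3`, `m = 6 (N + 2) ∏ l ∈ T, nm l`.
Let `x` with `x τ(x) = y^3`. So `ord l x + ord (τ l) x = 3 ord l y` for all `l` (`orT`; `τ l` is `T l`). `clone_ord`: `z` with
`ord l z = 1` if `ord l x % 3 = 1` and `0` otherwise, `l ∉ T`; and `z'` with `ord l z' = (ord l x - ord l z - 2 ord (τ l) z) / 3` for
`l ∉ T`. For `l ∉ T`: if `ord l x % 3 = 1` then `ord (τ l) x % 3 = 2`, `ord l (z τ(z)^2) = 1 + 0`; if `ord l x % 3 = 2` then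
`ord (τ l) x % 3 = 1` and `ord l (z τ(z)^2) = 0 + 2`; if `0` then `0`. So `x / (z τ(z)^2 z'^3)` is a `T`-unit, `= e c^3`, `e ∈ E`.
`e τ(e)` is a cube (up to cubes it is `x τ(x) / (z τ(z)^2 τ(z) z^2) = (y / (z τ(z)))^3`), say `e τ(e) = y'^3`; so
`e = e⁻¹ τ(e)^(-2) (y'^2 )^3 ...`: precisely `e⁻¹ (τ(e)⁻¹)^2 = e (e τ(e))^(-2) = e (y'^(-2))^3`. Hence with `w = z e⁻¹`:
`w τ(w)^2 = z τ(z)^2 e⁻¹ τ(e)^(-2) = z τ(z)^2 e (y'^(-2))^3`, and `x = w τ(w)^2 · cube`. `itg` for `w` (`ord l w ≥ 0` for `l ∉ T`):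
`u0 = w c1^3 ∈ 𝓞 M`, `ord l u0 < N` for `l ∈ T`; replace `w` by `u0` (`w τ(w)^2` changes by the cube of `c1 τ(c1)^2`). `bal`: a unit `e1`
with `u = e1^3 u0` balanced. `τ • u` is balanced with the same constant: the places `w ∘ τ` are a permutation of the places and
`N(τ u) = N(u)` (`nrm1 M (τ • u) = nrm1 M u`). `good`: if `m ∉ l` then `l ∉ T`, `T l ∉ T`, `ord l (u τ(u)) = ord l u + ord (T l) u ≤ 1`
because `ord l x % 3` and `ord (T l) x % 3` are not both `1`. `badu`, `badv`: `ord l u < N` or `≤ 1`, less than `m` (for `τ • u` use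
`T l`, and `m ∈ l ↔ m ∈ T l`). The finite set `E` is not needed for uniformity here (only for `c`); what matters is `N`, `C₀`, `m`.
-/

set_option autoImplicit false

open scoped NumberField
open IsDedekindDomain NumberField H38.ML H63.MA

noncomputable section

namespace H38.WM

variable {K : IntermediateField ℚ QBar} [NumberField K] {M : IntermediateField K QBar}
  [NumberField M]

private theorem mem_pow_iff2 {K : Type} [Field K] [NumberField K] (z : 𝓞 K) (z' : Kˣ)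
    (hz : (z' : K) = (z : K)) (l : Pl K) (k : ℕ) : z ∈ l.asIdeal ^ k ↔ (k : ℤ) ≤ ord l z' := by
  have h1 := val_eq l z'
  have h2 : l.valuation K (z' : K) = l.intValuation z := by
    rw [hz]
    exact l.valuation_of_algebraMap z
  rw [← l.intValuation_le_pow_iff_mem, ← h2, h1, WithZero.exp_le_exp, neg_le_neg_iff]

private theorem nrm1_unit2 {K : Type} [Field K] [NumberField K] (e : (𝓞 K)ˣ) (x : 𝓞 K) (n : ℕ) :
    nrm1 K ((e : 𝓞 K) ^ n * x) = nrm1 K x := by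
  have h1 : IsUnit (Algebra.norm ℤ (e : 𝓞 K)) := e.isUnit.map (Algebra.norm ℤ)
  have h2 : |Algebra.norm ℤ (e : 𝓞 K)| = 1 := Int.isUnit_iff_abs_eq.1 h1
  unfold nrm1
  congr 1
  have h3 : |(Algebra.norm ℤ ((e : 𝓞 K) ^ n * x) : ℤ)| = |(Algebra.norm ℤ x : ℤ)| := by
    rw [map_mul, map_pow, abs_mul, abs_pow, h2, one_pow, one_mul]
  exact_mod_cast h3

private theorem nrm1_smul (τ : Gal(M/K)) (u : 𝓞 M) : nrm1 M (τ • u) = nrm1 M u := by
  have h1 : Algebra.norm ℤ (τ • u) = Algebra.norm ℤ u := by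
    let e : 𝓞 M ≃ₐ[ℤ] 𝓞 M := AlgEquiv.ofRingEquiv
      (f := MulSemiringAction.toRingEquiv Gal(M/K) (𝓞 M) τ) (fun r => by simp)
    exact Algebra.norm_eq_of_algEquiv e u
  unfold nrm1
  rw [h1]

/-- the group identities -/
private theorem grp {G : Type} [CommGroup G] (s : G →* G) (hs : ∀ g, s (s g) = g)
    (x y z z' e c : G) (h1 : x * s x = y ^ 3) (h2 : x * (z * s z ^ 2 * z' ^ 3)⁻¹ = e * c ^ 3)
    (c1 f : G) :
    ∃ g : G, x = (f ^ 3 * ((z * e⁻¹) * c1 ^ 3)) * (s (f ^ 3 * ((z * e⁻¹) * c1 ^ 3))) ^ 2 * g ^ 3 := by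
  have hx : x = e * c ^ 3 * (z * s z ^ 2 * z' ^ 3) := by
    rw [← h2, inv_mul_cancel_right]
  have hsx : s x = s e * s c ^ 3 * (s z * z ^ 2 * s z' ^ 3) := by
    rw [hx]
    simp only [map_mul, map_pow, hs]
  obtain ⟨y', hy'⟩ : ∃ y' : G, y' = y * (c * s c * z * s z * z' * s z')⁻¹ := ⟨_, rfl⟩
  have he : e * s e = y' ^ 3 := by
    rw [hsx] at h1
    rw [hx] at h1
    rw [hy', mul_pow, ← h1]
    rw [inv_pow, eq_mul_inv_iff_mul_eq]
    simp only [mul_pow]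
    have : ∀ a b c d f g k l : G, a * b * (c ^ 3 * d ^ 3 * f ^ 3 * g ^ 3 * k ^ 3 * l ^ 3) =
        a * c ^ 3 * (f * g ^ 2 * k ^ 3) * (b * d ^ 3 * (g * f ^ 2 * l ^ 3)) := by
      intro a b c d f g k l
      simp only [pow_succ, pow_zero, one_mul]
      ac_rfl
    exact this _ _ _ _ _ _ _ _
  refine ⟨y' ^ 2 * c * z' * c1⁻¹ * (s c1)⁻¹ ^ 2 * f⁻¹ * (s f)⁻¹ ^ 2, ?_⟩
  simp only [map_mul, map_pow, map_inv]
  have h3 : (y' ^ 2 * c * z' * c1⁻¹ * (s c1)⁻¹ ^ 2 * f⁻¹ * (s f)⁻¹ ^ 2) ^ 3 =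
      (e * s e) ^ 2 * (c ^ 3 * z' ^ 3 * (c1⁻¹) ^ 3 * ((s c1)⁻¹ ^ 3) ^ 2 * f⁻¹ ^ 3 *
        ((s f)⁻¹ ^ 3) ^ 2) := by
    rw [he]
    simp only [mul_pow, ← pow_mul]
    simp only [mul_assoc]
  rw [h3]
  conv_lhs => rw [hx]
  simp only [inv_pow]
  have h4 : ∀ a a' c z sz z' c1 c1' f f' : G,
      f * (z * a⁻¹ * c1) * (f' * (sz * a'⁻¹ * c1')) ^ 2 *
        ((a * a') ^ 2 * (c * z' * c1⁻¹ * (c1' ^ 2)⁻¹ * f⁻¹ * (f' ^ 2)⁻¹)) =
      a * c * (z * sz ^ 2 * z') := by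
    intro a a' c z sz z' c1 c1' f f'
    simp only [mul_pow, inv_pow]
    have h5 : ∀ a a2 c z sz2 z' c1 c12 f f2 : G,
        f * (z * a⁻¹ * c1) * (f2 * (sz2 * a2⁻¹ * c12)) *
          (a ^ 2 * a2 * (c * z' * c1⁻¹ * c12⁻¹ * f⁻¹ * f2⁻¹)) =
        a * c * (z * sz2 * z') := by
      intro a a2 c z sz2 z' c1 c12 f f2
      have h6 : f * (z * a⁻¹ * c1) * (f2 * (sz2 * a2⁻¹ * c12)) *
          (a ^ 2 * a2 * (c * z' * c1⁻¹ * c12⁻¹ * f⁻¹ * f2⁻¹)) =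
          (f * f⁻¹) * (c1 * c1⁻¹) * (f2 * f2⁻¹) * (c12 * c12⁻¹) * (a2 * a2⁻¹) * (a * a⁻¹) *
            (a * c * (z * sz2 * z')) := by
        rw [pow_two]
        ac_rfl
      rw [h6]
      simp only [mul_inv_cancel, one_mul]
    exact h5 _ _ _ _ _ _ _ _ _ _
  rw [h4]

theorem adE2 (τ : Gal(M/K)) (ω : M) (H : Om τ ω) :
    ∃ (m : ℕ) (C₀ : ℝ), m ≠ 0 ∧ 6 ∣ m ∧ ∀ x : Mˣ,
      (∃ y : Mˣ, x * Units.map (τ : M →* M) x = y ^ 3) →
        ∃ (u : 𝓞 M) (c : Mˣ), AdmG M m C₀ u (τ • u) ∧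
          (x : M) = (u : M) * ((τ • u : 𝓞 M) : M) ^ 2 * (c : M) ^ 3 := by
  classical
  obtain ⟨Tm, hTo, hTm, -, -⟩ := orT τ
  have inv : ∀ x : M, τ (τ x) = x := om_inv τ ω H
  obtain ⟨s, hs⟩ : ∃ s : Mˣ →* Mˣ, s = Units.map (τ : M →* M) := ⟨_, rfl⟩
  have hsv : ∀ x : Mˣ, ((s x : Mˣ) : M) = τ (x : M) := by
    intro x
    rw [hs]
    rfl
  have invu : ∀ x : Mˣ, s (s x) = x := by
    intro x
    apply Units.ext
    rw [hsv, hsv]
    exact inv x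
  have invo : ∀ a : 𝓞 M, τ • τ • a = a := fun a => RingOfIntegers.ext (inv a)
  have hTT : ∀ l : Pl M, Tm (Tm l) = l := by
    intro l
    apply HeightOneSpectrum.ext
    ext a
    rw [hTm, hTm, invo]
  rw [← hs] at hTo ⊢
  obtain ⟨T₀, hT₀⟩ := exists_clone M
  obtain ⟨T, hTd⟩ : ∃ T : Finset (Pl M), T = T₀ ∪ T₀.image Tm := ⟨_, rfl⟩
  have hT : ClOne T := clone_mono hT₀ (by rw [hTd]; exact Finset.subset_union_left)
  have hTs : ∀ l, l ∉ T → Tm l ∉ T := by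
    intro l hl h
    apply hl
    rw [hTd, Finset.mem_union, Finset.mem_image] at h ⊢
    rcases h with h | ⟨l', h, h'⟩
    · right
      exact ⟨Tm l, h, hTT l⟩
    · left
      have h2 : l' = l := by
        rw [← hTT l', h', hTT l]
      rw [← h2]
      exact h
  obtain ⟨E, hE⟩ := ut_mod T 3 (by norm_num)
  obtain ⟨N, hN⟩ := itg T
  obtain ⟨C₀, hC₀, hbal⟩ := bal M 3 (by norm_num)
  obtain ⟨m, hmdef⟩ : ∃ m : ℕ, m = 6 * (N + 2) * ∏ l ∈ T, nm l := ⟨_, rfl⟩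
  have hPpos : 0 < ∏ l ∈ T, nm l := Finset.prod_pos fun l _ => lt_trans one_pos (one_lt_nm l)
  have hmN : N + 2 ≤ m := by
    rw [hmdef]
    have h1 : 1 ≤ ∏ l ∈ T, nm l := hPpos
    have h2 : 6 * (N + 2) * 1 ≤ 6 * (N + 2) * ∏ l ∈ T, nm l := Nat.mul_le_mul_left _ h1
    omega
  have hmL : ∀ l ∈ T, (m : 𝓞 M) ∈ l.asIdeal := by
    intro l hl
    have h1 : (nm l : 𝓞 M) ∈ l.asIdeal := Ideal.absNorm_mem l.asIdeal
    have h2 : nm l ∣ m := by
      rw [hmdef]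
      exact (Finset.dvd_prod_of_mem _ hl).mul_left _
    obtain ⟨k, hk⟩ := h2
    rw [hk]
    push_cast
    exact Ideal.mul_mem_right _ _ h1
  refine ⟨m, C₀, by omega, ⟨(N + 2) * ∏ l ∈ T, nm l, by rw [hmdef]; ring⟩, fun x hx => ?_⟩
  obtain ⟨y, hy⟩ := hx
  have hxy : ∀ l, ord l x + ord (Tm l) x = 3 * ord l y := by
    intro l
    rw [hTo, ← ord_mul, hy, ord_pow]
    push_cast
    rfl
  have hfx := finite_ord x
  have hfx2 : {l : Pl M | ord l x ≠ 0 ∨ ord (Tm l) x ≠ 0}.Finite := by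
    have h1 : {l : Pl M | ord l x ≠ 0 ∨ ord (Tm l) x ≠ 0} =
        {l : Pl M | ord l x ≠ 0} ∪ {l : Pl M | ord l (s x) ≠ 0} := by
      ext l
      simp only [Set.mem_setOf_eq, Set.mem_union, hTo]
    rw [h1]
    exact (finite_ord x).union (finite_ord (s x))
  obtain ⟨z, hz⟩ := clone_ord hT (fun l => if ord l x % 3 = 1 then 1 else 0)
    (hfx.subset fun l hl => by
      intro h0
      apply hl
      simp [h0])
  have hzT : ∀ l, l ∉ T → ord l (s z) = if ord (Tm l) x % 3 = 1 then 1 else 0 := by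
    intro l hl
    rw [← hTo, hz _ (hTs l hl)]
  obtain ⟨z', hz'⟩ := clone_ord hT (fun l => (ord l x - (if ord l x % 3 = 1 then 1 else 0) -
      2 * (if ord (Tm l) x % 3 = 1 then 1 else 0)) / 3)
    (hfx2.subset fun l hl => by
      by_contra h0
      simp only [Set.mem_setOf_eq, not_or, not_not] at h0
      apply hl
      simp [h0.1, h0.2])
  obtain ⟨e, -, c, he, hc, hxe⟩ := hE (x * (z * s z ^ 2 * z' ^ 3)⁻¹) (fun l hl => by
    rw [ord_mul, ord_inv, ord_mul, ord_mul, ord_pow, ord_pow, hz l hl, hzT l hl, hz' l hl]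
    have h1 := hxy l
    push_cast
    split_ifs <;> omega)
  obtain ⟨c1, u0, hc1, hu1, hu0⟩ := hN (z * e⁻¹) (fun l hl => by
    rw [ord_mul, ord_inv, he l hl, hz l hl]
    split_ifs <;> norm_num)
  have hu00 : u0 ≠ 0 := by
    rintro rfl
    exact (z * e⁻¹ * c1 ^ 3).ne_zero (by rw [hu0]; simp)
  obtain ⟨e1, he1⟩ := hbal u0 hu00
  obtain ⟨U, hU⟩ : ∃ U : Mˣ, U = (sunit_co M e1) ^ 3 * ((z * e⁻¹) * c1 ^ 3) := ⟨_, rfl⟩
  have hE1 : (U : M) = (((e1 : 𝓞 M) ^ 3 * u0 : 𝓞 M) : M) := by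
    rw [hU, Units.val_mul, hu0]
    push_cast
    rfl
  have oU : ∀ l : Pl M, ord l U = ord l (z * e⁻¹ * c1 ^ 3) := by
    intro l
    rw [hU, ord_mul, ord_pow, sunit_co_ord, mul_zero, zero_add]
  have oU' : ∀ l : Pl M, l ∉ T → ord l U = if ord l x % 3 = 1 then 1 else 0 := by
    intro l hl
    rw [oU, ord_mul, ord_mul, ord_pow, ord_inv, he l hl, hc1 l hl, hz l hl]
    ring
  have hbu : ∀ l : Pl M, ord l U < (m : ℤ) := by
    intro l
    by_cases hl : l ∈ T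
    · have := hu1 l hl
      rw [oU]
      omega
    · rw [oU' l hl]
      split_ifs <;> omega
  obtain ⟨u, hu⟩ : ∃ u : 𝓞 M, u = (e1 : 𝓞 M) ^ 3 * u0 := ⟨_, rfl⟩
  rw [← hu] at hE1
  have hE2 : ((s U : Mˣ) : M) = ((τ • u : 𝓞 M) : M) := by
    rw [hsv, hE1]
    rfl
  have hu' : u ≠ 0 := by
    rw [hu]
    exact mul_ne_zero (pow_ne_zero _ e1.ne_zero) hu00
  have hb1 : ∀ w : InfinitePlace M, w (u : M) ≤ C₀ * nrm1 M u ∧ nrm1 M u ≤ C₀ * w (u : M) := by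
    intro w
    have h1 := he1 w
    rw [hu, nrm1_unit2]
    exact h1
  have hb2 : ∀ w : InfinitePlace M, w ((τ • u : 𝓞 M) : M) ≤ C₀ * nrm1 M (τ • u) ∧
      nrm1 M (τ • u) ≤ C₀ * w ((τ • u : 𝓞 M) : M) := by
    intro w
    have h1 := hb1 (w.comap (τ : M →+* M))
    rw [nrm1_smul]
    exact h1
  obtain ⟨g, hg⟩ := grp s invu x y z z' e c hy hxe c1 (sunit_co M e1)
  rw [← hU] at hg
  refine ⟨u, g, ⟨hu', ?_, fun l hl => ?_, fun l _ => ?_, fun l _ => ?_, fun w => (hb1 w).1,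
    fun w => (hb1 w).2, fun w => (hb2 w).1, fun w => (hb2 w).2⟩, ?_⟩
  · intro h
    apply hu'
    rw [← invo u, h, smul_zero]
  · have hlT : l ∉ T := fun h => hl (hmL l h)
    rw [mem_pow_iff2 _ (U * s U) (by rw [Units.val_mul, hE1, hE2]; push_cast; rfl), ord_mul,
      oU' l hlT, ← hTo, oU' _ (hTs l hlT)]
    have h1 := hxy l
    split_ifs <;> omega
  · rw [mem_pow_iff2 _ _ hE1]
    have := hbu l
    omega
  · rw [mem_pow_iff2 _ _ hE2, ← hTo]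
    have := hbu (Tm l)
    omega
  · have h2 := congrArg (fun z : Mˣ => (z : M)) hg
    simp only [Units.val_mul, Units.val_pow_eq_pow_val] at h2 ⊢
    rw [h2, hE1, hE2]

end H38.WM
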