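import Pool.Agent.H38.WM.Uni
import Pool.Agent.H38.WM.Itg
import Pool.Agent.H38.WM.Bal
import Pool.Agent.H63.MA.ClFin

/-!
# [H38 WM AdmEx] every element of `K^*` is `u v^2` times a cube with `(u, v)` normalised, 90-140 lines. File Pool/Agent/H38/WM/AdmEx.lean

Proof. `T` a finite set of primes with `ClOne T` (`H63.MA.exists_clone`). `E` from `ut_mod T 3`, `N` from `itg T`, `C₀` from
`bal K 3`. `M := 6 (N + 2) (max' over e in E ...)`, precisely: `M = 6 * (N + 2) * ∏ l ∈ T, nm l`; then `nm l ∈ l` gives `M ∈ l` for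
`l ∈ T` (`Ideal.absNorm_mem`), `M ≥ N + 2`, `6 ∣ M`, `M ≠ 0`.
Given `x`, put for `l ∉ T`: `m1 l = 1` if `ord l x % 3 = 1`, else `0`; `m2 l = 1` if `ord l x % 3 = 2`, else `0`; `m3 l = ord l x / 3`;
so `ord l x = m1 + 2 m2 + 3 m3`, and all three are `0` for almost all `l` (`finite_ord`). `H63.MA.clone_ord` gives `y1, y2, y3` with
`ord l yi = mi l` for `l ∉ T`. `x / (y1 y2^2 y3^3)` is a `T`-unit, so it is `e c^3` with `e ∈ E`, `e, c` `T`-units. `itg` for `e y1` and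
for `y2`: `u0 = e y1 c1^3`, `v0 = y2 c2^3` are in `𝓞 K`, `ord l u0 < N` for `l ∈ T`, and `ord l u0 = m1 l`, `ord l v0 = m2 l` for
`l ∉ T`. `x = u0 v0^2 (y3 c c1⁻¹ (c2^2)⁻¹)^3`. `bal` gives units: `u = e1^3 u0`, `v = e2^3 v0` (`|N u| = |N u0|`), cube changed.
`good`: `M ∉ l` implies `l ∉ T`, `ord l (u v) = m1 + m2 ≤ 1`, so `u v ∉ l^2`. `badu`: `ord l u < N` or `≤ 1`, so `u ∉ l^M`. Use:
for `z : 𝓞 K`, `z ≠ 0`, as unit `z'` of `K`: `z ∈ l^k → k ≤ ord l z'` (`HeightOneSpectrum.valuation_le_pow_iff_mem`,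
`valuation_of_algebraMap`, `intValuation_le_pow_iff_mem`; `ord` is `-log` of the valuation).
-/

set_option autoImplicit false

open scoped NumberField
open IsDedekindDomain NumberField H38.ML H63.MA

noncomputable section

namespace H38.WM

private theorem mem_pow_iff {K : Type} [Field K] [NumberField K] (z : 𝓞 K) (z' : Kˣ)
    (hz : (z' : K) = (z : K)) (l : Pl K) (k : ℕ) : z ∈ l.asIdeal ^ k ↔ (k : ℤ) ≤ ord l z' := by
  have h1 := val_eq l z'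
  have h2 : l.valuation K (z' : K) = l.intValuation z := by
    rw [hz]
    exact l.valuation_of_algebraMap z
  rw [← l.intValuation_le_pow_iff_mem, ← h2, h1, WithZero.exp_le_exp, neg_le_neg_iff]

private theorem nrm1_unit {K : Type} [Field K] [NumberField K] (e : (𝓞 K)ˣ) (x : 𝓞 K) (n : ℕ) :
    nrm1 K ((e : 𝓞 K) ^ n * x) = nrm1 K x := by
  have h1 : IsUnit (Algebra.norm ℤ (e : 𝓞 K)) := e.isUnit.map (Algebra.norm ℤ)
  have h2 : |Algebra.norm ℤ (e : 𝓞 K)| = 1 := Int.isUnit_iff_abs_eq.1 h1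
  unfold nrm1
  congr 1
  have h3 : |(Algebra.norm ℤ ((e : 𝓞 K) ^ n * x) : ℤ)| = |(Algebra.norm ℤ x : ℤ)| := by
    rw [map_mul, map_pow, abs_mul, abs_pow, h2, one_pow, one_mul]
  exact_mod_cast h3

variable (K : IntermediateField ℚ QBar) [NumberField K]

theorem adm_ex : ∃ (M : ℕ) (C₀ : ℝ), M ≠ 0 ∧ 6 ∣ M ∧ ∀ x : Kˣ, ∃ (u v : 𝓞 K) (c : Kˣ),
    Adm K M C₀ u v ∧ (x : K) = (u : K) * (v : K) ^ 2 * (c : K) ^ 3 := by
  classical
  obtain ⟨T, hT⟩ := exists_clone K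
  obtain ⟨E, hE⟩ := ut_mod T 3 (by norm_num)
  obtain ⟨N, hN⟩ := itg T
  obtain ⟨C₀, hC₀, hbal⟩ := bal K 3 (by norm_num)
  obtain ⟨M, hMdef⟩ : ∃ M : ℕ, M = 6 * (N + 2) * ∏ l ∈ T, nm l := ⟨_, rfl⟩
  have hPpos : 0 < ∏ l ∈ T, nm l := Finset.prod_pos fun l _ => lt_trans one_pos (one_lt_nm l)
  have hMN : N + 2 ≤ M := by
    rw [hMdef]
    have h1 : 1 ≤ ∏ l ∈ T, nm l := hPpos
    have h2 : 6 * (N + 2) * 1 ≤ 6 * (N + 2) * ∏ l ∈ T, nm l := Nat.mul_le_mul_left _ h1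
    omega
  have hML : ∀ l ∈ T, (M : 𝓞 K) ∈ l.asIdeal := by
    intro l hl
    have h1 : (nm l : 𝓞 K) ∈ l.asIdeal := Ideal.absNorm_mem l.asIdeal
    have h2 : nm l ∣ M := by
      rw [hMdef]
      exact (Finset.dvd_prod_of_mem _ hl).mul_left _
    obtain ⟨k, hk⟩ := h2
    rw [hk]
    push_cast
    exact Ideal.mul_mem_right _ _ h1
  refine ⟨M, C₀, by omega, ⟨(N + 2) * ∏ l ∈ T, nm l, by rw [hMdef]; ring⟩, fun x => ?_⟩
  have hfx := finite_ord x
  obtain ⟨y1, hy1⟩ := clone_ord hT (fun l => if ord l x % 3 = 1 then 1 else 0)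
    (hfx.subset fun l hl => by
      intro h0
      apply hl
      simp [h0])
  obtain ⟨y2, hy2⟩ := clone_ord hT (fun l => if ord l x % 3 = 2 then 1 else 0)
    (hfx.subset fun l hl => by
      intro h0
      apply hl
      simp [h0])
  obtain ⟨y3, hy3⟩ := clone_ord hT (fun l => ord l x / 3)
    (hfx.subset fun l hl => by
      intro h0
      apply hl
      simp [h0])
  obtain ⟨e, -, c, he, hc, hx⟩ := hE (x * (y1 * y2 ^ 2 * y3 ^ 3)⁻¹) (fun l hl => by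
    rw [ord_mul, ord_inv, ord_mul, ord_mul, ord_pow, ord_pow, hy1 l hl, hy2 l hl, hy3 l hl]
    have h1 := Int.emod_add_mul_ediv (ord l x) 3
    have h2 := Int.emod_nonneg (ord l x) (by norm_num : (3 : ℤ) ≠ 0)
    have h3 := Int.emod_lt_of_pos (ord l x) (by norm_num : (0 : ℤ) < 3)
    split_ifs <;> push_cast <;> omega)
  obtain ⟨c1, u0, hc1, hu1, hu0⟩ := hN (e * y1) (fun l hl => by
    rw [ord_mul, he l hl, hy1 l hl]
    split_ifs <;> norm_num)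
  obtain ⟨c2, v0, hc2, hv1, hv0⟩ := hN y2 (fun l hl => by
    rw [hy2 l hl]
    split_ifs <;> norm_num)
  have hu00 : u0 ≠ 0 := by
    rintro rfl
    exact (e * y1 * c1 ^ 3).ne_zero (by rw [hu0]; simp)
  have hv00 : v0 ≠ 0 := by
    rintro rfl
    exact (y2 * c2 ^ 3).ne_zero (by rw [hv0]; simp)
  obtain ⟨e1, he1⟩ := hbal u0 hu00
  obtain ⟨e2, he2⟩ := hbal v0 hv00
  have hE1 : (((sunit_co K e1) ^ 3 * (e * y1 * c1 ^ 3) : Kˣ) : K) =
      (((e1 : 𝓞 K) ^ 3 * u0 : 𝓞 K) : K) := by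
    rw [Units.val_mul, hu0]
    push_cast
    rfl
  have hE2 : (((sunit_co K e2) ^ 3 * (y2 * c2 ^ 3) : Kˣ) : K) =
      (((e2 : 𝓞 K) ^ 3 * v0 : 𝓞 K) : K) := by
    rw [Units.val_mul, hv0]
    push_cast
    rfl
  have oU : ∀ l : Pl K, ord l ((sunit_co K e1) ^ 3 * (e * y1 * c1 ^ 3)) =
      ord l (e * y1 * c1 ^ 3) := by
    intro l
    rw [ord_mul, ord_pow, sunit_co_ord, mul_zero, zero_add]
  have oV : ∀ l : Pl K, ord l ((sunit_co K e2) ^ 3 * (y2 * c2 ^ 3)) = ord l (y2 * c2 ^ 3) := by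
    intro l
    rw [ord_mul, ord_pow, sunit_co_ord, mul_zero, zero_add]
  have oU' : ∀ l : Pl K, l ∉ T → ord l (e * y1 * c1 ^ 3) = if ord l x % 3 = 1 then 1 else 0 := by
    intro l hl
    rw [ord_mul, ord_mul, ord_pow, he l hl, hc1 l hl, hy1 l hl]
    ring
  have oV' : ∀ l : Pl K, l ∉ T → ord l (y2 * c2 ^ 3) = if ord l x % 3 = 2 then 1 else 0 := by
    intro l hl
    rw [ord_mul, ord_pow, hc2 l hl, hy2 l hl]
    ring
  have hbu : ∀ l : Pl K, ord l (e * y1 * c1 ^ 3) < (M : ℤ) := by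
    intro l
    by_cases hl : l ∈ T
    · have := hu1 l hl
      omega
    · rw [oU' l hl]
      split_ifs <;> omega
  have hbv : ∀ l : Pl K, ord l (y2 * c2 ^ 3) < (M : ℤ) := by
    intro l
    by_cases hl : l ∈ T
    · have := hv1 l hl
      omega
    · rw [oV' l hl]
      split_ifs <;> omega
  refine ⟨(e1 : 𝓞 K) ^ 3 * u0, (e2 : 𝓞 K) ^ 3 * v0,
    y3 * c * c1⁻¹ * (c2 ^ 2)⁻¹ * (sunit_co K e1)⁻¹ * ((sunit_co K e2) ^ 2)⁻¹, ?_, ?_⟩
  · refine ⟨?_, ?_, fun l hl => ?_, fun l _ => ?_, fun l _ => ?_, fun w => ?_, fun w => ?_,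
      fun w => ?_, fun w => ?_⟩
    · exact mul_ne_zero (pow_ne_zero _ e1.ne_zero) hu00
    · exact mul_ne_zero (pow_ne_zero _ e2.ne_zero) hv00
    · have hlT : l ∉ T := fun h => hl (hML l h)
      rw [mem_pow_iff _ ((sunit_co K e1) ^ 3 * (e * y1 * c1 ^ 3) *
        ((sunit_co K e2) ^ 3 * (y2 * c2 ^ 3))) (by
          rw [Units.val_mul, hE1, hE2]
          push_cast
          rfl), ord_mul, oU, oV, oU' l hlT, oV' l hlT]
      split_ifs <;> omega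
    · rw [mem_pow_iff _ _ hE1, oU]
      have := hbu l
      omega
    · rw [mem_pow_iff _ _ hE2, oV]
      have := hbv l
      omega
    · rw [nrm1_unit]
      exact (he1 w).1
    · rw [nrm1_unit]
      exact (he1 w).2
    · rw [nrm1_unit]
      exact (he2 w).1
    · rw [nrm1_unit]
      exact (he2 w).2
  · have h1 : x = ((sunit_co K e1) ^ 3 * (e * y1 * c1 ^ 3)) * ((sunit_co K e2) ^ 3 *
        (y2 * c2 ^ 3)) ^ 2 * (y3 * c * c1⁻¹ * (c2 ^ 2)⁻¹ * (sunit_co K e1)⁻¹ *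
        ((sunit_co K e2) ^ 2)⁻¹) ^ 3 := by
      have h2 : x = (e * c ^ 3) * (y1 * y2 ^ 2 * y3 ^ 3) := by
        rw [← hx, inv_mul_cancel_right]
      have h3 : ∀ a b c' d f g s t w : Kˣ, (a * b ^ 3) * (c' * d ^ 2 * f ^ 3) =
          (s ^ 3 * (a * c' * g ^ 3)) * (t ^ 3 * (d * w ^ 3)) ^ 2 *
          (f * b * g⁻¹ * (w ^ 2)⁻¹ * s⁻¹ * (t ^ 2)⁻¹) ^ 3 := by
        intro a b c' d f g s t w
        apply Units.ext
        push_cast
        field_simp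
      rw [h2]
      exact h3 _ _ _ _ _ _ _ _ _
    have h2 := congrArg (fun z : Kˣ => (z : K)) h1
    simp only [Units.val_mul, Units.val_pow_eq_pow_val] at h2 ⊢
    rw [h2]
    rw [Units.val_mul, Units.val_pow_eq_pow_val] at hE1 hE2
    simp only [Units.val_mul, Units.val_pow_eq_pow_val] at hE1 hE2
    rw [hE1, hE2]

end H38.WM
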