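import Pool.Agent.H38.WM.BrE
import Pool.Agent.H88.A4.Iface2
import Pool.Agent.H94.TL.Glob

/-!
# [H38 WM Br2] stage 2: from `Cf` (subfields of `QBar`) to `Dat2` (abstract fields), 80-120 lines. File Pool/Agent/H38/WM/Br2.lean

`tO_smul`: both have the value `τ u` in `M`. `br_invo`: `[M:K] = 2` (`ω ∉ K` because `τ ω = ω^2 ≠ ω`, and `ω^2 + ω + 1 = 0`, `M = K(ω)`), `τ τ = 1`
(`om_inv`), fixed elements are in `K` (`a + b ω` with `b (ω^2 - ω) = 0`; or Galois theory: `M/K` Galois of degree 2 with group `{1, τ}`).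

`br2`. `F'` = `IntermediateField.adjoin M {rt2 τ u}` (as a type), `t1 = rt2 τ u`, `t2 = s t1` with `s` from `brS` (`s t1 = u τ(u) / t1 ∈ F'`).
`Algebra F F'` is the inclusion (`brD_le`), `(RingHom).toAlgebra`; the towers hold because all maps are inclusions into `QBar`.
`deg` = `h.deg`, `deg'` = `brD`, `gen`: `t1` generates `F'` by definition, `cub` = `rt2_pow`, `prd` = last clause of `brS`, `nsq` = `Sel.nsq`,
`nsq'` = `brN`, `ind` = `brE` (independence in `QBar` gives independence in `F'`).
`cnj`: apply `s` to `z = z0 + z1 t1 + z2 t2` (`z ∈ F`, so `s z = z`; `s t1 = t2`; `s t2 = s (s t1) = t1` because `s (u τ(u)) = u τ(u)`):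
`z = τ(z0) + τ(z1) t2 + τ(z2) t1`; `1, t1, t2` are linearly independent over `M` (`deg'`; `t2 = u τ(u) / t1` is a nonzero multiple of `t1^2`:
`t1^3 = u τ(u)^2`, so `t2 = t1^2 / τ(u)`), hence `z0 = τ z0`, `z1 = τ z2`, `z2 = τ z1`.
`isq` from `Even (ord P a)` for all `P : Pl F`: the fractional ideal of `a` is a product of even powers; the same lemma is needed in stage 1
(H88/A4/CSt or RVal; search `J ^ 2` there, or ask helper88).
Last clause: `algebraMap (a b) = c * c` in `F'`, `brQ`.
-/

set_option autoImplicit false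

open scoped NumberField nonZeroDivisors
open IsDedekindDomain NumberField H38.ML H63.MA

noncomputable section

namespace H38.WM

variable {K : IntermediateField ℚ QBar} [NumberField K] {M : IntermediateField K QBar}
  [NumberField M]

theorem tO_smul (τ : Gal(M/K)) (u : 𝓞 M) : H88.A4.tO τ u = τ • u := by
  apply RingOfIntegers.ext
  rfl

omit [NumberField K] [NumberField M] in
private theorem br_no (τ : Gal(M/K)) (ω : M) (H : Om τ ω) (r : K) (hr : ω = algebraMap K M r) :
    False := by
  have h11 : τ ω = ω := by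
    rw [hr]
    exact τ.commutes r
  rw [H.act] at h11
  apply brE_ne τ ω H
  have h12 := congrArg (fun z : M => (z : QBar)) h11
  have h13 : (ω : QBar) ^ 2 = ω := h12
  rw [h13, sub_self]

theorem br_invo (τ : Gal(M/K)) (ω : M) (H : Om τ ω) : H88.A4.Invo K M τ := by
  have hqQ := brE_quadQ τ ω H
  refine ⟨?_, om_inv τ ω H, fun x => ⟨fun hx => ?_, ?_⟩⟩
  · have h1 : Module.finrank K M =
        Module.finrank K (IntermediateField.adjoin K {(ω : QBar)}) := by rw [H.top]
    have hmon : (Polynomial.X ^ 2 + Polynomial.X + 1 : Polynomial K).Monic := by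
      monicity!
    have hroot : Polynomial.aeval (ω : QBar) (Polynomial.X ^ 2 + Polynomial.X + 1 : Polynomial K)
        = 0 := by
      rw [map_add, map_add, map_pow, Polynomial.aeval_X, map_one]
      exact hqQ
    have hint : IsIntegral K (ω : QBar) := ⟨_, hmon, hroot⟩
    rw [h1, IntermediateField.adjoin.finrank hint]
    have h2 : (minpoly K (ω : QBar)).natDegree ≤ 2 := by
      refine (Polynomial.natDegree_le_of_dvd (minpoly.dvd K _ hroot) hmon.ne_zero).trans ?_
      compute_degree!
    have h3 : 0 < (minpoly K (ω : QBar)).natDegree := minpoly.natDegree_pos hint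
    have h4 : (minpoly K (ω : QBar)).natDegree ≠ 1 := by
      intro h5
      rw [minpoly.natDegree_eq_one_iff] at h5
      obtain ⟨r, hr⟩ := h5
      exact br_no τ ω H r (Subtype.ext hr.symm)
    omega
  · obtain ⟨c, d, hcd⟩ := brE_cd τ ω H x
    have h1 : x = algebraMap K M c + algebraMap K M d * ω := Subtype.ext hcd
    have h2 := hx
    rw [h1, map_add, map_mul, AlgEquiv.commutes, AlgEquiv.commutes, H.act] at h2
    have h3 : algebraMap K M d * (ω - ω ^ 2) = 0 := by linear_combination -h2
    have h4 : ω - ω ^ 2 ≠ 0 := fun h => brE_ne τ ω H (congrArg (fun z : M => (z : QBar)) h)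
    have h5 := (mul_eq_zero.1 h3).resolve_right h4
    refine ⟨c, ?_⟩
    rw [h1, h5, zero_mul, add_zero]
  · rintro ⟨r, rfl⟩
    exact τ.commutes r

/-- an element with even valuations generates a square of a fractional ideal -/
private theorem br_isq {F : Type} [Field F] [NumberField F] (a : Fˣ)
    (h : ∀ P : Pl F, Even (ord P a)) :
    ∃ J : FractionalIdeal (𝓞 F)⁰ F, FractionalIdeal.spanSingleton (𝓞 F)⁰ (a : F) = J ^ 2 := by
  obtain ⟨x, y, hy, hxy⟩ := IsFractionRing.div_surjective (A := 𝓞 F) (a : F)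
  have hy0 : y ≠ 0 := nonZeroDivisors.ne_zero hy
  have hyF : algebraMap (𝓞 F) F y ≠ 0 := by
    rw [Ne, FaithfulSMul.algebraMap_eq_zero_iff]; exact hy0
  have hx0 : x ≠ 0 := by
    rintro rfl
    rw [map_zero, zero_div] at hxy
    exact a.ne_zero hxy.symm
  have hxyn : x * y ≠ 0 := mul_ne_zero hx0 hy0
  have hJ0 : Ideal.span {x * y} ≠ ⊥ := by
    rw [Ne, Ideal.span_singleton_eq_bot]
    exact hxyn
  have hmul : algebraMap (𝓞 F) F (x * y) = (a : F) * algebraMap (𝓞 F) F y ^ 2 := by
    rw [← hxy, map_mul]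
    field_simp
  obtain ⟨I, hI, -⟩ := Pool.Agent.H94.TL.exists_pow_ideal 2 (Ideal.span {x * y}) hJ0 (by
    intro w
    obtain ⟨m, hm⟩ := h w
    have h1 : w.valuation F (a : F) = (WithZero.exp (-m)) ^ 2 := by
      have h2 : WithZero.log (w.valuation F (a : F)) = -(m + m) := by
        have h3 : ord w a = -WithZero.log (w.valuation F (a : F)) := rfl
        rw [h3] at hm
        linarith
      have h4 : w.valuation F (a : F) ≠ 0 := by
        rw [Ne, map_eq_zero]
        exact a.ne_zero
      rw [← WithZero.exp_log h4, h2, ← WithZero.exp_nsmul]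
      congr 1
      ring
    refine Pool.Agent.H94.TL.dvd_of_exp_eq_pow (s := WithZero.exp (-m) * w.valuation F
      (algebraMap (𝓞 F) F y)) ?_ two_ne_zero
    have h5 : w.valuation F (algebraMap (𝓞 F) F (x * y)) = w.intValuation (x * y) :=
      w.valuation_of_algebraMap (x * y)
    rw [← w.intValuation_eq_exp_neg_multiplicity hxyn, ← h5, hmul, map_mul, h1, map_pow, mul_pow])
  refine ⟨(I : FractionalIdeal (𝓞 F)⁰ F) * FractionalIdeal.spanSingleton (𝓞 F)⁰
    (algebraMap (𝓞 F) F y)⁻¹, ?_⟩
  rw [mul_pow, ← FractionalIdeal.coeIdeal_pow, hI, FractionalIdeal.coeIdeal_span_singleton,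
    FractionalIdeal.spanSingleton_pow, FractionalIdeal.spanSingleton_mul_spanSingleton, hmul]
  congr 1
  field_simp

/-- `1, t, t ^ 2` are independent over `M` -/
private theorem br_ind {M F' : Type} [Field M] [Field F'] [Algebra M F'] {t1 t2 : F'}
    (h3 : (minpoly M t1).natDegree = 3) {x y z e : M} (he : e ≠ 0)
    (ht : t1 ^ 2 = algebraMap M F' e * t2)
    (h : algebraMap M F' x + algebraMap M F' y * t1 + algebraMap M F' z * t2 = 0) :
    x = 0 ∧ y = 0 ∧ z = 0 := by
  have he' : algebraMap M F' e ≠ 0 := by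
    rw [Ne, map_eq_zero]
    exact he
  set p : Polynomial M := Polynomial.C (x * e) + Polynomial.C (y * e) * Polynomial.X +
    Polynomial.C z * Polynomial.X ^ 2 with hp
  have h1 : Polynomial.aeval t1 p = 0 := by
    rw [hp]
    simp only [map_add, map_mul, Polynomial.aeval_C, Polynomial.aeval_X, map_pow]
    linear_combination (algebraMap M F' e) * h + (algebraMap M F' z) * ht
  have h2 : p.natDegree ≤ 2 := by
    rw [hp]
    compute_degree!
  have h4 : p = 0 := by
    refine Polynomial.eq_zero_of_dvd_of_natDegree_lt (minpoly.dvd M t1 h1) ?_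
    rw [h3]
    omega
  have h5 : p.coeff 0 = x * e := by simp [hp]
  have h6 : p.coeff 1 = y * e := by simp [hp, Polynomial.coeff_C]
  have h7 : p.coeff 2 = z := by simp [hp]
  rw [h4, Polynomial.coeff_zero] at h5 h6 h7
  exact ⟨(mul_eq_zero.1 h5.symm).resolve_right he, (mul_eq_zero.1 h6.symm).resolve_right he,
    h7.symm⟩

theorem br2 (τ : Gal(M/K)) (ω : M) (H : Om τ ω) (F : IntermediateField K QBar) [NumberField F]
    (u : 𝓞 M) (hu : u ≠ 0) (h : Cf τ F u) :
    ∃ (F' : Type) (_ : Field F') (_ : NumberField F') (_ : Algebra K F') (_ : Algebra M F')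
      (_ : Algebra F F') (_ : IsScalarTower K M F') (_ : IsScalarTower K F F') (t1 t2 : F'),
      (∀ a : Fˣ, Sel K F a → H88.A4.Dat2 τ F F' u t1 t2 (a : F)) ∧
      ∀ a b : Fˣ, Sel K F a → Sel K F b → IsSquare (algebraMap F F' ((a : F) * b)) →
        IsSquare ((a : F) * b) := by
  obtain ⟨ι, hι⟩ := brE_inc τ F u h
  obtain ⟨s, hs1, hs2, hs3⟩ := brS τ ω H F u hu h
  let A : IntermediateField M QBar := IntermediateField.adjoin M {rt2 τ u}
  have hfd : FiniteDimensional M A :=
    IntermediateField.adjoin.finiteDimensional (Algebra.IsIntegral.isIntegral _)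
  have hnf : NumberField A := NumberField.of_module_finite M A
  let alg : Algebra F A := ι.toAlgebra
  have htow1 : IsScalarTower K M A := inferInstance
  have htow2 : IsScalarTower K F A := IsScalarTower.of_algebraMap_eq fun k => by
    apply Subtype.ext
    show ((algebraMap K A k : A) : QBar) = ((ι (algebraMap K F k) : A) : QBar)
    rw [hι]
    rfl
  have hmemA : rt2 τ u ∈ A := IntermediateField.mem_adjoin_simple_self M _
  obtain ⟨t1, ht1⟩ : ∃ t1 : A, (t1 : QBar) = rt2 τ u := ⟨⟨_, hmemA⟩, rfl⟩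
  have huM : (u : M) ≠ 0 := RingOfIntegers.coe_ne_zero_iff.2 hu
  have htu : (τ (u : M)) ≠ 0 := by
    rw [Ne, map_eq_zero]
    exact huM
  have htO : ((H88.A4.tO τ u : 𝓞 M) : M) = τ (u : M) := rfl
  have hsm : (((τ • u : 𝓞 M)) : M) = τ (u : M) := rfl
  have hcub : t1 ^ 3 = algebraMap M A ((u : M) * (H88.A4.tO τ u : M) ^ 2) := by
    apply Subtype.ext
    have h1 := rt2_pow τ u
    rw [← ht1] at h1
    push_cast
    rw [h1, htO]
    show ((algebraMap (𝓞 M) M (u * (τ • u) ^ 2) : M) : QBar) = _
    rw [map_mul, map_pow]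
    rfl
  have ht0 : t1 ≠ 0 := by
    rintro rfl
    rw [zero_pow three_ne_zero] at hcub
    have h1 := hcub.symm
    rw [map_eq_zero] at h1
    exact mul_ne_zero huM (pow_ne_zero 2 htu) h1
  set t2 : A := algebraMap M A ((u : M) * (H88.A4.tO τ u : M)) / t1 with ht2
  have hprd : t1 * t2 = algebraMap M A ((u : M) * (H88.A4.tO τ u : M)) := by
    rw [ht2, mul_div_cancel₀ _ ht0]
  have hst1 : s (t1 : QBar) = t2 := by
    have h1 : s (t1 : QBar) * t1 = (t2 : QBar) * t1 := by
      have h3 : (t1 : QBar) * (t2 : QBar) = (((u : M) * τ (u : M) : M) : QBar) :=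
        congrArg (fun z : A => (z : QBar)) hprd
      rw [mul_comm (t2 : QBar), h3, ht1, hs3]
      show ((algebraMap (𝓞 M) M (u * (τ • u)) : M) : QBar) = _
      rw [map_mul]
      rfl
    have h4 : (t1 : QBar) ≠ 0 := fun h5 => ht0 (Subtype.ext h5)
    exact mul_right_cancel₀ h4 h1
  have hst2 : s (t2 : QBar) = t1 := by
    have h1 : (t1 : QBar) * (t2 : QBar) = (((u : M) * τ (u : M) : M) : QBar) :=
      congrArg (fun z : A => (z : QBar)) hprd
    have h2 := congrArg s h1
    rw [map_mul, hst1, hs1, map_mul, om_inv τ ω H, mul_comm (τ (u : M)), ← h1] at h2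
    have h4 : (t2 : QBar) ≠ 0 := fun h5 => by
      have h6 : t2 = 0 := Subtype.ext h5
      rw [h6, mul_zero] at hprd
      have h7 := hprd.symm
      rw [map_eq_zero] at h7
      exact mul_ne_zero huM htu h7
    have h5 : (t2 : QBar) * s (t2 : QBar) = (t2 : QBar) * t1 := by rw [h2, mul_comm]
    exact mul_left_cancel₀ h4 h5
  have hgen : IntermediateField.adjoin M {t1} = ⊤ := by
    apply IntermediateField.lift_injective
    rw [IntermediateField.lift_adjoin_simple, IntermediateField.lift_top, ht1]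
  have hdeg' : Module.finrank M A = 3 := brD τ ω H F u h
  have hmin : (minpoly M t1).natDegree = 3 := by
    rw [← hdeg', ← IntermediateField.finrank_top', ← hgen,
      IntermediateField.adjoin.finrank (Algebra.IsIntegral.isIntegral _)]
  have hsqt : t1 ^ 2 = algebraMap M A (τ (u : M)) * t2 := by
    have h1 : t1 * t1 ^ 2 = t1 * (algebraMap M A (τ (u : M)) * t2) := by
      have h2 : t1 * (algebraMap M A (τ (u : M)) * t2) = algebraMap M A (τ (u : M)) * (t1 * t2) := by
        ring
      rw [h2, hprd, htO, ← map_mul]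
      have h3 : t1 * t1 ^ 2 = t1 ^ 3 := by ring
      rw [h3, hcub, htO]
      congr 1
      ring
    exact mul_left_cancel₀ ht0 h1
  refine ⟨A, inferInstance, hnf, inferInstance, inferInstance, alg, htow1, htow2, t1, t2,
    fun a ha => ⟨h.deg, hdeg', hgen, hcub, hprd, ?_, ?_, a.ne_zero, ha.nsq, ?_,
      br_isq a ha.even⟩, ?_⟩
  · intro z z0 z1 z2 hz
    have h1 : (z : QBar) = (z0 : QBar) + (z1 : QBar) * t1 + (z2 : QBar) * t2 := by
      rw [← hι z]
      exact congrArg (fun y : A => (y : QBar)) hz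
    have h2 := congrArg s h1
    rw [hs2 _ z.2, map_add, map_add, map_mul, map_mul, hs1, hs1, hs1, hst1, hst2, h1] at h2
    have h3 : algebraMap M A (z0 - τ z0) + algebraMap M A (z1 - τ z2) * t1 +
        algebraMap M A (z2 - τ z1) * t2 = 0 := by
      apply Subtype.ext
      show (((z0 - τ z0 : M) : QBar)) + ((z1 - τ z2 : M) : QBar) * t1 +
        ((z2 - τ z1 : M) : QBar) * t2 = 0
      push_cast
      linear_combination h2
    obtain ⟨h4, -, h5⟩ := br_ind hmin htu hsqt h3
    exact ⟨(sub_eq_zero.1 h4).symm, sub_eq_zero.1 h5⟩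
  · intro x hx
    refine LinearIndependent.of_comp A.val.toLinearMap ?_
    have h1 := brE τ ω H F u hu h x hx
    have h2 : (A.val.toLinearMap ∘ fun i => algebraMap F A (x i)) = fun i => ((x i : F) : QBar) := by
      funext i
      exact hι (x i)
    rw [h2]
    exact h1
  · have h1 := brN τ ω H F u hu h (a : F) (algebraMap F A (a : F)) (hι _)
    rw [h1]
    exact ha.nsq.map (algebraMap K M)
  · intro a b ha hb hab
    obtain ⟨c, hc⟩ := hab
    refine brQ τ ω H F u hu h a b a.ne_zero b.ne_zero ha.nsq hb.nsq (c : QBar) c.2 ?_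
    have h1 := congrArg (fun y : A => (y : QBar)) hc
    have h2 : (((algebraMap F A ((a : F) * b)) : A) : QBar) = (((a : F) * b : F) : QBar) := hι _
    rw [← h2, sq]
    exact h1

end H38.WM
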