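import Pool.Agent.H38.WM.Om2

/-!
# [H38 WM BrD] stage 2: `F ≤ M(t)` and `[M(t) : M] = 3`, 60-90 lines. File Pool/Agent/H38/WM/BrD.lean

Proof. `t = rt2 τ u`. First clause: `z ∈ F` is fixed by every `σ : Gal(QBar/M)` with `σ t = t` (`h.fix`: then `σ.restrictScalars K` fixes `F`),
so it lies in `M(t)`: `QBar/M(t)` is Galois, an element of `QBar` fixed by the fixing subgroup of `M(t)` lies in `M(t)`
(`InfiniteGalois.fixedField_fixingSubgroup`, `IntermediateField.mem_fixedField_iff`; `σ` fixes `M(t)` pointwise iff `σ t = t`: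
`IntermediateField.mem_fixingSubgroup_iff` and `adjoin_le_iff` for the fixed field of the closure of `σ`, or `adjoin_induction`).
Second clause: `t ∉ M`: otherwise every `σ : Gal(QBar/M)` fixes `t`, so fixes `F`, `F ≤ M`, `3 = [F:K]` divides `[M:K] ≤ 2`, a
contradiction (`[M:K] ≤ 2`: `M = K(ω)`, `ω^2 + ω + 1 = 0`; `finrank_mul_finrank`). `X^3 - u τ(u)^2` has no root in `M` (the roots in `QBar` are
`t, ω t, ω^2 t`), so it is irreducible of degree 3 and is the minimal polynomial of `t` over `M`: `IntermediateField.adjoin.finrank`. See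
`fd_deg` in Fdp.lean for the same argument.
-/

set_option autoImplicit false

open scoped NumberField
open IsDedekindDomain NumberField H38.ML H63.MA

noncomputable section

namespace H38.WM

variable {K : IntermediateField ℚ QBar} [NumberField K] {M : IntermediateField K QBar}
  [NumberField M]

theorem brD_le (τ : Gal(M/K)) (F : IntermediateField K QBar) (u : 𝓞 M)
    (h : Cf τ F u) : ∀ z ∈ F, z ∈ IntermediateField.adjoin M {rt2 τ u} := by
  intro z hz
  have hgal : IsGalois M QBar := inferInstance
  rw [← InfiniteGalois.fixedField_fixingSubgroup (IntermediateField.adjoin M {rt2 τ u})]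
  rw [IntermediateField.mem_fixedField_iff]
  intro σ hσ
  have h1 : σ (rt2 τ u) = rt2 τ u := by
    rw [IntermediateField.mem_fixingSubgroup_iff] at hσ
    exact hσ _ (IntermediateField.mem_adjoin_simple_self M _)
  have h2 := (h.fix σ).2 h1
  rw [IntermediateField.mem_fixingSubgroup_iff] at h2
  exact h2 z hz

omit [NumberField K] [NumberField M] in
private theorem quad (τ : Gal(M/K)) (ω : M) (H : Om τ ω) : ω ^ 2 + ω + 1 = 0 := by
  have h1 : (ω - 1) * (ω ^ 2 + ω + 1) = 0 := by
    have h2 : ω ^ 3 = 1 := H.prim.pow_eq_one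
    linear_combination h2
  rcases mul_eq_zero.1 h1 with h2 | h2
  · exact absurd (sub_eq_zero.1 h2) (H.prim.ne_one (by norm_num))
  · exact h2

omit [NumberField K] [NumberField M] in
/-- `[M : K] ≤ 2` -/
private theorem deg_le (τ : Gal(M/K)) (ω : M) (H : Om τ ω) : Module.finrank K M ≤ 2 := by
  have h1 : Module.finrank K M =
      Module.finrank K (IntermediateField.adjoin K {(ω : QBar)}) := by rw [H.top]
  have hmon : (Polynomial.X ^ 2 + Polynomial.X + 1 : Polynomial K).Monic := by
    monicity!
  have hroot : Polynomial.aeval (ω : QBar) (Polynomial.X ^ 2 + Polynomial.X + 1 : Polynomial K)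
      = 0 := by
    have h2 := congrArg (algebraMap M QBar) (quad τ ω H)
    rw [map_zero, map_add, map_add, map_pow, map_one] at h2
    rw [map_add, map_add, map_pow, Polynomial.aeval_X, map_one]
    exact h2
  have hint : IsIntegral K (ω : QBar) := ⟨_, hmon, hroot⟩
  rw [h1, IntermediateField.adjoin.finrank hint]
  refine (Polynomial.natDegree_le_of_dvd (minpoly.dvd K _ hroot) hmon.ne_zero).trans ?_
  compute_degree!

/-- the cube root is not in `M` -/
theorem brD_no (τ : Gal(M/K)) (ω : M) (H : Om τ ω) (F : IntermediateField K QBar) (u : 𝓞 M)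
    (h : Cf τ F u) (m : M) : (m : QBar) ≠ rt2 τ u := by
  intro hm
  have hgal : IsGalois M QBar := inferInstance
  have hle : F ≤ M := by
    intro z hz
    have h1 : z ∈ (⊥ : IntermediateField M QBar) := by
      rw [InfiniteGalois.mem_bot_iff_fixed]
      intro σ
      have h2 : σ (rt2 τ u) = rt2 τ u := by
        rw [← hm]
        exact σ.commutes m
      have h3 := (h.fix σ).2 h2
      rw [IntermediateField.mem_fixingSubgroup_iff] at h3
      exact h3 z hz
    rw [IntermediateField.mem_bot] at h1
    obtain ⟨y, hy⟩ := h1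
    rw [← hy]
    exact y.2
  have hfd : FiniteDimensional K M := by
    have h1 : FiniteDimensional K (IntermediateField.adjoin K {(ω : QBar)}) :=
      IntermediateField.adjoin.finiteDimensional (Algebra.IsIntegral.isIntegral _)
    rwa [H.top] at h1
  have h1 := IntermediateField.finrank_le_of_le_right hle
  rw [h.deg] at h1
  have h2 := deg_le τ ω H
  omega

theorem brD (τ : Gal(M/K)) (ω : M) (H : Om τ ω) (F : IntermediateField K QBar) (u : 𝓞 M)
    (h : Cf τ F u) : Module.finrank M (IntermediateField.adjoin M {rt2 τ u}) = 3 := by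
  have hirr : Irreducible (Polynomial.X ^ 3 - Polynomial.C
      (algebraMap (𝓞 M) M (u * (τ • u) ^ 2))) := by
    refine X_pow_sub_C_irreducible_of_prime Nat.prime_three fun b hb => ?_
    have h1 := rt2_pow τ u
    rw [← hb, map_pow] at h1
    by_cases hb0 : b = 0
    · rw [hb0, map_zero, zero_pow (by norm_num)] at h1
      have h2 : rt2 τ u = 0 := by
        exact pow_eq_zero_iff (by norm_num) |>.1 h1
      exact brD_no τ ω H F u h 0 (by rw [h2]; rfl)
    · have hb1 : algebraMap M QBar b ≠ 0 := by
        rw [Ne, map_eq_zero]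
        exact hb0
      have hω : IsPrimitiveRoot (algebraMap M QBar ω) 3 :=
        H.prim.map_of_injective (f := algebraMap M QBar) (algebraMap M QBar).injective
      have h2 : (rt2 τ u / algebraMap M QBar b) ^ 3 = 1 := by
        rw [div_pow, h1, div_self (pow_ne_zero 3 hb1)]
      obtain ⟨i, hi, h3⟩ := hω.eq_pow_of_pow_eq_one h2
      refine brD_no τ ω H F u h (ω ^ i * b) ?_
      have h4 : rt2 τ u = (algebraMap M QBar ω) ^ i * algebraMap M QBar b := by
        rw [h3, div_mul_cancel₀ _ hb1]
      rw [h4, ← map_pow, ← map_mul]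
      rfl
  have hmon : (Polynomial.X ^ 3 - Polynomial.C
      (algebraMap (𝓞 M) M (u * (τ • u) ^ 2))).Monic :=
    Polynomial.monic_X_pow_sub_C _ (by norm_num)
  have hroot : Polynomial.aeval (rt2 τ u) (Polynomial.X ^ 3 - Polynomial.C
      (algebraMap (𝓞 M) M (u * (τ • u) ^ 2))) = 0 := by
    rw [map_sub, map_pow, Polynomial.aeval_X, Polynomial.aeval_C, rt2_pow, sub_self]
  have hmin := minpoly.eq_of_irreducible_of_monic hirr hroot hmon
  have hint : IsIntegral M (rt2 τ u) := ⟨_, hmon, hroot⟩
  rw [IntermediateField.adjoin.finrank hint, ← hmin]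
  exact Polynomial.natDegree_X_pow_sub_C

end H38.WM
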