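import Pool.Agent.H38.WM.BrS
import Pool.Agent.H38.WM.BrD

/-!
# [H38 WM BrE] stage 2: linear disjointness of `F` and `M`, norms, squares, 100-150 lines. File Pool/Agent/H38/WM/BrE.lean

`s` is the automorphism of `brS`. Every `m ∈ M` is `c + d ω` with `c, d ∈ K` (`M = K(ω)`, `ω^2 = -1 - ω`:
`IntermediateField.adjoin_induction`, or the power basis).
`brE`: let `∑ m_i x_i = 0`, `m_i = c_i + d_i ω`. So `A + B ω = 0` with `A = ∑ c_i x_i`, `B = ∑ d_i x_i ∈ F`; apply `s`: `A + B ω^2 = 0`;
`B (ω - ω^2) = 0`, so `B = 0`, `A = 0`, and `c_i = d_i = 0` by the independence over `K`.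
`brN`: let `x` be a basis of `F/K` (three elements). By `brE` and `brD` it is an `M`-basis of `F' = M(t)` (3 independent elements,
dimension 3). Multiplication by `z ∈ F` has the same matrix in both bases, with entries in `K`; so the determinants agree
(`Algebra.norm_eq_matrix_det`, `Algebra.leftMulMatrix`).
`brQ`: `c ∈ F'`, `c^2 = a b`. By dimensions every element of `F'` is `c1 + c2 ω` with `c1, c2 ∈ F` (basis `x`, coefficients `c_i + d_i ω`). `s c =
c1 + c2 ω^2`, `(s c)^2 = s (a b) = a b = c^2`, so `s c = c` or `s c = -c`. First case: `c2 (ω - ω^2) = 0`, `c = c1 ∈ F`, done. Second case: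
`2 c1 + c2 (ω + ω^2) = 0`, `c2 = 2 c1`, `c = c1 (1 + 2 ω)`, `a b = c1^2 (1 + 2 ω)^2 = -3 c1^2`. Norms from `F` to `K`:
`N(a) N(b) = (-3)^3 N(c1)^2`, both factors on the left are squares, so `-3 = r^2` with `r ∈ K` (`c1 ≠ 0`), `r = ± (1 + 2 ω)`, so `ω ∈ K`,
`τ ω = ω`, but `τ ω = ω^2 ≠ ω`.
-/

set_option autoImplicit false

open scoped NumberField
open IsDedekindDomain NumberField H38.ML H63.MA

noncomputable section

namespace H38.WM

variable {K : IntermediateField ℚ QBar} [NumberField K] {M : IntermediateField K QBar}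
  [NumberField M]

/-- the norm does not change when the base is extended with the same basis -/
private theorem norm_base {K F M F' : Type} [Field K] [Field F] [Algebra K F] [Field M] [Field F']
    [Algebra M F'] (ι : F →+* F') (j : K →+* M) (hι : ∀ (k : K) (x : F), ι (k • x) = j k • ι x)
    {n : ℕ} (b : Module.Basis (Fin n) K F) (b' : Module.Basis (Fin n) M F')
    (hb : ∀ i, b' i = ι (b i)) (z : F) : Algebra.norm M (ι z) = j (Algebra.norm K z) := by
  have hrepr : ∀ (y : F) (i : Fin n), b'.repr (ι y) i = j (b.repr y i) := by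
    intro y i
    have h1 : ι y = ∑ l, j (b.repr y l) • b' l := by
      conv_lhs => rw [← b.sum_repr y]
      rw [map_sum]
      exact Finset.sum_congr rfl fun l _ => by rw [hι, hb]
    rw [h1, Module.Basis.repr_sum_self]
  rw [Algebra.norm_eq_matrix_det b', Algebra.norm_eq_matrix_det b, RingHom.map_det]
  congr 1
  ext i k
  rw [Algebra.leftMulMatrix_eq_repr_mul, hb, ← map_mul, hrepr, RingHom.mapMatrix_apply,
    Matrix.map_apply, Algebra.leftMulMatrix_eq_repr_mul]

omit [NumberField K] [NumberField M] in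
theorem brE_quad (τ : Gal(M/K)) (ω : M) (H : Om τ ω) : ω ^ 2 + ω + 1 = 0 := by
  have h1 : (ω - 1) * (ω ^ 2 + ω + 1) = 0 := by
    have h2 : ω ^ 3 = 1 := H.prim.pow_eq_one
    linear_combination h2
  rcases mul_eq_zero.1 h1 with h2 | h2
  · exact absurd (sub_eq_zero.1 h2) (H.prim.ne_one (by norm_num))
  · exact h2

omit [NumberField K] [NumberField M] in
theorem brE_quadQ (τ : Gal(M/K)) (ω : M) (H : Om τ ω) :
    (ω : QBar) ^ 2 + ω + 1 = 0 := by
  have h2 := congrArg (algebraMap M QBar) (brE_quad τ ω H)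
  rw [map_zero, map_add, map_add, map_pow, map_one] at h2
  exact h2

omit [NumberField K] [NumberField M] in
/-- every element of `M` is `c + d ω` -/
theorem brE_cd (τ : Gal(M/K)) (ω : M) (H : Om τ ω) (y : M) :
    ∃ c d : K, (y : QBar) = (c : QBar) + (d : QBar) * ω := by
  have hint : IsIntegral K (ω : QBar) := Algebra.IsIntegral.isIntegral _
  have hy : (y : QBar) ∈ Algebra.adjoin K {(ω : QBar)} := by
    rw [← IntermediateField.adjoin_simple_toSubalgebra_of_isAlgebraic hint.isAlgebraic,
      IntermediateField.mem_toSubalgebra, H.top]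
    exact y.2
  have hq := brE_quadQ τ ω H
  have key : ∀ z ∈ Algebra.adjoin K {(ω : QBar)},
      ∃ c d : K, z = (c : QBar) + (d : QBar) * ω := by
    intro z hz
    induction hz using Algebra.adjoin_induction with
    | mem x hx =>
      rw [Set.mem_singleton_iff] at hx
      refine ⟨0, 1, ?_⟩
      rw [hx]
      simp
    | algebraMap r =>
      refine ⟨r, 0, ?_⟩
      rw [ZeroMemClass.coe_zero, zero_mul, add_zero]
      rfl
    | add x y _ _ h1 h2 =>
      obtain ⟨c, d, h1⟩ := h1
      obtain ⟨c', d', h2⟩ := h2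
      refine ⟨c + c', d + d', ?_⟩
      rw [h1, h2]
      push_cast
      ring
    | mul x y _ _ h1 h2 =>
      obtain ⟨c, d, h1⟩ := h1
      obtain ⟨c', d', h2⟩ := h2
      refine ⟨c * c' - d * d', c * d' + c' * d - d * d', ?_⟩
      rw [h1, h2]
      push_cast
      linear_combination (d : QBar) * d' * hq
  exact key _ hy

omit [NumberField K] [NumberField M] in
theorem brE_ne (τ : Gal(M/K)) (ω : M) (H : Om τ ω) : (ω : QBar) - (ω : QBar) ^ 2 ≠ 0 := by
  intro h
  have h1 : ω - ω ^ 2 = 0 := by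
    apply Subtype.ext
    exact h
  have h2 : ω * (1 - ω) = 0 := by linear_combination h1
  rcases mul_eq_zero.1 h2 with h3 | h3
  · exact H.prim.ne_zero (by norm_num) h3
  · exact H.prim.ne_one (by norm_num) (sub_eq_zero.1 h3).symm

theorem brE (τ : Gal(M/K)) (ω : M) (H : Om τ ω) (F : IntermediateField K QBar) (u : 𝓞 M)
    (hu : u ≠ 0) (h : Cf τ F u) (x : Fin 3 → F) (hx : LinearIndependent K x) :
    LinearIndependent M fun i => ((x i : F) : QBar) := by
  obtain ⟨s, hs1, hs2, -⟩ := brS τ ω H F u hu h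
  rw [Fintype.linearIndependent_iff]
  intro g hg
  choose c d hcd using fun i => brE_cd τ ω H (g i)
  set A : F := ∑ i, c i • x i with hA
  set B : F := ∑ i, d i • x i with hB
  have hAc : (A : QBar) = ∑ i, (c i : QBar) * x i := by
    rw [hA]
    push_cast
    exact Finset.sum_congr rfl fun i _ => rfl
  have hBc : (B : QBar) = ∑ i, (d i : QBar) * x i := by
    rw [hB]
    push_cast
    exact Finset.sum_congr rfl fun i _ => rfl
  have h1 : (A : QBar) + B * ω = 0 := by
    rw [hAc, hBc, Finset.sum_mul, ← Finset.sum_add_distrib, ← hg]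
    refine Finset.sum_congr rfl fun i _ => ?_
    show _ = (g i : QBar) * x i
    rw [hcd i]
    ring
  have hsω : s (ω : QBar) = (ω : QBar) ^ 2 := by
    rw [hs1, H.act]
    rfl
  have h2 : (A : QBar) + B * (ω : QBar) ^ 2 = 0 := by
    have h3 := congrArg s h1
    rwa [map_add, map_mul, map_zero, hs2 _ A.2, hs2 _ B.2, hsω] at h3
  have hB0 : (B : QBar) = 0 := by
    have h3 : (B : QBar) * ((ω : QBar) - (ω : QBar) ^ 2) = 0 := by linear_combination h1 - h2
    exact (mul_eq_zero.1 h3).resolve_right (brE_ne τ ω H)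
  have hA0 : (A : QBar) = 0 := by
    rw [hB0, zero_mul, add_zero] at h1
    exact h1
  have hc := Fintype.linearIndependent_iff.1 hx c (by
    rw [← hA]
    exact Subtype.ext hA0)
  have hd := Fintype.linearIndependent_iff.1 hx d (by
    rw [← hB]
    exact Subtype.ext hB0)
  intro i
  apply Subtype.ext
  rw [hcd i, hc i, hd i]
  simp

/-- the inclusion of `F` in `F'` -/
theorem brE_inc (τ : Gal(M/K)) (F : IntermediateField K QBar) (u : 𝓞 M) (h : Cf τ F u) :
    ∃ ι : F →+* IntermediateField.adjoin M {rt2 τ u}, ∀ z : F, ((ι z : _) : QBar) = z :=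
  ⟨{ toFun := fun z => ⟨z, brD_le τ F u h z z.2⟩
     map_one' := rfl
     map_mul' := fun _ _ => rfl
     map_zero' := rfl
     map_add' := fun _ _ => rfl }, fun _ => rfl⟩

/-- a basis of `F / K` is a basis of `F' / M` -/
theorem brE_bas (τ : Gal(M/K)) (ω : M) (H : Om τ ω) (F : IntermediateField K QBar) (u : 𝓞 M)
    (hu : u ≠ 0) (h : Cf τ F u) :
    ∃ (b : Module.Basis (Fin 3) K F)
      (b' : Module.Basis (Fin 3) M (IntermediateField.adjoin M {rt2 τ u})),
      ∀ i, ((b' i : _) : QBar) = b i := by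
  have hfin : Module.Finite K F := Module.finite_of_finrank_pos (by rw [h.deg]; norm_num)
  let b : Module.Basis (Fin 3) K F := Module.finBasisOfFinrankEq K F h.deg
  have h1 := brE τ ω H F u hu h b b.linearIndependent
  let y : Fin 3 → IntermediateField.adjoin M {rt2 τ u} := fun i => ⟨b i, brD_le τ F u h _ (b i).2⟩
  have h2 : LinearIndependent M y := by
    refine LinearIndependent.of_comp
      (IntermediateField.adjoin M {rt2 τ u}).val.toLinearMap ?_
    exact h1
  refine ⟨b, basisOfLinearIndependentOfCardEqFinrank h2 ?_, fun i => ?_⟩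
  · rw [brD τ ω H F u h, Fintype.card_fin]
  · rw [coe_basisOfLinearIndependentOfCardEqFinrank]

theorem brN (τ : Gal(M/K)) (ω : M) (H : Om τ ω) (F : IntermediateField K QBar) (u : 𝓞 M)
    (hu : u ≠ 0) (h : Cf τ F u) (z : F) (z' : IntermediateField.adjoin M {rt2 τ u})
    (hz : (z' : QBar) = (z : QBar)) : Algebra.norm M z' = algebraMap K M (Algebra.norm K z) := by
  obtain ⟨ι, hι⟩ := brE_inc τ F u h
  obtain ⟨b, b', hb⟩ := brE_bas τ ω H F u hu h
  have h1 : z' = ι z := Subtype.ext (by rw [hz, hι])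
  rw [h1]
  refine norm_base ι (algebraMap K M) (fun k x => ?_) b b' (fun i => ?_) z
  · apply Subtype.ext
    rw [hι]
    show (k • x : F) = ((algebraMap K M k : M) : QBar) * ((ι x : _) : QBar)
    rw [hι]
    rfl
  · apply Subtype.ext
    rw [hι, hb]

theorem brQ (τ : Gal(M/K)) (ω : M) (H : Om τ ω) (F : IntermediateField K QBar) (u : 𝓞 M)
    (hu : u ≠ 0) (h : Cf τ F u) (a b : F) (ha : a ≠ 0) (hb : b ≠ 0)
    (ha' : IsSquare (Algebra.norm K a)) (hb' : IsSquare (Algebra.norm K b)) (c : QBar)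
    (hc : c ∈ IntermediateField.adjoin M {rt2 τ u}) (h2 : ((a * b : F) : QBar) = c ^ 2) :
    IsSquare (a * b) := by
  obtain ⟨s, hs1, hs2, -⟩ := brS τ ω H F u hu h
  obtain ⟨e, e', he⟩ := brE_bas τ ω H F u hu h
  have hq := brE_quadQ τ ω H
  have hsω : s (ω : QBar) = (ω : QBar) ^ 2 := by
    rw [hs1, H.act]
    rfl
  -- `c = c1 + c2 ω`
  obtain ⟨c1, c2, hc12⟩ : ∃ c1 c2 : F, c = (c1 : QBar) + (c2 : QBar) * ω := by
    have h3 := e'.sum_repr ⟨c, hc⟩
    have h4 := congrArg (fun z : IntermediateField.adjoin M {rt2 τ u} => (z : QBar)) h3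
    simp only at h4
    choose p q hpq using fun i => brE_cd τ ω H (e'.repr ⟨c, hc⟩ i)
    refine ⟨∑ i, p i • e i, ∑ i, q i • e i, ?_⟩
    rw [← h4]
    have h5 : (((∑ i, p i • e i : F)) : QBar) = ∑ i, (p i : QBar) * e i := by
      push_cast
      exact Finset.sum_congr rfl fun i _ => rfl
    have h6 : (((∑ i, q i • e i : F)) : QBar) = ∑ i, (q i : QBar) * e i := by
      push_cast
      exact Finset.sum_congr rfl fun i _ => rfl
    rw [h5, h6, Finset.sum_mul, ← Finset.sum_add_distrib]
    have h7 : ((∑ i, e'.repr ⟨c, hc⟩ i • e' i : IntermediateField.adjoin M {rt2 τ u}) : QBar) =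
        ∑ i, ((e'.repr ⟨c, hc⟩ i : M) : QBar) * e i := by
      push_cast
      refine Finset.sum_congr rfl fun i _ => ?_
      rw [← he i]
      rfl
    rw [h7]
    refine Finset.sum_congr rfl fun i _ => ?_
    rw [hpq i]
    ring
  have hsc : s c = (c1 : QBar) + (c2 : QBar) * (ω : QBar) ^ 2 := by
    rw [hc12, map_add, map_mul, hs2 _ c1.2, hs2 _ c2.2, hsω]
  have hsq : (s c) ^ 2 = c ^ 2 := by
    rw [← map_pow, ← h2]
    exact hs2 _ (a * b).2
  have hne := brE_ne τ ω H
  rcases sq_eq_sq_iff_eq_or_eq_neg.1 hsq with h3 | h3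
  · -- `c` in `F`
    have h4 : (c2 : QBar) * ((ω : QBar) - (ω : QBar) ^ 2) = 0 := by
      rw [hsc, hc12] at h3
      linear_combination -h3
    have h5 : (c2 : QBar) = 0 := (mul_eq_zero.1 h4).resolve_right hne
    refine ⟨c1, Subtype.ext ?_⟩
    rw [h2, hc12, h5, zero_mul, add_zero, sq]
    rfl
  · exfalso
    have h4 : (c2 : QBar) = 2 * c1 := by
      rw [hsc, hc12] at h3
      linear_combination -h3 + (c2 : QBar) * hq
    have h5 : a * b = -3 * c1 ^ 2 := by
      apply Subtype.ext
      have h30 : (((3 : F)) : QBar) = 3 := map_ofNat (algebraMap F QBar) 3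
      rw [h2, hc12, h4]
      push_cast
      rw [h30]
      linear_combination (4 * (c1 : QBar) ^ 2) * hq
    have hfin : Module.Finite K F := Module.finite_of_finrank_pos (by rw [h.deg]; norm_num)
    have hc1 : c1 ≠ 0 := by
      rintro rfl
      rw [zero_pow (by norm_num), mul_zero] at h5
      exact mul_ne_zero ha hb h5
    have hN : Algebra.norm K c1 ≠ 0 := Algebra.norm_ne_zero_iff.2 hc1
    have h6 : Algebra.norm K a * Algebra.norm K b = (-3) ^ 3 * Algebra.norm K c1 ^ 2 := by
      rw [← map_mul, h5, map_mul, map_pow]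
      congr 1
      have h7 : (-3 : F) = algebraMap K F (-3) := by rw [map_neg, map_ofNat]
      rw [h7, Algebra.norm_algebraMap, h.deg]
    obtain ⟨r, hr⟩ := ha'
    obtain ⟨r', hr'⟩ := hb'
    set ρ : K := r * r' / (3 * Algebra.norm K c1) with hρ
    have h8 : ρ ^ 2 = -3 := by
      rw [hρ, div_pow, div_eq_iff (pow_ne_zero 2 (mul_ne_zero (by norm_num) hN))]
      rw [hr, hr'] at h6
      linear_combination h6
    have h9 : (algebraMap K M ρ) ^ 2 = (1 + 2 * ω) ^ 2 := by
      rw [← map_pow, h8]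
      have := brE_quad τ ω H
      rw [map_neg, map_ofNat]
      linear_combination (-4 : M) * this
    have h10 : ∃ r0 : K, ω = algebraMap K M r0 := by
      rcases sq_eq_sq_iff_eq_or_eq_neg.1 h9 with h10 | h10
      · refine ⟨(ρ - 1) / 2, ?_⟩
        rw [map_div₀, map_sub, map_one, map_ofNat, h10]
        ring
      · refine ⟨(-ρ - 1) / 2, ?_⟩
        rw [map_div₀, map_sub, map_one, map_ofNat, map_neg, h10]
        ring
    obtain ⟨r0, hr0⟩ := h10
    have h11 : τ ω = ω := by
      rw [hr0]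
      exact τ.commutes r0
    rw [H.act] at h11
    apply hne
    have h12 := congrArg (fun z : M => (z : QBar)) h11
    have h13 : (ω : QBar) ^ 2 = ω := h12
    rw [h13, sub_self]

end H38.WM
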