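import Pool.Agent.H38.WM.Om2

/-!
# [H38 WM BrS] stage 2: the automorphism `s` with `s = τ` on `M` and `s = 1` on `F`, 60-90 lines. File Pool/Agent/H38/WM/BrS.lean

Proof. `s₀ : Gal(QBar/K)` a lift of `τ` (`om_lift`). `F/K` is Galois of degree 3 (`h.gal`, `h.deg`), so the restriction of `s₀` to `F` has order
dividing 3: `s = s₀^3` is the identity on `F`, and on `M` it is `τ^3 = τ` (`om_inv`). Third clause: `t = rt2 τ u`, `t^3 = u τ(u)^2` (`rt2_pow`);
`s s` fixes `F` and `M` pointwise, so it is `σ.restrictScalars K` with `σ : Gal(QBar/M)` (`om_sq`), in `F.fixingSubgroup`, and `s (s t) = t` by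
`h.fix`. `(s t)^3 = s (t^3) = τ(u) u^2` (`τ τ u = u`), so `(s t · t)^3 = (u τ(u))^3`, `s t · t = ζ u τ(u)` with `ζ^3 = 1`, so `ζ ∈ {1, ω, ω^2}`
(`u ≠ 0`; `IsPrimitiveRoot.eq_pow_of_pow_eq_one`). Apply `s`: the left side becomes `s s t · s t = t · s t`, the right side
`s(ζ) u τ(u)`, so `s ζ = ζ`; `s ω = ω^2`, `s (ω^2) = ω`, so `ζ = 1`.
-/

set_option autoImplicit false

open scoped NumberField
open IsDedekindDomain NumberField H38.ML H63.MA

noncomputable section

namespace H38.WM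

variable {K : IntermediateField ℚ QBar} [NumberField K] {M : IntermediateField K QBar}
  [NumberField M]

omit [NumberField K] [NumberField M] in
private theorem smul_coe' (τ : Gal(M/K)) (u : 𝓞 M) : ((τ • u : 𝓞 M) : M) = τ (u : M) := rfl

/-- the lift of `τ` which is trivial on `F` -/
private theorem lift_F (τ : Gal(M/K)) (ω : M) (H : Om τ ω) (F : IntermediateField K QBar)
    (hdeg : Module.finrank K F = 3) (hgal : IsGalois K F) :
    ∃ s : Gal(QBar/K), (∀ x : M, s (x : QBar) = (τ x : M)) ∧ (∀ z ∈ F, s z = z) := by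
  obtain ⟨s0, hs0⟩ := om_lift τ
  have hfin : FiniteDimensional K F := Module.finite_of_finrank_pos (by rw [hdeg]; norm_num)
  refine ⟨s0 * (s0 * s0), fun x => ?_, fun z hz => ?_⟩
  · show s0 (s0 (s0 (x : QBar))) = (τ x : M)
    rw [hs0 x, hs0 (τ x), hs0 (τ (τ x)), om_inv τ ω H]
  · have hn : Normal K F := IsGalois.to_normal
    have h3 : (AlgEquiv.restrictNormal s0 F) ^ 3 = 1 := by
      have h4 : Nat.card Gal(F/K) = 3 := by
        rw [IsGalois.card_aut_eq_finrank, hdeg]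
      rw [← h4]
      exact pow_card_eq_one'
    have hc := fun x : F => AlgEquiv.restrictNormal_commutes s0 F x
    have h5 : (AlgEquiv.restrictNormal s0 F) ((AlgEquiv.restrictNormal s0 F)
        ((AlgEquiv.restrictNormal s0 F) ⟨z, hz⟩)) = ⟨z, hz⟩ := by
      have h6 := AlgEquiv.congr_fun h3 ⟨z, hz⟩
      rw [pow_succ, pow_succ, pow_one] at h6
      exact h6
    have h6 := congrArg (algebraMap F QBar) h5
    rw [hc, hc, hc] at h6
    exact h6

theorem brS (τ : Gal(M/K)) (ω : M) (H : Om τ ω) (F : IntermediateField K QBar) (u : 𝓞 M)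
    (hu : u ≠ 0) (h : Cf τ F u) : ∃ s : Gal(QBar/K), (∀ x : M, s (x : QBar) = (τ x : M)) ∧
      (∀ z ∈ F, s z = z) ∧ s (rt2 τ u) * rt2 τ u = (((u * (τ • u) : 𝓞 M) : M) : QBar) := by
  obtain ⟨s, hsM, hsF⟩ := lift_F τ ω H F h.deg h.gal
  refine ⟨s, hsM, hsF, ?_⟩
  obtain ⟨t, ht⟩ : ∃ t, t = rt2 τ u := ⟨_, rfl⟩
  have hω : IsPrimitiveRoot (ω : QBar) 3 :=
    H.prim.map_of_injective (f := algebraMap M QBar) (algebraMap M QBar).injective
  have hss : s (s t) = t := by
    obtain ⟨σ, hσ⟩ := om_sq τ ω H s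
    have h1 : (σ.restrictScalars K : Gal(QBar/K)) ∈ F.fixingSubgroup := by
      rw [hσ, IntermediateField.mem_fixingSubgroup_iff]
      intro z hz
      show s (s z) = z
      rw [hsF z hz, hsF z hz]
    have h2 := (h.fix σ).1 h1
    rw [← ht] at h2
    have h3 := AlgEquiv.congr_fun hσ t
    have h4 : s (s t) = σ t := h3.symm
    rw [h4, h2]
  have hu1 : ((u : M) : QBar) ≠ 0 := by
    intro h0
    apply hu
    have h1 : (u : M) = 0 := by
      apply Subtype.ext
      exact h0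
    exact (NumberField.RingOfIntegers.coe_eq_zero_iff).1 h1
  have htu : τ (τ (u : M)) = (u : M) := om_inv τ ω H _
  have hu2 : ((τ (u : M) : M) : QBar) ≠ 0 := by
    rw [← hsM]
    exact (map_ne_zero s).2 hu1
  have ht3 : t ^ 3 = ((u : M) : QBar) * ((τ (u : M) : M) : QBar) ^ 2 := by
    rw [ht, rt2_pow, map_mul, map_mul, map_pow, map_pow]
    rfl
  have hst3 : (s t) ^ 3 = ((τ (u : M) : M) : QBar) * ((u : M) : QBar) ^ 2 := by
    rw [← map_pow, ht3, map_mul, map_pow, hsM, hsM, htu]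
  have hc : (s t * t) ^ 3 = (((u : M) : QBar) * ((τ (u : M) : M) : QBar)) ^ 3 := by
    rw [mul_pow, ht3, hst3]
    ring
  have hne : ((u : M) : QBar) * ((τ (u : M) : M) : QBar) ≠ 0 := mul_ne_zero hu1 hu2
  have hz : (s t * t / (((u : M) : QBar) * ((τ (u : M) : M) : QBar))) ^ 3 = 1 := by
    rw [div_pow, hc]
    exact div_self (pow_ne_zero 3 hne)
  obtain ⟨ζ, hζ⟩ : ∃ ζ, ζ = s t * t / (((u : M) : QBar) * ((τ (u : M) : M) : QBar)) := ⟨_, rfl⟩
  rw [← hζ] at hz
  have hmul : s t * t = ζ * (((u : M) : QBar) * ((τ (u : M) : M) : QBar)) := by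
    rw [hζ, div_mul_cancel₀ _ hne]
  have hsω : s (ω : QBar) = (ω : QBar) ^ 2 := by
    rw [hsM, H.act]
    rfl
  have hsζ : s ζ = ζ := by
    have h1 := congrArg s hmul
    rw [map_mul, hss, map_mul, map_mul, hsM, hsM, htu, mul_comm t (s t), hmul,
      mul_comm ((τ (u : M) : M) : QBar)] at h1
    exact (mul_right_cancel₀ hne h1).symm
  have hζ1 : ζ = 1 := by
    obtain ⟨i, hi, h2⟩ := hω.eq_pow_of_pow_eq_one hz
    have hi2 : i = 0 ∨ i = 1 ∨ i = 2 := by omega
    have hω1 : (ω : QBar) ≠ 1 := hω.ne_one (by norm_num)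
    have hω3 : (ω : QBar) ^ 3 = 1 := hω.pow_eq_one
    have hω0 : (ω : QBar) ≠ 0 := hω.ne_zero (by norm_num)
    rcases hi2 with rfl | rfl | rfl
    · rw [← h2, pow_zero]
    · exfalso
      rw [pow_one] at h2
      rw [← h2, hsω] at hsζ
      apply hω1
      have h3 : (ω : QBar) * (ω : QBar) = (ω : QBar) * 1 := by
        rw [mul_one, ← pow_two]
        exact hsζ
      exact mul_left_cancel₀ hω0 h3
    · exfalso
      rw [← h2, map_pow, hsω, ← pow_mul] at hsζ
      apply hω1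
      have h3 : (ω : QBar) ^ 2 * (ω : QBar) ^ 2 = (ω : QBar) ^ 2 * 1 := by
        rw [mul_one, ← pow_add]
        exact hsζ
      have h4 := mul_left_cancel₀ (pow_ne_zero 2 hω0) h3
      rw [← hω3, pow_succ, h4, one_mul]
  rw [← ht, hmul, hζ1, one_mul]
  rfl

end H38.WM
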