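import Pool.Agent.H38.WM.Def2
import Pool.Agent.H38.ML.Factor

/-!
# [H38 WM CfE] the cubic field of a character, 50-80 lines. File Pool/Agent/H38/WM/CfE.lean

Proof. `χ` is of finite type and onto a group of order 3. `F = IntermediateField.fixedField χ.ker`; `F.fixingSubgroup = χ.ker`: the kernel
contains `E.fixingSubgroup` for a finite `E` (so it is open): see `H38.ML.fixing_fixedField` (used in H38/ML/Small.lean, proved in
H38/ML/Factor or near; grep `fixing_fixedField`). `F/K` is finite of degree = index of the kernel = 3 (`small_field` in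
H38/ML/Small.lean does the same for stabilisers; or `InfiniteGalois`, `IntermediateField.finrank_eq_fixingSubgroup_index`), and normal
because the kernel is normal (`InfiniteGalois.normal_iff_isGalois` or `IsGalois` from a normal fixing subgroup).
-/

set_option autoImplicit false

open scoped NumberField
open IsDedekindDomain NumberField H38.ML H63.MA

noncomputable section

namespace H38.WM

variable {K : IntermediateField ℚ QBar} [NumberField K] {M : IntermediateField K QBar}
  [NumberField M]

omit [NumberField M] in
theorem cfE (τ : Gal(M/K)) (χ : Gal(QBar/K) →* Multiplicative (ZMod 3)) (hft : FT χ)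
    (hs : Function.Surjective χ) (u : 𝓞 M)
    (hu : ∀ σ : Gal(QBar/M), χ (σ.restrictScalars K) = 1 ↔ σ (rt2 τ u) = rt2 τ u) :
    ∃ F : IntermediateField K QBar, Cf τ F u ∧
      ∀ σ : Gal(QBar/K), σ ∈ F.fixingSubgroup ↔ χ σ = 1 := by
  have hgal : IsGalois K QBar := IsAlgClosure.isGalois K QBar
  obtain ⟨E, hE, hle⟩ := hft
  obtain ⟨h1, h2⟩ := fixing_fixedField χ.ker E hle
  set F := IntermediateField.fixedField χ.ker with hF
  have hmem : ∀ σ : Gal(QBar/K), σ ∈ F.fixingSubgroup ↔ χ σ = 1 := by
    intro σ
    rw [h1, MonoidHom.mem_ker]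
  refine ⟨F, ⟨?_, ?_, fun σ => ?_⟩, hmem⟩
  · rw [IntermediateField.finrank_eq_fixingSubgroup_index, h1, Subgroup.index_ker,
      MonoidHom.range_eq_top.2 hs, Subgroup.card_top]
    exact Nat.card_zmod 3
  · rw [← InfiniteGalois.normal_iff_isGalois, h1]
    infer_instance
  · rw [hmem]
    exact hu σ

end H38.WM
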