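import Pool.Agent.H38.WM.Om2

/-!
# [H38 WM CfU] the cubic field of `u` is unique, 60-90 lines. File Pool/Agent/H38/WM/CfU.lean

Proof. Let `Γ = Gal(QBar/K)`, `A = F.fixingSubgroup`, `A' = F'.fixingSubgroup`: normal subgroups of index 3 (`IsGalois K F`, degree 3), with
`A ∩ Γ_M = A' ∩ Γ_M`, `Γ_M` = the automorphisms fixing `M` (`h.fix`, `h'.fix`; every element of `Γ_M` is `σ'.restrictScalars K`). We show
`A ≤ A'` (then by symmetry `A = A'`, and `F = F'` because both are the fixed fields of their fixing subgroups: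
`IsGalois.fixedField_fixingSubgroup` / `InfiniteGalois.fixedField_fixingSubgroup`). Let `σ ∈ A`. Then `σ^2 = σ σ ∈ Γ_M` (`om_sq`) and
`σ^2 ∈ A`, so `σ^2 ∈ A'`. `Γ / A'` has order 3, so `σ^3 ∈ A'`, hence `σ = σ^3 (σ^2)⁻¹ ∈ A'`.
-/

set_option autoImplicit false

open scoped NumberField
open IsDedekindDomain NumberField H38.ML H63.MA

noncomputable section

namespace H38.WM

variable {K : IntermediateField ℚ QBar} [NumberField K] {M : IntermediateField K QBar}
  [NumberField M]

private theorem cube_mem (F : IntermediateField K QBar) (hd : Module.finrank K F = 3)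
    (hg : IsGalois K F) (σ : Gal(QBar/K)) : σ ^ 3 ∈ F.fixingSubgroup := by
  have hfd : FiniteDimensional K F := FiniteDimensional.of_finrank_pos (by rw [hd]; norm_num)
  have hgal : IsGalois K QBar := IsAlgClosure.isGalois K QBar
  rw [← IntermediateField.restrictNormalHom_ker F, MonoidHom.mem_ker, map_pow]
  have h1 : Nat.card Gal(F/K) = 3 := by
    rw [IsGalois.card_aut_eq_finrank, hd]
  rw [← h1]
  exact pow_card_eq_one'

private theorem fix_le (τ : Gal(M/K)) (ω : M) (H : Om τ ω) (F F' : IntermediateField K QBar)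
    (u : 𝓞 M) (h : Cf τ F u) (h' : Cf τ F' u) : F.fixingSubgroup ≤ F'.fixingSubgroup := by
  intro σ hσ
  obtain ⟨σ', hσ'⟩ := om_sq τ ω H σ
  have h1 : σ * σ ∈ F.fixingSubgroup := mul_mem hσ hσ
  rw [← hσ', h.fix, ← h'.fix, hσ'] at h1
  have h2 := cube_mem F' h'.deg h'.gal σ
  have h3 : σ = σ ^ 3 * (σ * σ)⁻¹ := by group
  rw [h3]
  exact mul_mem h2 (inv_mem h1)

theorem cfU (τ : Gal(M/K)) (ω : M) (H : Om τ ω) (F F' : IntermediateField K QBar) (u : 𝓞 M)
    (h : Cf τ F u) (h' : Cf τ F' u) : F = F' := by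
  have hgal : IsGalois K QBar := IsAlgClosure.isGalois K QBar
  have h1 : F.fixingSubgroup = F'.fixingSubgroup :=
    le_antisymm (fix_le τ ω H F F' u h h') (fix_le τ ω H F' F u h' h)
  rw [← InfiniteGalois.fixedField_fixingSubgroup F, h1,
    InfiniteGalois.fixedField_fixingSubgroup F']

theorem cfFl (τ : Gal(M/K)) (ω : M) (H : Om τ ω) (F : IntermediateField K QBar) (u : 𝓞 M)
    (h : Cf τ F u) : Fl2 τ u = F := by
  have h1 : ∃ F : IntermediateField K QBar, Cf τ F u := ⟨F, h⟩
  have h2 : Fl2 τ u = h1.choose := by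
    unfold Fl2
    rw [dif_pos h1]
  rw [h2]
  exact cfU τ ω H _ _ u h1.choose_spec h

end H38.WM
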