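import Pool.Agent.H38.WM.Def
import Pool.Agent.H63.MA.GKum

/-!
# [H38 WM Ker] `F` and `a` modulo squares determine the kernel of `ρ`, 50-80 lines. File Pool/Agent/H38/WM/Ker.lean

Proof. `kk 2 (-1) (b c^2) σ = kk 2 (-1) b σ` for `σ : Gal(QBar/F)` (`kk_mul_arg`, `kk_zpow_arg`, `2 = 0` in `ZMod 2`), so by `H.kum`,
`H'.kum`: `D.psi (ρ σ) = D.psi (ρ' σ)` for all `σ ∈ F.fixingSubgroup` (every such `σ` is the restriction of scalars of an element of
`Gal(QBar/F)`: `IntermediateField.fixingSubgroupEquiv`). For `σ : Gal(QBar/K)`: `ρ σ = 1` iff `D.pi (ρ σ) = 1` and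
`D.psi (g (ρ σ) g⁻¹) = 0` for all `g` (`D.sep`; conversely `psi 1 = 0` by `D.add 1 1`), iff `σ ∈ F.fixingSubgroup` and
`D.psi (ρ (γ σ γ⁻¹)) = 0` for all `γ : Gal(QBar/K)` (`ρ` surjective), and `γ σ γ⁻¹ ∈ F.fixingSubgroup` (kernel of `D.pi ∘ ρ`). The same
for `ρ'`; the conditions agree.
-/

set_option autoImplicit false

open scoped NumberField
open IsDedekindDomain NumberField H38.ML H63.MA

noncomputable section

namespace H38.WM

variable {K : IntermediateField ℚ QBar} [NumberField K] {G : Type} [Group G]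

private theorem ker_iff (D : TD G) (ρ : Gal(QBar/K) →* G) (hρ : Function.Surjective ρ)
    (F : IntermediateField K QBar) (a : Fˣ) (H : KD D ρ F a) (σ : Gal(QBar/K)) :
    ρ σ = 1 ↔ σ ∈ F.fixingSubgroup ∧ ∀ γ : Gal(QBar/K), D.psi (ρ (γ * σ * γ⁻¹)) = 0 := by
  have h0 : D.psi 1 = 0 := by
    have h := D.add 1 1 (map_one _) (map_one _)
    rw [mul_one] at h
    exact left_eq_add.1 h
  constructor
  · intro h
    refine ⟨(H.fix σ).2 (by rw [h, map_one]), fun γ => ?_⟩
    rw [map_mul, map_mul, h, mul_one, map_inv, mul_inv_cancel, h0]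
  · rintro ⟨h1, h2⟩
    refine D.sep _ ((H.fix σ).1 h1) fun g => ?_
    obtain ⟨γ, rfl⟩ := hρ g
    have h3 := h2 γ
    rw [map_mul, map_mul, map_inv] at h3
    exact h3

theorem ker_eq (D : TD G) (ρ ρ' : Gal(QBar/K) →* G) (hρ : Function.Surjective ρ)
    (hρ' : Function.Surjective ρ') (F : IntermediateField K QBar) (a b c : Fˣ)
    (H : KD D ρ F a) (H' : KD D ρ' F b) (h : a = b * c ^ 2) : ρ.ker = ρ'.ker := by
  have : FiniteDimensional K F := FiniteDimensional.of_finrank_pos (by rw [H.deg]; norm_num)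
  have : NumberField F := NumberField.of_module_finite K F
  have : Algebra.IsAlgebraic F QBar := Algebra.IsAlgebraic.tower_top (K := K) F
  have : IsAlgClosure F QBar := ⟨inferInstance, inferInstance⟩
  have hζ : IsPrimitiveRoot (-1 : F) 2 := IsPrimitiveRoot.neg_one 0 (by norm_num)
  have hkk : ∀ σ : Gal(QBar/F), kk 2 (-1 : F) a σ = kk 2 (-1 : F) b σ := by
    intro σ
    rw [h, kk_mul_arg Nat.prime_two hζ, pow_two, kk_mul_arg Nat.prime_two hζ,
      CharTwo.add_self_eq_zero, add_zero]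
  have key : ∀ σ : Gal(QBar/K), σ ∈ F.fixingSubgroup → D.psi (ρ σ) = D.psi (ρ' σ) := by
    intro σ hσ
    have h1 := H.kum (IntermediateField.fixingSubgroupEquiv F ⟨σ, hσ⟩)
    have h2 := H'.kum (IntermediateField.fixingSubgroupEquiv F ⟨σ, hσ⟩)
    rw [hkk] at h1
    have h3 : (IntermediateField.fixingSubgroupEquiv F ⟨σ, hσ⟩).restrictScalars K = σ := by
      ext x
      rfl
    rw [h3] at h1 h2
    exact h1.symm.trans h2
  have hconj : ∀ σ γ : Gal(QBar/K), σ ∈ F.fixingSubgroup → γ * σ * γ⁻¹ ∈ F.fixingSubgroup := by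
    intro σ γ hσ
    rw [H.fix, map_mul, map_mul, map_mul, map_mul, (H.fix σ).1 hσ, mul_one, map_inv, map_inv,
      mul_inv_cancel]
  ext σ
  rw [MonoidHom.mem_ker, MonoidHom.mem_ker, ker_iff D ρ hρ F a H, ker_iff D ρ' hρ' F b H']
  constructor
  · rintro ⟨h1, h2⟩
    exact ⟨h1, fun γ => (key _ (hconj σ γ h1)).symm.trans (h2 γ)⟩
  · rintro ⟨h1, h2⟩
    exact ⟨h1, fun γ => (key _ (hconj σ γ h1)).trans (h2 γ)⟩

/-- surjective homomorphisms with the same kernel -/
theorem fib {Γ : Type} [Group Γ] [Finite G] (S : Finset (Γ →* G))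
    (hs : ∀ ρ ∈ S, Function.Surjective ρ) (hk : ∀ ρ ∈ S, ∀ ρ' ∈ S, ρ.ker = ρ'.ker) :
    S.card ≤ Nat.card G ^ Nat.card G := by
  classical
  rcases S.eq_empty_or_nonempty with h0 | ⟨ρ₀, h₀⟩
  · rw [h0, Finset.card_empty]
    exact Nat.zero_le _
  · choose s hsec using hs ρ₀ h₀
    have hinj : Function.Injective fun ρ : S => fun g : G => (ρ : Γ →* G) (s g) := by
      intro ρ ρ' h
      apply Subtype.ext
      ext x
      have hmem : ∀ τ : S, (τ : Γ →* G) x = (τ : Γ →* G) (s (ρ₀ x)) := by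
        intro τ
        have h1 : x * (s (ρ₀ x))⁻¹ ∈ ρ₀.ker := by
          rw [MonoidHom.mem_ker, map_mul, map_inv, hsec, mul_inv_cancel]
        rw [hk ρ₀ h₀ τ τ.2, MonoidHom.mem_ker, map_mul, map_inv, mul_inv_eq_one] at h1
        exact h1
      rw [hmem ρ, hmem ρ']
      exact congrFun h (ρ₀ x)
    have h1 := Nat.card_le_card_of_injective _ hinj
    rw [Nat.card_fun] at h1
    rw [Nat.card_eq_fintype_card, Fintype.card_coe] at h1
    exact h1

end H38.WM
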