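import Pool.Agent.H38.WM.Dfc
import Pool.Agent.H38.WM.Ker
import Pool.Agent.H63.MA.KumB

/-!
# [H38 WM CoA] the count for fixed labels, 110-170 lines. File Pool/Agent/H38/WM/CoA.lean

Proof. `C = (card G)^(card G) max(C₁, 0)`, `C₁` from `core M C₀ ε`. For every pair `(u, v)` which occurs as `(U ρ, V ρ)`, `ρ ∈ Rs`,
choose one such `ρ₀(u, v)`; put `z ρ = A ρ / A (ρ₀ (U ρ) (V ρ))` in `QBar`. All four clauses of `Tr` are statements about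
`(u, v, a)`, so for `ρ ∈ Rs`, `ρ₀ = ρ₀ (U ρ) (V ρ)`, we may rewrite `U ρ₀ = U ρ`, `V ρ₀ = V ρ` in the properties of `ρ₀`. `z ρ` is the
value of the unit `c = a' / b'` of `F = Fd u v` (`a'`, `b'` the units of `F` belonging to `A ρ`, `A ρ₀`), `norm c` is a square in `K`
(quotient of two squares), and `ord P c = ord P a' - ord P b'` is even for every `P`: let `l` be the prime below `P`
(`exists_below`), `i = elb u v P`. `ord P a'` is odd iff `Lb u v (A ρ) l i`: if `Lb ...` holds with `a'', P'`, then `a'' = a'` (the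
inclusion of `F` is injective) and `P' = P` (`elb` is injective over `l`: `dif_pos`, `(lab ..).choose_spec`). The same for `ρ₀`, and
both are equivalent to `lam l i`. So `Dat K M C₀ R u v (z ρ)` holds.
`ρ ~ ρ'` iff `U ρ = U ρ'`, `V ρ = V ρ'` and `z ρ = z ρ' c^2` with `c ∈ Fd (U ρ) (V ρ)`: an equivalence relation on `Rs` (`c ≠ 0` as
`z ρ ≠ 0`). Choose representatives (e.g. `Quotient.out`, or a function `r : Rs → Rs`), `S` = the set of the `(U ρ, V ρ, z ρ)`, `ρ` a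
representative; two equal triples are equivalent, so `S` has as many elements as there are classes, and `core` bounds it. A class has at
most `(card G)^(card G)` elements: `fib` and `ker_eq` (`z ρ = z ρ' c^2` gives `a = b c^2` in `F`). `Finset.card_le_mul_card_image`.
-/

set_option autoImplicit false

open scoped NumberField
open IsDedekindDomain NumberField H38.ML H63.MA

noncomputable section

namespace H38.WM

variable {K : IntermediateField ℚ QBar} [NumberField K] {G : Type} [Group G]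

private theorem coA_odd (u v : 𝓞 K) (a b : QBar) (h3 : Module.finrank K (Fd K u v) = 3)
    (a' b' : (Fd K u v)ˣ) (ha : ((a' : Fd K u v) : QBar) = a) (hb : ((b' : Fd K u v) : QBar) = b)
    (hl : ∀ l i, Lb K u v a l i ↔ Lb K u v b l i) (P : Pl (Fd K u v)) (h : Odd (ord P a')) :
    Odd (ord P b') := by
  obtain ⟨l, hPl⟩ := exists_below (K := K) P
  obtain ⟨b'', P', hb'', hP', hi, hodd⟩ := (hl l (elb K u v P)).1 ⟨a', P, ha, hPl, rfl, h⟩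
  have h1 : b'' = b' := by
    apply Units.ext
    apply Subtype.ext
    rw [hb'', hb]
  have h2 : P' = P := by
    have h4 := (lab (Fd K u v) h3).choose_spec P' P l hP' hPl
    apply h4
    have h5 : elb K u v = (lab (Fd K u v) h3).choose := by
      unfold elb
      rw [dif_pos h3]
    rw [← h5]
    exact hi
  rw [h1, h2] at hodd
  exact hodd

private theorem coA_sel (D : TD G) (Q : DP K QBar) (M : ℕ) (C₀ : ℝ) (ρ ρ' : Gal(QBar/K) →* G)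
    (u v : 𝓞 K) (a b : QBar) (h : Tr D Q M C₀ ρ u v a) (h' : Tr D Q M C₀ ρ' u v b)
    (hl : ∀ l i, Lb K u v a l i ↔ Lb K u v b l i) :
    ∃ c : (Fd K u v)ˣ, ((c : Fd K u v) : QBar) = a / b ∧ Sel K (Fd K u v) c := by
  obtain ⟨-, h3, -, a', ha', -, hsq, -⟩ := h
  obtain ⟨-, -, -, b', hb', -, hsq', -⟩ := h'
  refine ⟨a' / b', ?_, ⟨?_, fun P => ?_⟩⟩
  · rw [Units.val_div_eq_div_val, ← ha', ← hb']
    rfl
  · have h1 : Algebra.norm K ((a' / b' : (Fd K u v)ˣ) : Fd K u v) *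
        Algebra.norm K (b' : Fd K u v) = Algebra.norm K (a' : Fd K u v) := by
      rw [← map_mul, ← Units.val_mul, div_mul_cancel]
    have h2 : Algebra.norm K (b' : Fd K u v) ≠ 0 := by
      rw [Ne, Algebra.norm_eq_zero_iff]
      exact b'.ne_zero
    rw [eq_div_of_mul_eq h2 h1]
    exact hsq.div hsq'
  · rw [div_eq_mul_inv, ord_mul, ord_inv, ← sub_eq_add_neg, Int.even_sub, ← Int.not_odd_iff_even,
      ← Int.not_odd_iff_even, not_iff_not]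
    exact ⟨coA_odd u v a b h3 a' b' ha' hb' hl P,
      coA_odd u v b a h3 b' a' hb' ha' (fun l i => (hl l i).symm) P⟩

private theorem coA_ne (D : TD G) (Q : DP K QBar) (M : ℕ) (C₀ : ℝ) (ρ : Gal(QBar/K) →* G)
    (u v : 𝓞 K) (a : QBar) (h : Tr D Q M C₀ ρ u v a) : a ≠ 0 := by
  obtain ⟨-, -, -, a', ha', -⟩ := h
  rw [← ha']
  intro h0
  exact a'.ne_zero (Subtype.ext h0)

private theorem coA_ker (D : TD G) (Q : DP K QBar) (M : ℕ) (C₀ : ℝ) (ρ ρ' : Gal(QBar/K) →* G)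
    (hρ : Function.Surjective ρ) (hρ' : Function.Surjective ρ')
    (u v : 𝓞 K) (a b c : QBar) (h : Tr D Q M C₀ ρ u v a) (h' : Tr D Q M C₀ ρ' u v b)
    (hc : c ∈ Fd K u v) (hc0 : c ≠ 0) (hab : a = b * c ^ 2) : ρ.ker = ρ'.ker := by
  obtain ⟨-, -, -, a', ha', H, -⟩ := h
  obtain ⟨-, -, -, b', hb', H', -⟩ := h'
  have hc1 : (⟨c, hc⟩ : Fd K u v) ≠ 0 := fun h0 => hc0 (congrArg Subtype.val h0)
  refine ker_eq D ρ ρ' hρ hρ' (Fd K u v) a' b' (Units.mk0 ⟨c, hc⟩ hc1) H H' ?_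
  apply Units.ext
  apply Subtype.ext
  rw [ha', hab, ← hb']
  rfl

open scoped Classical in
theorem coA [Finite G] (D : TD G) (Q : DP K QBar) (core : CoreBound K) (M : ℕ) (C₀ : ℝ)
    (hM : M ≠ 0) (h6 : 6 ∣ M) (ε : ℝ) (hε : 0 < ε) : ∃ C : ℝ, 0 ≤ C ∧ ∀ R : ℝ, 1 ≤ R →
    ∀ (lam : Pl K → Fin 3 → Prop) (Rs : Finset (Gal(QBar/K) →* G))
      (U V : (Gal(QBar/K) →* G) → 𝓞 K) (A : (Gal(QBar/K) →* G) → QBar),
      (∀ ρ ∈ Rs, Function.Surjective ρ ∧ Tr D Q M C₀ ρ (U ρ) (V ρ) (A ρ) ∧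
        (|(Algebra.norm ℤ (U ρ * V ρ) : ℤ)| : ℝ) ≤ R ∧
        ∀ l i, Lb K (U ρ) (V ρ) (A ρ) l i ↔ lam l i) →
      (Rs.card : ℝ) ≤ C * R ^ (1 + ε) := by
  obtain ⟨C₁, hC₁⟩ := core M C₀ ε hM h6 hε
  refine ⟨((Nat.card G ^ Nat.card G : ℕ) : ℝ) * max C₁ 0, by positivity,
    fun R hR lam Rs U V A h => ?_⟩
  -- the base points
  obtain ⟨bp, hbp⟩ : ∃ bp : 𝓞 K → 𝓞 K → (Gal(QBar/K) →* G), ∀ ρ ∈ Rs,
      bp (U ρ) (V ρ) ∈ Rs ∧ U (bp (U ρ) (V ρ)) = U ρ ∧ V (bp (U ρ) (V ρ)) = V ρ := by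
    refine ⟨fun u v => if hh : ∃ ρ ∈ Rs, U ρ = u ∧ V ρ = v then hh.choose else 1,
      fun ρ hρ => ?_⟩
    have hh : ∃ ρ' ∈ Rs, U ρ' = U ρ ∧ V ρ' = V ρ := ⟨ρ, hρ, rfl, rfl⟩
    simp only [dif_pos hh]
    exact hh.choose_spec
  obtain ⟨z, hz⟩ : ∃ z : (Gal(QBar/K) →* G) → QBar, ∀ ρ, z ρ = A ρ / A (bp (U ρ) (V ρ)) :=
    ⟨_, fun ρ => rfl⟩
  have hbT : ∀ ρ ∈ Rs, Tr D Q M C₀ (bp (U ρ) (V ρ)) (U ρ) (V ρ) (A (bp (U ρ) (V ρ))) := by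
    intro ρ hρ
    obtain ⟨h1, h2, h3⟩ := hbp ρ hρ
    have h4 := (h _ h1).2.1
    rw [h2, h3] at h4
    exact h4
  have hbL : ∀ ρ ∈ Rs, ∀ l i, Lb K (U ρ) (V ρ) (A ρ) l i ↔
      Lb K (U ρ) (V ρ) (A (bp (U ρ) (V ρ))) l i := by
    intro ρ hρ l i
    obtain ⟨h1, h2, h3⟩ := hbp ρ hρ
    have h4 := (h _ h1).2.2.2 l i
    rw [h2, h3] at h4
    rw [h4]
    exact (h ρ hρ).2.2.2 l i
  have hz0 : ∀ ρ ∈ Rs, z ρ ≠ 0 := by
    intro ρ hρ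
    rw [hz]
    exact div_ne_zero (coA_ne D Q M C₀ ρ _ _ _ (h ρ hρ).2.1)
      (coA_ne D Q M C₀ _ _ _ _ (hbT ρ hρ))
  -- the relation
  obtain ⟨rel, hrel⟩ : ∃ rel : (Gal(QBar/K) →* G) → (Gal(QBar/K) →* G) → Prop, ∀ ρ ρ',
      rel ρ ρ' ↔ ρ ∈ Rs ∧ ρ' ∈ Rs ∧ U ρ = U ρ' ∧ V ρ = V ρ' ∧
        ∃ c ∈ Fd K (U ρ) (V ρ), z ρ = z ρ' * c ^ 2 := ⟨_, fun _ _ => Iff.rfl⟩
  have hrefl : ∀ ρ ∈ Rs, rel ρ ρ := by
    intro ρ hρ
    rw [hrel]
    exact ⟨hρ, hρ, rfl, rfl, 1, one_mem _, by rw [one_pow, mul_one]⟩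
  have hsymm : ∀ ρ ρ', rel ρ ρ' → rel ρ' ρ := by
    intro ρ ρ' hh
    rw [hrel] at hh ⊢
    obtain ⟨h1, h2, h3, h4, c, hc, h5⟩ := hh
    have hc0 : c ≠ 0 := by
      rintro rfl
      apply hz0 ρ h1
      rw [h5]
      ring
    refine ⟨h2, h1, h3.symm, h4.symm, c⁻¹, ?_, ?_⟩
    · rw [← h3, ← h4]
      exact inv_mem hc
    · rw [h5]
      field_simp
  have htrans : ∀ ρ ρ' ρ'', rel ρ ρ' → rel ρ' ρ'' → rel ρ ρ'' := by
    intro ρ ρ' ρ'' hh hh'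
    rw [hrel] at hh hh' ⊢
    obtain ⟨h1, h2, h3, h4, c, hc, h5⟩ := hh
    obtain ⟨h1', h2', h3', h4', c', hc', h5'⟩ := hh'
    refine ⟨h1, h2', h3.trans h3', h4.trans h4', c * c', ?_, ?_⟩
    · rw [← h3, ← h4] at hc'
      exact mul_mem hc hc'
    · rw [h5, h5']
      ring
  -- the representatives
  obtain ⟨r, hr1, hr2⟩ : ∃ r : (Gal(QBar/K) →* G) → (Gal(QBar/K) →* G),
      (∀ ρ ∈ Rs, rel ρ (r ρ)) ∧ ∀ ρ ρ', rel ρ ρ' → r ρ = r ρ' := by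
    obtain ⟨cl, hcl⟩ : ∃ cl : (Gal(QBar/K) →* G) → Set (Gal(QBar/K) →* G), ∀ ρ,
        cl ρ = {ρ' | rel ρ ρ'} := ⟨_, fun _ => rfl⟩
    obtain ⟨sel, hsel⟩ : ∃ sel : Set (Gal(QBar/K) →* G) → (Gal(QBar/K) →* G),
        ∀ s, s.Nonempty → sel s ∈ s :=
      ⟨fun s => if hh : s.Nonempty then hh.some else 1, fun s hs => by
        simp only [dif_pos hs]
        exact hs.some_mem⟩
    refine ⟨fun ρ => sel (cl ρ), fun ρ hρ => ?_, fun ρ ρ' hh => ?_⟩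
    · have h2 := hsel (cl ρ) ⟨ρ, by rw [hcl]; exact hrefl ρ hρ⟩
      have h3 : ∀ x, x ∈ cl ρ → rel ρ x := by
        intro x hx
        rw [hcl] at hx
        exact hx
      exact h3 _ h2
    · have h1 : cl ρ = cl ρ' := by
        rw [hcl, hcl]
        ext ρ''
        exact ⟨fun h2 => htrans _ _ _ (hsymm _ _ hh) h2, fun h2 => htrans _ _ _ hh h2⟩
      simp only [h1]
  have hrRs : ∀ ρ ∈ Rs, r ρ ∈ Rs := fun ρ hρ => ((hrel _ _).1 (hr1 ρ hρ)).2.1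
  obtain ⟨f, hf⟩ : ∃ f : (Gal(QBar/K) →* G) → 𝓞 K × 𝓞 K × QBar, ∀ ρ,
      f ρ = (U (r ρ), V (r ρ), z (r ρ)) := ⟨_, fun _ => rfl⟩
  have hS1 : ∀ x ∈ Rs.image f, Dat K M C₀ R x.1 x.2.1 x.2.2 := by
    intro x hx
    obtain ⟨ρ, hρ, rfl⟩ := Finset.mem_image.1 hx
    rw [hf]
    have h1 := hrRs ρ hρ
    obtain ⟨h2, h3, h4, h5⟩ := h _ h1
    obtain ⟨c, hc, hsel⟩ := coA_sel D Q M C₀ _ _ _ _ _ _ h3 (hbT _ h1) (hbL _ h1)
    refine ⟨h3.1, h4, h3.2.1, c, ?_, hsel⟩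
    rw [hc, hz]
  have hkey : ∀ ρ ∈ Rs, ∀ ρ' ∈ Rs, U (r ρ) = U (r ρ') → V (r ρ) = V (r ρ') →
      (∃ c ∈ Fd K (U (r ρ)) (V (r ρ)), z (r ρ) = z (r ρ') * c ^ 2) → r ρ = r ρ' := by
    intro ρ hρ ρ' hρ' h1 h2 h3
    have h4 : rel (r ρ) (r ρ') := by
      rw [hrel]
      exact ⟨hrRs ρ hρ, hrRs ρ' hρ', h1, h2, h3⟩
    have h5 := htrans _ _ _ (hr1 ρ hρ) (htrans _ _ _ h4 (hsymm _ _ (hr1 ρ' hρ')))
    exact hr2 _ _ h5
  have hS2 : ∀ u v a b, (u, v, a) ∈ Rs.image f → (u, v, b) ∈ Rs.image f →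
      (∃ c ∈ Fd K u v, a = b * c ^ 2) → a = b := by
    intro u v a b ha hb hh
    obtain ⟨ρ, hρ, h1⟩ := Finset.mem_image.1 ha
    obtain ⟨ρ', hρ', h2⟩ := Finset.mem_image.1 hb
    rw [hf, Prod.mk.injEq, Prod.mk.injEq] at h1 h2
    obtain ⟨h3, h4, h5⟩ := h1
    obtain ⟨h3', h4', h5'⟩ := h2
    have h6 := hkey ρ hρ ρ' hρ' (h3.trans h3'.symm) (h4.trans h4'.symm) (by
      rw [h3, h4, h5, h5']
      exact hh)
    rw [← h5, ← h5', h6]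
  have hcore := hC₁ R hR (Rs.image f) hS1 hS2
  have hcard : Rs.card ≤ Nat.card G ^ Nat.card G * (Rs.image f).card := by
    refine Finset.card_le_mul_card_image _ _ fun x hx => ?_
    refine fib _ (fun ρ hρ => (h ρ (Finset.mem_filter.1 hρ).1).1) fun ρ hρ ρ' hρ' => ?_
    obtain ⟨h1, h2⟩ := Finset.mem_filter.1 hρ
    obtain ⟨h1', h2'⟩ := Finset.mem_filter.1 hρ'
    have h3 : f ρ = f ρ' := h2.trans h2'.symm
    rw [hf, hf, Prod.mk.injEq, Prod.mk.injEq] at h3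
    have h4 := hkey ρ h1 ρ' h1' h3.1 h3.2.1 ⟨1, one_mem _, by rw [h3.2.2]; ring⟩
    have h5 : rel ρ ρ' := htrans _ _ _ (hr1 ρ h1) (by
      rw [h4]
      exact hsymm _ _ (hr1 ρ' h1'))
    rw [hrel] at h5
    obtain ⟨-, -, h6, h7, c, hc, h8⟩ := h5
    have hT' : Tr D Q M C₀ ρ' (U ρ) (V ρ) (A ρ') := by
      have h9 := (h ρ' h1').2.1
      rw [← h6, ← h7] at h9
      exact h9
    have hc0 : c ≠ 0 := by
      rintro rfl
      apply hz0 ρ h1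
      rw [h8]
      ring
    refine coA_ker D Q M C₀ ρ ρ' (h ρ h1).1 (h ρ' h1').1 (U ρ) (V ρ) (A ρ) (A ρ') c
      (h ρ h1).2.1 hT' hc hc0 ?_
    rw [hz, hz, ← h6, ← h7] at h8
    have hne := coA_ne D Q M C₀ _ _ _ _ (hbT ρ h1)
    field_simp at h8
    exact h8
  have hR0 : 0 ≤ R ^ (1 + ε) := Real.rpow_nonneg (by linarith) _
  calc (Rs.card : ℝ) ≤ ((Nat.card G ^ Nat.card G : ℕ) : ℝ) * ((Rs.image f).card : ℝ) := by
        exact_mod_cast hcard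
    _ ≤ ((Nat.card G ^ Nat.card G : ℕ) : ℝ) * (C₁ * R ^ (1 + ε)) :=
        mul_le_mul_of_nonneg_left hcore (Nat.cast_nonneg _)
    _ ≤ ((Nat.card G ^ Nat.card G : ℕ) : ℝ) * (max C₁ 0 * R ^ (1 + ε)) :=
        mul_le_mul_of_nonneg_left
          (mul_le_mul_of_nonneg_right (le_max_left _ _) hR0) (Nat.cast_nonneg _)
    _ = ((Nat.card G ^ Nat.card G : ℕ) : ℝ) * max C₁ 0 * R ^ (1 + ε) := by ring

end H38.WM
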