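import Pool.Agent.H38.WM.Def
import Pool.Agent.H63.MA.KumB

/-!
# [H38 WM EvR] `a` has even order at `P` if `F/K` is ramified below, 70-110 lines. File Pool/Agent/H38/WM/EvR.lean

Proof. `τ ∈ (Q.P l).inertia` with `D.pi (ρ τ) ≠ 1`, so `τ` does not fix `F`; `F/K` is normal of degree 3 (its fixing subgroup is the
kernel of `D.pi ∘ ρ`), so the restriction `s` of `τ` generates `Gal(F/K)` (order 3). `τ` maps `Q.P l` to itself, so `s` fixes the prime
`P₀ = (Q.P l).under (𝓞 F)` of `F`, and all primes of `F` over `l` are conjugate to `P₀` under `Gal(F/K) = {1, s, s^2}`, so `P = P₀` and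
`s` fixes `P` (as an ideal). So `ord P (s x) = ord P x` for `x ∈ Fˣ`. `N(a) = a · s a · s^2 a` (`Algebra.norm_eq_prod_automorphisms`,
`IsGalois K F`), `N(a) = c^2` with `c ∈ K`, hence `3 ord P a = 2 ord P c` (with `c` mapped to `Fˣ`), so `ord P a` is even (`omega`).
No ramification theory is needed. (`Over P l` is `P.asIdeal.comap (algebraMap (𝓞 K) (𝓞 F)) = l.asIdeal`.)
-/

set_option autoImplicit false

open scoped NumberField
open IsDedekindDomain NumberField H38.ML H63.MA

noncomputable section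

namespace H38.WM

section ord

variable {K₁ : Type} [Field K₁] [NumberField K₁] {L : Type} [Field L] [NumberField L] [Algebra K₁ L]

open scoped Pointwise in
private theorem evr_int_smul (s : L ≃ₐ[K₁] L) {w w' : Pl L} (h : s • w.asIdeal = w'.asIdeal)
    (a : 𝓞 L) : w'.intValuation (s • a) = w.intValuation a := by
  have key : ∀ n : ℕ, w'.intValuation (s • a) ≤ WithZero.exp (-(n : ℤ)) ↔
      w.intValuation a ≤ WithZero.exp (-(n : ℤ)) := by
    intro n
    rw [HeightOneSpectrum.intValuation_le_pow_iff_mem, HeightOneSpectrum.intValuation_le_pow_iff_mem,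
      ← h, ← smul_pow', Ideal.smul_mem_pointwise_smul_iff]
  rcases eq_or_ne a 0 with rfl | ha
  · simp
  have hsa : s • a ≠ 0 := by
    rwa [Ne, smul_eq_zero_iff_eq]
  apply le_antisymm
  · rw [HeightOneSpectrum.intValuation_eq_exp_neg_multiplicity w ha, key,
      HeightOneSpectrum.intValuation_eq_exp_neg_multiplicity w ha]
  · rw [HeightOneSpectrum.intValuation_eq_exp_neg_multiplicity w' hsa, ← key,
      HeightOneSpectrum.intValuation_eq_exp_neg_multiplicity w' hsa]

open scoped Pointwise in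
private theorem evr_val_smul (s : L ≃ₐ[K₁] L) {w w' : Pl L} (h : s • w.asIdeal = w'.asIdeal)
    (y : L) : w'.valuation L (s y) = w.valuation L y := by
  obtain ⟨a, b, hb, rfl⟩ := IsFractionRing.div_surjective (A := 𝓞 L) y
  have e : ∀ a : 𝓞 L, s (algebraMap (𝓞 L) L a) = algebraMap (𝓞 L) L (s • a) := fun a => rfl
  rw [map_div₀, map_div₀, map_div₀, e, e, HeightOneSpectrum.valuation_of_algebraMap,
    HeightOneSpectrum.valuation_of_algebraMap, HeightOneSpectrum.valuation_of_algebraMap,
    HeightOneSpectrum.valuation_of_algebraMap, evr_int_smul s h, evr_int_smul s h]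

open scoped Pointwise in
private theorem evr_ord_smul (s : L ≃ₐ[K₁] L) {w : Pl L} (h : s • w.asIdeal = w.asIdeal)
    (y : Lˣ) : ord w (au s y) = ord w y := by
  unfold ord au
  rw [Units.coe_map]
  congr 2
  exact evr_val_smul s h y

end ord

variable {K : IntermediateField ℚ QBar} [NumberField K] {G : Type} [Group G]

open scoped Pointwise in
theorem evr (D : TD G) (ρ : Gal(QBar/K) →* G) (F : IntermediateField K QBar) [NumberField F]
    (a : Fˣ) (H : KD D ρ F a) (hN : IsSquare (Algebra.norm K (a : F))) (Q : DP K QBar)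
    (P : Pl F) (l : Pl K) (hPl : Over P l) (hl : l ∈ R3 D Q ρ) : Even (ord P a) := by
  classical
  have hfd : FiniteDimensional K F := FiniteDimensional.of_finrank_pos (by rw [H.deg]; norm_num)
  have hker : F.fixingSubgroup = (D.pi.comp ρ).ker := by
    ext σ
    rw [H.fix]
    rfl
  have hgQ : IsGalois K QBar := IsAlgClosure.isGalois K QBar
  have hnorm : F.fixingSubgroup.Normal := by
    rw [hker]
    infer_instance
  have hgal : IsGalois K F := (InfiniteGalois.normal_iff_isGalois F).1 hnorm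
  obtain ⟨τ, hτ, hτ1⟩ := hl
  obtain ⟨s, hs⟩ : ∃ s : Gal(F/K), ∀ x : F, ((s x : F) : QBar) = τ (x : QBar) :=
    ⟨τ.restrictNormal F, fun x => AlgEquiv.restrictNormal_commutes τ F x⟩
  have hs1 : s ≠ 1 := by
    rintro rfl
    apply hτ1
    have h1 : τ ∈ F.fixingSubgroup := by
      rw [IntermediateField.mem_fixingSubgroup_iff]
      intro x hx
      exact (hs ⟨x, hx⟩).symm
    exact (H.fix τ).1 h1
  -- the prime below the chosen one
  have hPp := Q.prime l
  have hP0p : ((Q.P l).under (𝓞 F)).IsPrime := inferInstance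
  have hP0u : ((Q.P l).under (𝓞 F)).under (𝓞 K) = l.asIdeal := by
    rw [Ideal.under_under]
    exact Q.under l
  have hlo : ((Q.P l).under (𝓞 F)).LiesOver l.asIdeal := ⟨hP0u.symm⟩
  have hlo' : P.asIdeal.LiesOver l.asIdeal := ⟨hPl.symm⟩
  have hPprime := P.isPrime
  have hsP : ∀ x : 𝓞 F, s • x - x ∈ (Q.P l).under (𝓞 F) := by
    intro x
    have h1 : τ • (algebraMap (𝓞 F) (𝓞 QBar) x) - algebraMap (𝓞 F) (𝓞 QBar) x ∈ Q.P l := hτ _
    show algebraMap (𝓞 F) (𝓞 QBar) (s • x - x) ∈ Q.P l
    rw [map_sub]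
    have h2 : algebraMap (𝓞 F) (𝓞 QBar) (s • x) = τ • (algebraMap (𝓞 F) (𝓞 QBar) x) := by
      apply RingOfIntegers.ext
      exact hs (x : F)
    rw [h2]
    exact h1
  obtain ⟨g, hg⟩ := Ideal.exists_smul_eq_of_isGaloisGroup l.asIdeal ((Q.P l).under (𝓞 F))
    P.asIdeal Gal(F/K)
  -- a conjugate of `s` fixes `P`
  have hgs1 : g * s * g⁻¹ ≠ 1 := by
    intro h1
    apply hs1
    have h2 : s = g⁻¹ * (g * s * g⁻¹) * g := by group
    rw [h2, h1, mul_one, inv_mul_cancel]
  have hsP0 : s • ((Q.P l).under (𝓞 F)) = (Q.P l).under (𝓞 F) := by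
    have hstab : s ∈ MulAction.stabilizer Gal(F/K) ((Q.P l).under (𝓞 F)) :=
      Ideal.inertia_le_stabilizer ((Q.P l).under (𝓞 F)) hsP
    exact hstab
  have hstab : g * s * g⁻¹ ∈ MulAction.stabilizer Gal(F/K) P.asIdeal := by
    rw [MulAction.mem_stabilizer_iff, ← hg, smul_smul, mul_assoc, mul_assoc, inv_mul_cancel,
      mul_one, mul_smul, hsP0]
  have hcard : Nat.card Gal(F/K) = 3 := by rw [IsGalois.card_aut_eq_finrank, H.deg]
  have hall : ∀ t : Gal(F/K), t • P.asIdeal = P.asIdeal := by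
    intro t
    have : Fact (Nat.Prime 3) := ⟨Nat.prime_three⟩
    have h1 : t ∈ Subgroup.zpowers (g * s * g⁻¹) := mem_zpowers_of_prime_card hcard hgs1
    have h2 : Subgroup.zpowers (g * s * g⁻¹) ≤ MulAction.stabilizer Gal(F/K) P.asIdeal := by
      rw [Subgroup.zpowers_le]
      exact hstab
    exact h2 h1
  -- the norm
  obtain ⟨c, hc⟩ := hN
  have hprod := Algebra.norm_eq_prod_automorphisms K (a : F)
  have hc0 : c ≠ 0 := by
    rintro rfl
    rw [mul_zero] at hc
    have h1 := (Algebra.norm_eq_zero_iff (R := K)).1 hc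
    exact a.ne_zero h1
  have hu : ∏ t : Gal(F/K), au t a = inc K F (Units.mk0 c hc0) ^ 2 := by
    apply Units.ext
    rw [Units.coe_prod]
    have h1 : ((inc K F (Units.mk0 c hc0) ^ 2 : Fˣ) : F) = algebraMap K F c ^ 2 := rfl
    rw [h1, ← map_pow, pow_two, ← hc, hprod]
    rfl
  have h1 : ord P (∏ t : Gal(F/K), au t a) = 3 * ord P a := by
    rw [ord_prod, Finset.sum_congr rfl fun t _ => evr_ord_smul t (hall t) a, Finset.sum_const,
      Finset.card_univ, ← Nat.card_eq_fintype_card, hcard]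
    simp
  rw [hu, ord_pow] at h1
  push_cast at h1
  exact ⟨ord P (inc K F (Units.mk0 c hc0)) - ord P a, by omega⟩

end H38.WM
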