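import Pool.Agent.H38.WM.Def
import Pool.Agent.H63.BU.UOrd

/-!
# [H38 WM EvU] `a` has even order at `P` if `ρ` is unramified below and `2 ∉ P`, 50-90 lines. File Pool/Agent/H38/WM/EvU.lean

Proof. Let `𝔓` be a prime of `𝓞 QBar` with `𝔓.under (𝓞 F) = P` (`H63.MA.gloc_over F QBar`). It lies over `l`, so `𝔓 = g • Q.P l` for some
`g : Gal(QBar/K)` (transitivity on the primes of `𝓞 QBar` over `l`: search the library, e.g. `exists_smul_eq`, H63/MC, H38/ML/UnrFin
or Mathlib `Ideal.exists_smul_eq_of_under_eq...`/`Algebra.IsInvariant.exists_smul_of_under_eq`), and for `τ ∈ 𝔓.inertia` the element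
`g⁻¹ τ g` is in `(Q.P l).inertia`, so `ρ τ = 1`. Let `π : Fˣ` with `ord P π = 1`. `H63.BU.uord_at QBar Nat.prime_two` over the field `F`
(`IsPrimitiveRoot.neg_one`, `¬ Above 2 P` because `2 ∉ l`) gives `L : LD 2 (-1) QBar P π` with `L.P = 𝔓`; `L.t ∈ 𝔓.inertia Gal(QBar/F)`,
and `H63.MA.ld_kk_t`: `(ord P a : ZMod 2) = kk 2 (-1) a L.t = D.psi (ρ (L.t.restrictScalars K)) = D.psi 1 = 0` (`H.kum`; `D.add 1 1`;
`L.t.restrictScalars K` is in `𝔓.inertia Gal(QBar/K)`). `ZMod.intCast_zmod_eq_zero_iff_dvd`/`(ZMod.intCast_zmod_eq_zero_iff_dvd _ 2)`.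
-/

set_option autoImplicit false

open scoped NumberField Pointwise
open IsDedekindDomain NumberField H38.ML H63.MA

noncomputable section

namespace H38.WM

private theorem evu_trans {K : Type} [Field K] [NumberField K] {Ω : Type} [Field Ω] [Algebra K Ω]
    [IsAlgClosure K Ω] (P P' : Ideal (𝓞 Ω)) (hP : P.IsPrime) (hP' : P'.IsPrime)
    (h : P.under (𝓞 K) = P'.under (𝓞 K)) : ∃ g : Gal(Ω/K), P' = g • P := by
  have : IsGalois K Ω := IsAlgClosure.isGalois K Ω
  let _ : TopologicalSpace (𝓞 Ω) := ⊥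
  have : DiscreteTopology (𝓞 Ω) := ⟨rfl⟩
  have : ContinuousSMul Gal(Ω/K) (𝓞 Ω) := by
    rw [continuousSMul_iff_stabilizer_isOpen]
    intro x
    have h1 := stabilizer_isOpen_of_isIntegral (K := K) (L := Ω) (x : Ω)
    have h2 : (MulAction.stabilizer Gal(Ω/K) x : Set Gal(Ω/K)) =
        (MulAction.stabilizer Gal(Ω/K) (x : Ω) : Set Gal(Ω/K)) := by
      ext g
      simp only [SetLike.mem_coe, MulAction.mem_stabilizer_iff]
      constructor
      · intro hg
        exact congrArg (fun z : 𝓞 Ω => (z : Ω)) hg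
      · intro hg
        exact NumberField.RingOfIntegers.ext hg
    rw [h2]
    exact h1
  have : Algebra.IsInvariant (𝓞 K) (𝓞 Ω) Gal(Ω/K) := ⟨fun b hb => by
    have h1 : (b : Ω) ∈ (⊥ : IntermediateField K Ω) := by
      rw [← InfiniteGalois.fixedField_bot (k := K) (K := Ω), IntermediateField.mem_fixedField_iff]
      intro g _
      exact congrArg (fun z : 𝓞 Ω => (z : Ω)) (hb g)
    obtain ⟨a, ha⟩ := IntermediateField.mem_bot.1 h1
    have h2 : IsIntegral ℤ a := by
      have h3 : IsIntegral ℤ (algebraMap K Ω a) := by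
        rw [ha]
        exact b.2
      exact (isIntegral_algebraMap_iff (algebraMap K Ω).injective).1 h3
    refine ⟨⟨a, h2⟩, NumberField.RingOfIntegers.ext ?_⟩
    exact ha⟩
  exact Algebra.IsInvariant.exists_smul_of_under_eq_of_profinite (A := 𝓞 K) (G := Gal(Ω/K)) P P' h

private theorem evu_inr {K : Type} [Field K] [NumberField K] {Ω : Type} [Field Ω] [Algebra K Ω]
    (P : Ideal (𝓞 Ω)) (g τ : Gal(Ω/K)) (h : τ ∈ (g • P).inertia Gal(Ω/K)) :
    g⁻¹ * τ * g ∈ P.inertia Gal(Ω/K) := by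
  intro x
  have h1 := h (g • x)
  have h2 : (g⁻¹ * τ * g) • x - x = g⁻¹ • (τ • (g • x) - g • x) := by
    rw [smul_sub, inv_smul_smul, mul_smul, mul_smul]
  change (g⁻¹ * τ * g) • x - x ∈ P
  rw [h2]
  have h3 : τ • (g • x) - g • x ∈ g • P := h1
  rwa [Ideal.mem_pointwise_smul_iff_inv_smul_mem] at h3

variable {K : IntermediateField ℚ QBar} [NumberField K] {G : Type} [Group G]

theorem evu (D : TD G) (ρ : Gal(QBar/K) →* G) (F : IntermediateField K QBar) [NumberField F]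
    (a : Fˣ) (H : KD D ρ F a) (Q : DP K QBar) (P : Pl F) (l : Pl K) (hPl : Over P l)
    (h2 : (2 : 𝓞 K) ∉ l.asIdeal) (hl : l ∉ Rm Q ρ) : Even (ord P a) := by
  have hcl : IsAlgClosure F QBar :=
    { isAlgClosed := inferInstance
      isAlgebraic := by
        have h0 : Algebra.IsAlgebraic K QBar := inferInstance
        exact Algebra.IsAlgebraic.tower_top (K := K) F }
  obtain ⟨B, hB, hBP⟩ := gloc_over F QBar P.asIdeal P.isPrime
  have hBl : B.under (𝓞 K) = l.asIdeal := by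
    rw [← hPl, ← hBP]
    ext x
    exact Iff.rfl
  have hQ := Q.under l
  obtain ⟨g, hg⟩ := evu_trans (K := K) (Q.P l) B (Q.prime l) hB (hQ.trans hBl.symm)
  have hin : ∀ τ ∈ B.inertia Gal(QBar/K), ρ τ = 1 := by
    intro τ hτ
    rw [hg] at hτ
    have h1 := evu_inr (Q.P l) g τ hτ
    have h3 : ρ (g⁻¹ * τ * g) = 1 := by
      by_contra h4
      exact hl ⟨_, h1, h4⟩
    rw [map_mul, map_mul, map_inv] at h3
    have h4 : ρ τ = ρ g * ((ρ g)⁻¹ * ρ τ * ρ g) * (ρ g)⁻¹ := by group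
    rw [h4, h3, mul_one, mul_inv_cancel]
  obtain ⟨π, hπ⟩ := exists_unif P
  have hab : ¬ Above 2 P := by
    intro h4
    apply h2
    have h5 : ((2 : ℕ) : 𝓞 F) ∈ P.asIdeal := h4
    rw [← hPl, Ideal.mem_comap, map_ofNat]
    exact_mod_cast h5
  have hprim : IsPrimitiveRoot (-1 : F) 2 := by
    have h5 := IsPrimitiveRoot.neg_one (R := F) 0 (by norm_num)
    exact h5
  obtain ⟨L', hL'⟩ := H63.BU.uord_at QBar Nat.prime_two hprim hab hπ B hB hBP
  have h6 := ld_kk_t Nat.prime_two hprim hab hπ L' a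
  rw [H.kum L'.t] at h6
  have h7 : ρ (L'.t.restrictScalars K) = 1 := by
    apply hin
    intro x
    have h8 := L'.ht
    rw [hL'] at h8
    exact h8 x
  have h9 : D.psi 1 = 0 := by
    have h10 := D.add 1 1 (map_one _) (map_one _)
    rw [mul_one] at h10
    exact left_eq_add.1 h10
  rw [h7, h9] at h6
  exact even_iff_two_dvd.2 ((ZMod.intCast_zmod_eq_zero_iff_dvd _ 2).1 h6.symm)

end H38.WM
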