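import Pool.Agent.H38.WM.Def
import Pool.Agent.H63.MA.GKum

/-!
# [H38 WM Nsq] the norm of `a` is a square, 90-140 lines. File Pool/Agent/H38/WM/Nsq.lean

Proof. Let `b ∈ QBar`, `b^2 = a` (`b ≠ 0`). `s : Gal(QBar/K)` with `D.pi (ρ s) ≠ 1` exists (`D.surj`, `hρ`). `B = b · s b · s (s b)`.
For `σ` in `F.fixingSubgroup` (this subgroup is normal: it is the kernel of `D.pi ∘ ρ`) let `σ' : Gal(QBar/F)` be `σ`
(`IntermediateField.fixingSubgroupEquiv`), `kk_root` (H63/MA/GKum.lean): `σ b = (-1)^(psi (ρ σ)).val b` by `H.kum`. Likewise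
`σ (s b) = s ((s⁻¹ σ s) b) = (-1)^(psi (g (ρ σ) g⁻¹)).val s b` with `g = (ρ s)⁻¹`, and for `s (s b)` with `g^2`. By `D.tr g (ρ σ)` the
three exponents add up to `0` modulo 2, so `σ B = B`. Hence `B ∈ F` (`QBar/F` is Galois: `IsGalois`,
`InfiniteGalois.fixedField_fixingSubgroup` or `IsGalois.mem_...`: an element fixed by `F.fixingSubgroup` lies in `F`). And
`B^2 = a · s a · s (s a)`, which is `algebraMap (Algebra.norm K a)`: `Algebra.norm_eq_prod_embeddings K QBar a`, and the three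
embeddings of `F` are the restrictions of `1, s, s^2` (pairwise different: `s`, `s^2` are not in `F.fixingSubgroup`, `D.pi (ρ s)` has
order 3; `finrank K F = 3 = number of embeddings`: `AlgHom.card`). So with `n = Algebra.norm K a ∈ K`, `n ≠ 0`:
`(Algebra.norm K B)^2 = Algebra.norm K (B^2) = Algebra.norm K (algebraMap n) = n^3` (`Algebra.norm_algebraMap`), so
`n = (Algebra.norm K B / n)^2`.
-/

set_option autoImplicit false

open scoped NumberField
open IsDedekindDomain NumberField H38.ML H63.MA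

noncomputable section

namespace H38.WM

variable {K : IntermediateField ℚ QBar} [NumberField K] {G : Type} [Group G]

/-- the sign `(-1) ^ x` -/
private def sg (x : ZMod 2) : QBar := (-1) ^ x.val

private theorem sg_add (x y : ZMod 2) : sg (x + y) = sg x * sg y := by
  have h : ∀ x y : ZMod 2, (x + y).val % 2 = (x.val + y.val) % 2 := by decide
  unfold sg
  rw [← pow_add, neg_one_pow_eq_pow_mod_two (n := (x + y).val), h x y,
    ← neg_one_pow_eq_pow_mod_two]

private theorem sg_zero : sg 0 = 1 := by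
  unfold sg
  simp

omit [NumberField K] in
private theorem map_sg (s : Gal(QBar/K)) (x : ZMod 2) : s (sg x) = sg x := by
  unfold sg
  rw [map_pow, map_neg, map_one]

private theorem sg_three (x y z : ZMod 2) (h : x + y + z = 0) : sg x * (sg y * sg z) = 1 := by
  rw [← sg_add, ← sg_add, ← add_assoc, h, sg_zero]

theorem nsq (D : TD G) (ρ : Gal(QBar/K) →* G) (hρ : Function.Surjective ρ)
    (F : IntermediateField K QBar) (a : Fˣ) (H : KD D ρ F a) :
    IsSquare (Algebra.norm K (a : F)) := by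
  have hfd : FiniteDimensional K F := by
    apply FiniteDimensional.of_finrank_pos
    rw [H.deg]
    norm_num
  have hnf : NumberField F := NumberField.of_module_finite K F
  have hac : IsAlgClosure F QBar :=
    { isAlgClosed := inferInstance
      isAlgebraic := Algebra.IsAlgebraic.tower_top (K := K) F }
  obtain ⟨b, hb⟩ := gkum_root (K := F) (Ω := QBar) Nat.prime_two a
  have hm1 : IsPrimitiveRoot (-1 : F) 2 := IsPrimitiveRoot.neg_one 0 (by norm_num)
  -- the action on `b`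
  have hact : ∀ σ : Gal(QBar/K), σ ∈ F.fixingSubgroup → σ b = sg (D.psi (ρ σ)) * b := by
    intro σ hσ
    obtain ⟨τ, hτ⟩ : ∃ τ : Gal(QBar/F), τ.restrictScalars K = σ := by
      refine ⟨IntermediateField.fixingSubgroupEquiv F ⟨σ, hσ⟩, ?_⟩
      ext x
      rfl
    have h1 := kk_root Nat.prime_two hm1 a b hb τ
    rw [H.kum τ, hτ] at h1
    have h2 : τ b = σ b := by
      rw [← hτ]
      rfl
    rw [h2, map_neg, map_one] at h1
    exact h1
  -- an element of order three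
  obtain ⟨g0, hg0⟩ := D.surj (Multiplicative.ofAdd 1)
  obtain ⟨s, hs⟩ := hρ g0
  have hps : D.pi (ρ s) = Multiplicative.ofAdd 1 := by rw [hs, hg0]
  have hne1 : (Multiplicative.ofAdd (1 : ZMod 3)) ≠ 1 := by decide
  have hne2 : (Multiplicative.ofAdd (1 : ZMod 3)) ^ 2 ≠ 1 := by decide
  have hpinv : D.pi ((ρ s)⁻¹) ≠ 1 := by
    rw [map_inv, hps]
    decide
  have hmem : ∀ σ : Gal(QBar/K), σ ∈ F.fixingSubgroup → D.pi (ρ σ) = 1 := fun σ hσ => (H.fix σ).1 hσ
  have hconj : ∀ (t σ : Gal(QBar/K)), σ ∈ F.fixingSubgroup → t⁻¹ * σ * t ∈ F.fixingSubgroup := by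
    intro t σ hσ
    rw [H.fix]
    simp only [map_mul, map_inv]
    rw [hmem σ hσ, mul_one, inv_mul_cancel]
  have hact2 : ∀ (t σ : Gal(QBar/K)), σ ∈ F.fixingSubgroup →
      σ (t b) = sg (D.psi (ρ (t⁻¹ * σ * t))) * t b := by
    intro t σ hσ
    have h1 := hact _ (hconj t σ hσ)
    have h2 : σ (t b) = t ((t⁻¹ * σ * t) b) := by
      have h3 : σ * t = t * (t⁻¹ * σ * t) := by group
      have h4 := congrArg (fun u : Gal(QBar/K) => u b) h3
      simpa only [AlgEquiv.mul_apply] using h4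
    rw [h2, h1, map_mul, map_sg]
  obtain ⟨B, hB⟩ : ∃ B : QBar, B = b * (s b * (s ^ 2) b) := ⟨_, rfl⟩
  have hfix : ∀ σ : Gal(QBar/K), σ ∈ F.fixingSubgroup → σ B = B := by
    intro σ hσ
    have h3 := D.tr (ρ s)⁻¹ (ρ σ) hpinv (hmem σ hσ)
    have e1 : (ρ s)⁻¹ * ρ σ * ((ρ s)⁻¹)⁻¹ = ρ (s⁻¹ * σ * s) := by
      rw [inv_inv, map_mul, map_mul, map_inv]
    have e2 : (ρ s)⁻¹ ^ 2 * ρ σ * ((ρ s)⁻¹ ^ 2)⁻¹ = ρ ((s ^ 2)⁻¹ * σ * s ^ 2) := by
      rw [map_mul, map_mul, map_inv, map_pow, inv_pow, inv_inv]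
    rw [e1, e2] at h3
    rw [hB, map_mul, map_mul, hact σ hσ, hact2 s σ hσ, hact2 (s ^ 2) σ hσ]
    have h4 := sg_three _ _ _ h3
    calc sg (D.psi (ρ σ)) * b * (sg (D.psi (ρ (s⁻¹ * σ * s))) * s b *
          (sg (D.psi (ρ ((s ^ 2)⁻¹ * σ * s ^ 2))) * (s ^ 2) b)) =
        (sg (D.psi (ρ σ)) * (sg (D.psi (ρ (s⁻¹ * σ * s))) *
          sg (D.psi (ρ ((s ^ 2)⁻¹ * σ * s ^ 2))))) * (b * (s b * (s ^ 2) b)) := by ring
      _ = b * (s b * (s ^ 2) b) := by rw [h4, one_mul]
  have hgal : IsGalois K QBar := by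
    have : IsAlgClosure K QBar := inferInstance
    exact IsAlgClosure.isGalois K QBar
  have hBF : B ∈ F := by
    have h1 := InfiniteGalois.fixedField_fixingSubgroup F
    rw [← h1, IntermediateField.mem_fixedField_iff]
    exact fun σ hσ => hfix σ hσ
  -- the norm
  have hcard : Fintype.card (F →ₐ[K] QBar) = 3 := by
    rw [AlgHom.card, H.deg]
  obtain ⟨φ, hφ⟩ : ∃ φ : Fin 3 → (F →ₐ[K] QBar),
      φ = fun i : Fin 3 => (((s ^ (i : ℕ) : Gal(QBar/K)) : QBar ≃ₐ[K] QBar).toAlgHom).comp F.val :=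
    ⟨_, rfl⟩
  have hφv : ∀ (i : Fin 3) (x : F), φ i x = (s ^ (i : ℕ)) (x : QBar) := by
    intro i x
    rw [hφ]
    rfl
  have hlt : ∀ i j : Fin 3, (i : ℕ) < (j : ℕ) → φ i ≠ φ j := by
    intro i j hij he
    obtain ⟨k, hk⟩ : ∃ k, (j : ℕ) = i + k := ⟨j - i, by omega⟩
    have hmemk : s ^ k ∈ F.fixingSubgroup := by
      rw [IntermediateField.mem_fixingSubgroup_iff]
      intro x hx
      have h1 := congrArg (fun u : F →ₐ[K] QBar => u ⟨x, hx⟩) he
      simp only [hφv] at h1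
      rw [hk, pow_add, AlgEquiv.mul_apply] at h1
      exact ((s ^ (i : ℕ)).injective h1).symm
    have h2 := hmem _ hmemk
    rw [map_pow, map_pow, hps] at h2
    have hk12 : k = 1 ∨ k = 2 := by
      have := j.isLt
      omega
    rcases hk12 with rfl | rfl
    · exact hne1 (by rw [← h2, pow_one])
    · exact hne2 h2
  have hinj : Function.Injective φ := by
    intro i j he
    rcases lt_trichotomy (i : ℕ) (j : ℕ) with h1 | h1 | h1
    · exact absurd he (hlt i j h1)
    · exact Fin.ext h1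
    · exact absurd he.symm (hlt j i h1)
  have hbij : Function.Bijective φ := by
    rw [Fintype.bijective_iff_injective_and_card]
    exact ⟨hinj, by rw [Fintype.card_fin, hcard]⟩
  have hnorm : algebraMap K QBar (Algebra.norm K (a : F)) = B ^ 2 := by
    rw [Algebra.norm_eq_prod_embeddings K QBar, ← Fintype.prod_bijective φ hbij
      (fun i => φ i (a : F)) (fun u => u (a : F)) (fun i => rfl), Fin.prod_univ_three]
    have hbb : ((a : F) : QBar) = b ^ 2 := hb.symm
    rw [hφv, hφv, hφv, hbb, map_pow, map_pow, map_pow, hB]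
    simp only [Fin.val_zero, Fin.val_one, Fin.val_two, pow_zero, pow_one, AlgEquiv.one_apply]
    ring
  obtain ⟨n, hn⟩ : ∃ n, n = Algebra.norm K (a : F) := ⟨_, rfl⟩
  rw [← hn] at hnorm ⊢
  have hn0 : n ≠ 0 := by
    rw [hn, Algebra.norm_ne_zero_iff]
    exact a.ne_zero
  have hB2 : (⟨B, hBF⟩ : F) ^ 2 = algebraMap K F n := by
    apply Subtype.ext
    exact hnorm.symm
  have h5 : (Algebra.norm K (⟨B, hBF⟩ : F)) ^ 2 = n ^ 3 := by
    rw [← map_pow, hB2, Algebra.norm_algebraMap, H.deg]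
  refine ⟨Algebra.norm K (⟨B, hBF⟩ : F) / n, ?_⟩
  field_simp
  rw [h5]

end H38.WM
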