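import Pool.Agent.H38.WM.Def
import Pool.Agent.H63.MA.GKus

/-!
# [H38 WM Psa] the Kummer class `a` of `psi`, 40-70 lines. File Pool/Agent/H38/WM/Psa.lean

Proof. `F` is a number field (instance below), `QBar` an algebraic closure of `F`. For `σ : Gal(QBar/F)` the automorphism
`σ.restrictScalars K` is in `F.fixingSubgroup`, so `D.pi (ρ _) = 1`, and `σ ↦ Multiplicative.ofAdd (D.psi (ρ (σ.restrictScalars K)))` is a
homomorphism `χ` to `Multiplicative (ZMod 2)` by `D.add`. `FT χ`: `FT ρ` gives a finite `E : IntermediateField K QBar` with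
`E.fixingSubgroup ≤ ρ.ker`; take the compositum `F E` as an intermediate field of `QBar/F`: `IntermediateField.extendScalars` of
`le_sup_left : F ≤ F ⊔ E`, finite over `F`; an automorphism fixing it fixes `E`, so `ρ = 1`, and `psi 1 = 0` (`D.add 1 1`).
`H63.MA.kc_all (p := 2) Nat.prime_two (ζ := -1)`: `χ = kc 2 (-1) QBar a`. `IsPrimitiveRoot (-1 : F) 2`: `IsPrimitiveRoot.neg_one`.
-/

set_option autoImplicit false

open scoped NumberField
open IsDedekindDomain NumberField H38.ML H63.MA

noncomputable section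

namespace H38.WM

variable {K : IntermediateField ℚ QBar} [NumberField K] {G : Type} [Group G]

theorem psa (D : TD G) (ρ : Gal(QBar/K) →* G) (hft : FT ρ) (F : IntermediateField K QBar)
    (h3 : Module.finrank K F = 3) (hF : ∀ σ : Gal(QBar/K), σ ∈ F.fixingSubgroup ↔ D.pi (ρ σ) = 1) :
    ∃ a : Fˣ, KD D ρ F a := by
  have hfd : FiniteDimensional K F := FiniteDimensional.of_finrank_pos (by rw [h3]; norm_num)
  have hnf : NumberField F := NumberField.of_module_finite K F
  have halg : Algebra.IsAlgebraic F QBar := Algebra.IsAlgebraic.tower_top (K := K) F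
  have hcl : IsAlgClosure F QBar := ⟨IsAlgClosure.isAlgClosed K, halg⟩
  have hpsi1 : D.psi 1 = 0 := by
    have h1 := D.add 1 1 (map_one _) (map_one _)
    rw [mul_one] at h1
    exact left_eq_add.1 h1
  have hres : ∀ σ : Gal(QBar/F), D.pi (ρ (σ.restrictScalars K)) = 1 := by
    intro σ
    rw [← hF, IntermediateField.mem_fixingSubgroup_iff]
    intro x hx
    exact σ.commutes ⟨x, hx⟩
  obtain ⟨χ, hχ⟩ : ∃ χ : Gal(QBar/F) →* Multiplicative (ZMod 2),
      ∀ σ, χ σ = Multiplicative.ofAdd (D.psi (ρ (σ.restrictScalars K))) := by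
    refine ⟨⟨⟨fun σ => Multiplicative.ofAdd (D.psi (ρ (σ.restrictScalars K))), ?_⟩, ?_⟩,
      fun σ => rfl⟩
    · have h1 : (1 : Gal(QBar/F)).restrictScalars K = 1 := rfl
      rw [h1, map_one, hpsi1]
      rfl
    · intro σ τ
      have h1 : (σ * τ).restrictScalars K = σ.restrictScalars K * τ.restrictScalars K := rfl
      show Multiplicative.ofAdd (D.psi (ρ ((σ * τ).restrictScalars K))) = _
      rw [h1, map_mul, D.add _ _ (hres σ) (hres τ)]
      rfl
  have hFT : FT χ := by
    obtain ⟨E, hE1, hE2⟩ := hft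
    have hle : F ≤ F ⊔ E := le_sup_left
    have hfs : FiniteDimensional K (F ⊔ E : IntermediateField K QBar) :=
      IntermediateField.finiteDimensional_sup F E
    refine ⟨IntermediateField.extendScalars hle, ?_, ?_⟩
    · have h1 : FiniteDimensional K (IntermediateField.extendScalars hle) := hfs
      exact FiniteDimensional.right K F _
    · intro τ hτ
      rw [IntermediateField.mem_fixingSubgroup_iff] at hτ
      have h1 : τ.restrictScalars K ∈ E.fixingSubgroup := by
        rw [IntermediateField.mem_fixingSubgroup_iff]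
        intro x hx
        refine hτ x ?_
        rw [IntermediateField.mem_extendScalars]
        exact (le_sup_right : E ≤ F ⊔ E) hx
      have h2 : ρ (τ.restrictScalars K) = 1 := hE2 h1
      show χ τ = 1
      rw [hχ, h2, hpsi1]
      rfl
  obtain ⟨a, ha⟩ := kc_all (K := F) (Ω := QBar) Nat.prime_two
    (IsPrimitiveRoot.neg_one 0 (by norm_num)) χ hFT
  refine ⟨a, h3, hF, fun σ => ?_⟩
  show Multiplicative.toAdd (kc 2 (-1 : F) QBar a σ) = _
  rw [← ha, hχ]
  rfl

end H38.WM
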