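import Pool.Agent.H38.WM.Dfc
import Pool.Agent.H38.WM.Kch
import Pool.Agent.H38.WM.Fdp
import Pool.Agent.H38.WM.Rml
import Pool.Agent.H38.WM.Psa
import Pool.Agent.H38.WM.Nsq
import Pool.Agent.H38.WM.EvU
import Pool.Agent.H38.WM.EvR

/-!
# [H38 WM Dt1] every `ρ` has a triple `(u, v, a)`, 40-70 lines. File Pool/Agent/H38/WM/Dt1.lean

Proof. `M, C₀` from `kch`. `χ = D.pi.comp ρ` is of finite type; `kch`: `u, v, y` with `χ = kc 3 ω QBar y`, so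
`D.pi (ρ σ) = 1 ↔ kk 3 ω y σ = 0` (`kk` is `Multiplicative.toAdd` of `kc`). `fd_fix`: `σ ∈ (Fd u v).fixingSubgroup ↔ D.pi (ρ σ) = 1`;
`fd_deg`: degree 3 (`D.surj`, `ρ` surjective). `psa`: `a'`; `nsq`. Third clause: `rml`. Last clause: `2 ∉ l` since `6 ∣ M`, `M ∉ l`;
if `l ∈ R3`: `evr`; otherwise `l ∉ Rm`: `evu`.
-/

set_option autoImplicit false

open scoped NumberField
open IsDedekindDomain NumberField H38.ML H63.MA

noncomputable section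

namespace H38.WM

variable {K : IntermediateField ℚ QBar} [NumberField K] {G : Type} [Group G]

theorem dt1 (ω : K) (hω : IsPrimitiveRoot ω 3) (D : TD G) (Q : DP K QBar) :
    ∃ (M : ℕ) (C₀ : ℝ), M ≠ 0 ∧ 6 ∣ M ∧ ∀ ρ : Gal(QBar/K) →* G, Function.Surjective ρ → FT ρ →
      ∃ (u v : 𝓞 K) (a : QBar), Tr D Q M C₀ ρ u v a := by
  obtain ⟨M, C₀, hM, h6, hex⟩ := kch K ω hω
  refine ⟨M, C₀, hM, h6, fun ρ hρ hft => ?_⟩
  have hft' : FT (D.pi.comp ρ) := by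
    obtain ⟨E, hE, hle⟩ := hft
    refine ⟨E, hE, fun σ hσ => ?_⟩
    rw [MonoidHom.mem_ker, MonoidHom.comp_apply, MonoidHom.mem_ker.1 (hle hσ), map_one]
  obtain ⟨u, v, y, hA, hy, hχ⟩ := hex (D.pi.comp ρ) hft'
  have hkk : ∀ σ : Gal(QBar/K), D.pi (ρ σ) = 1 ↔ kk 3 ω y σ = 0 := by
    intro σ
    have h1 : D.pi (ρ σ) = kc 3 ω QBar y σ := by
      rw [← hχ]
      rfl
    rw [h1]
    unfold kk
    exact toAdd_eq_zero.symm
  have hfix : ∀ σ : Gal(QBar/K), σ ∈ (Fd K u v).fixingSubgroup ↔ D.pi (ρ σ) = 1 := fun σ => by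
    rw [fd_fix K ω hω u v y hy σ, hkk]
  have hdeg : Module.finrank K (Fd K u v) = 3 := by
    refine fd_deg K ω hω u v y hy ?_
    obtain ⟨g, hg⟩ := D.surj (Multiplicative.ofAdd 1)
    obtain ⟨σ, hσ⟩ := hρ g
    refine ⟨σ, fun h0 => ?_⟩
    have h1 := (hkk σ).2 h0
    rw [hσ, hg] at h1
    exact absurd h1 (by decide)
  obtain ⟨a', H⟩ := psa D ρ hft (Fd K u v) hdeg hfix
  have hsq := nsq D ρ hρ (Fd K u v) a' H
  refine ⟨u, v, ((a' : Fd K u v) : QBar), hA, hdeg, fun l hl huv => ?_, a', rfl, H, hsq,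
    fun P l hPl hl hnot => ?_⟩
  · obtain ⟨τ, hτ, hne⟩ := rml K ω hω Q M C₀ h6 u v hA y hy l hl huv
    exact ⟨τ, hτ, fun h0 => hne ((hkk τ).1 h0)⟩
  · by_cases h3 : l ∈ R3 D Q ρ
    · exact evr D ρ (Fd K u v) a' H hsq Q P l hPl h3
    · refine evu D ρ (Fd K u v) a' H Q P l hPl (fun h2 => hl ?_) (fun h0 => hnot ⟨h0, h3⟩)
      obtain ⟨k, hk⟩ := h6
      rw [hk]
      push_cast
      have h4 : ((6 : 𝓞 K) * k) = 2 * (3 * k) := by ring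
      rw [h4]
      exact Ideal.mul_mem_right _ _ h2

end H38.WM
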