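import Pool.Agent.H38.WM.CoA
import Pool.Agent.H38.WM.Dt1
import Pool.Agent.H38.WM.Nrb

/-!
# [H38 WM CoB] the count for a fixed set `T` of primes of the second kind, 80-130 lines. File Pool/Agent/H38/WM/CoB.lean

Proof. `M, C₀` from `dt1`, `C₁` from `nrb`, `C₂` from `coA`. `bad` = the finite set of the primes containing `M` (`Ideal.finite_factors`
of the ideal `(M) ≠ 0`), `C = 8^#bad C₂ (max C₁ 1)^(1+ε)`. Choose `U, V, A` by `dt1`. If `ρ ∈ Rs` and `T'` is a finite set of primes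
of `R3 D Q ρ`, then `T ∪ T'` is disjoint and consists of primes of `Rm Q ρ` (`D.pi (ρ τ) ≠ 1` implies `ρ τ ≠ 1`), so
`∏ T · ∏ T' ≤ Z` by `Cn`. With `T'` the primes `l` with `M ∉ l`, `u v ∈ l` (finite: divisors of `(u v) ≠ 0`; they are in `R3` by `Tr`)
`nrb` gives `|N(U ρ V ρ)| ≤ C₁ Z / ∏ T ≤ R := max(C₁,1) Z / ∏ T`; if `Rs` is not empty then (`T' = ∅`) `∏ T ≤ Z`, so `R ≥ 1`.
Labels: for `ρ ∈ Rs` the predicate `Lb (U ρ) (V ρ) (A ρ) l i` is false for `l ∉ T ∪ bad` (last clause of `Tr`), so it is determined by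
the function `T ∪ bad → Fin 3 → Prop`; there are at most `8^(#T + #bad)` of them. `Rs` is the union over the labels `lam` of the
`Rs_lam`, each has at most `C₂ R^(1+ε)` elements by `coA`. (`Finset.card_eq_sum_card_fiberwise` with the map
`ρ ↦ (fun x : ↥(T ∪ bad) => fun i => decide (Lb ...))` into the finite type `↥(T ∪ bad) → Fin 3 → Bool` of cardinality
`8^#(T ∪ bad)`.)
-/

set_option autoImplicit false

open scoped NumberField
open IsDedekindDomain NumberField H38.ML H63.MA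

noncomputable section

namespace H38.WM

variable {K : IntermediateField ℚ QBar} [NumberField K] {G : Type} [Group G]

private theorem coB_fin (x : 𝓞 K) (hx : x ≠ 0) : {l : Pl K | x ∈ l.asIdeal}.Finite := by
  have h1 : Ideal.span {x} ≠ 0 := by
    rw [Ideal.zero_eq_bot, Ne, Ideal.span_singleton_eq_bot]
    exact hx
  refine (Ideal.finite_factors h1).subset fun l hl => ?_
  change l.asIdeal ∣ Ideal.span {x}
  rw [Ideal.dvd_span_singleton]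
  exact hl

private theorem coB_nm (l : Pl K) : (1 : ℝ) ≤ (nm l : ℝ) := by
  exact_mod_cast (one_lt_nm l).le

private theorem coB_prod (T : Finset (Pl K)) : (1 : ℝ) ≤ ∏ l ∈ T, (nm l : ℝ) := by
  refine Finset.prod_induction _ (fun x : ℝ => 1 ≤ x) (fun a b ha hb => ?_) le_rfl
    fun l _ => coB_nm l
  nlinarith

open scoped Classical in
theorem coB [Finite G] (ω : K) (hω : IsPrimitiveRoot ω 3) (D : TD G) (Q : DP K QBar)
    (core : CoreBound K) (ε : ℝ) (hε : 0 < ε) : ∃ C : ℝ, 0 ≤ C ∧ ∀ Z : ℝ, 1 ≤ Z →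
    ∀ (T : Finset (Pl K)) (Rs : Finset (Gal(QBar/K) →* G)),
      (∀ ρ ∈ Rs, Cn Q Z ρ ∧ ∀ l, l ∈ T ↔ l ∈ Rm Q ρ ∧ l ∉ R3 D Q ρ) →
      (Rs.card : ℝ) ≤ C * 8 ^ T.card * (Z / ∏ l ∈ T, (nm l : ℝ)) ^ (1 + ε) := by
  obtain ⟨M, C₀, hM, h6, hex⟩ := dt1 ω hω D Q
  obtain ⟨C₁, hC₁, hnrb⟩ := nrb K M C₀ hM
  obtain ⟨C₂, hC₂, hcoA⟩ := coA D Q core M C₀ hM h6 ε hε
  have hM0 : (M : 𝓞 K) ≠ 0 := by exact_mod_cast hM
  obtain ⟨bad, hbad⟩ : ∃ bad : Finset (Pl K), ∀ l, l ∈ bad ↔ (M : 𝓞 K) ∈ l.asIdeal :=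
    ⟨(coB_fin (M : 𝓞 K) hM0).toFinset, fun l => Set.Finite.mem_toFinset _⟩
  have hm1 : (1 : ℝ) ≤ max C₁ 1 := le_max_right _ _
  refine ⟨8 ^ bad.card * C₂ * (max C₁ 1) ^ (1 + ε), by positivity, fun Z hZ T Rs h => ?_⟩
  have hT1 := coB_prod T
  have hZT : 0 < Z / ∏ l ∈ T, (nm l : ℝ) := by positivity
  rcases Rs.eq_empty_or_nonempty with rfl | hne
  · rw [Finset.card_empty, Nat.cast_zero]
    positivity
  have hU : ∀ ρ : Gal(QBar/K) →* G, ∃ x : 𝓞 K × 𝓞 K × QBar, Function.Surjective ρ → FT ρ →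
      Tr D Q M C₀ ρ x.1 x.2.1 x.2.2 := by
    intro ρ
    by_cases h1 : Function.Surjective ρ ∧ FT ρ
    · obtain ⟨u, v, a, hh⟩ := hex ρ h1.1 h1.2
      exact ⟨(u, v, a), fun _ _ => hh⟩
    · exact ⟨(0, 0, 0), fun h2 h3 => absurd ⟨h2, h3⟩ h1⟩
  choose W hW using hU
  have hTr : ∀ ρ ∈ Rs, Tr D Q M C₀ ρ (W ρ).1 (W ρ).2.1 (W ρ).2.2 := fun ρ hρ =>
    hW ρ (h ρ hρ).1.1 (h ρ hρ).1.2.1
  have hTZ : ∏ l ∈ T, (nm l : ℝ) ≤ Z := by
    obtain ⟨ρ, hρ⟩ := hne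
    exact (h ρ hρ).1.2.2 T fun l hl => (((h ρ hρ).2 l).1 hl).1
  obtain ⟨R, hR⟩ : ∃ R : ℝ, R = max C₁ 1 * (Z / ∏ l ∈ T, (nm l : ℝ)) := ⟨_, rfl⟩
  have hR1 : 1 ≤ R := by
    have h1 : 1 ≤ Z / ∏ l ∈ T, (nm l : ℝ) := (one_le_div (by linarith)).2 hTZ
    rw [hR]
    nlinarith
  have hN : ∀ ρ ∈ Rs, (|(Algebra.norm ℤ ((W ρ).1 * (W ρ).2.1) : ℤ)| : ℝ) ≤ R := by
    intro ρ hρ
    obtain ⟨hA, hdeg, hram, -⟩ := hTr ρ hρ
    have huv : (W ρ).1 * (W ρ).2.1 ≠ 0 := mul_ne_zero hA.u0 hA.v0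
    obtain ⟨T', hT'⟩ : ∃ T' : Finset (Pl K), ∀ l, l ∈ T' ↔
        (W ρ).1 * (W ρ).2.1 ∈ l.asIdeal ∧ (M : 𝓞 K) ∉ l.asIdeal :=
      ⟨(coB_fin _ huv).toFinset.filter fun l => (M : 𝓞 K) ∉ l.asIdeal, fun l => by
        rw [Finset.mem_filter, Set.Finite.mem_toFinset]
        rfl⟩
    have h1 := hnrb _ _ hA T' fun l hl hl' => (hT' l).2 ⟨hl', hl⟩
    have hR3 : ∀ l ∈ T', l ∈ R3 D Q ρ := fun l hl =>
      hram l ((hT' l).1 hl).2 ((hT' l).1 hl).1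
    have hdisj : Disjoint T T' := by
      rw [Finset.disjoint_left]
      intro l hl hl'
      exact (((h ρ hρ).2 l).1 hl).2 (hR3 l hl')
    have h2 := (h ρ hρ).1.2.2 (T ∪ T') fun l hl => by
      rcases Finset.mem_union.1 hl with h3 | h3
      · exact (((h ρ hρ).2 l).1 h3).1
      · obtain ⟨τ, hτ, hne⟩ := hR3 l h3
        exact ⟨τ, hτ, fun h0 => hne (by rw [h0, map_one])⟩
    rw [Finset.prod_union hdisj] at h2
    have h3 : ∏ l ∈ T', (nm l : ℝ) ≤ Z / ∏ l ∈ T, (nm l : ℝ) := by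
      rw [le_div_iff₀ (by linarith), mul_comm]
      exact h2
    have h4 : (1 : ℝ) ≤ ∏ l ∈ T', (nm l : ℝ) := coB_prod T'
    calc (|(Algebra.norm ℤ ((W ρ).1 * (W ρ).2.1) : ℤ)| : ℝ)
        ≤ C₁ * ∏ l ∈ T', (nm l : ℝ) := h1
      _ ≤ max C₁ 1 * ∏ l ∈ T', (nm l : ℝ) :=
          mul_le_mul_of_nonneg_right (le_max_left _ _) (by linarith)
      _ ≤ max C₁ 1 * (Z / ∏ l ∈ T, (nm l : ℝ)) :=
          mul_le_mul_of_nonneg_left h3 (by linarith)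
      _ = R := hR.symm
  -- labels
  obtain ⟨lb, hlb⟩ : ∃ lb : (Gal(QBar/K) →* G) → (↥(T ∪ bad) → Fin 3 → Prop), ∀ ρ x i,
      lb ρ x i = Lb K (W ρ).1 (W ρ).2.1 (W ρ).2.2 x.1 i := ⟨_, fun _ _ _ => rfl⟩
  have hfib : ∀ lam : ↥(T ∪ bad) → Fin 3 → Prop,
      ((Rs.filter fun ρ => lb ρ = lam).card : ℝ) ≤ C₂ * R ^ (1 + ε) := by
    intro lam
    refine hcoA R hR1 (fun l i => ∃ hl : l ∈ T ∪ bad, lam ⟨l, hl⟩ i) _ (fun ρ => (W ρ).1)
      (fun ρ => (W ρ).2.1) (fun ρ => (W ρ).2.2) fun ρ hρ' => ?_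
    obtain ⟨hρ, hlam⟩ := Finset.mem_filter.1 hρ'
    refine ⟨(h ρ hρ).1.1, hTr ρ hρ, hN ρ hρ, fun l i => ?_⟩
    constructor
    · intro hL
      by_cases hl : l ∈ T ∪ bad
      · refine ⟨hl, ?_⟩
        rw [← hlam, hlb]
        exact hL
      · exfalso
        obtain ⟨a'', P, ha'', hPl, -, hodd⟩ := hL
        obtain ⟨-, -, -, a', ha', -, -, hev⟩ := hTr ρ hρ
        have h1 : a'' = a' := by
          apply Units.ext
          apply Subtype.ext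
          rw [ha'', ha']
        rw [Finset.mem_union, not_or] at hl
        have h2 := hev P l hPl (fun h0 => hl.2 ((hbad l).2 h0))
          (fun h0 => hl.1 (((h ρ hρ).2 l).2 h0))
        rw [h1] at hodd
        exact (Int.not_even_iff_odd.2 hodd) h2
    · rintro ⟨hl, h1⟩
      rw [← hlam, hlb] at h1
      exact h1
  have hcard : (Rs.card : ℝ) ≤ ∑ lam : ↥(T ∪ bad) → Fin 3 → Prop, C₂ * R ^ (1 + ε) := by
    rw [Finset.card_eq_sum_card_fiberwise (f := lb) (t := Finset.univ) fun _ _ =>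
      Finset.mem_coe.2 (Finset.mem_univ _)]
    push_cast
    exact Finset.sum_le_sum fun lam _ => hfib lam
  rw [Finset.sum_const, nsmul_eq_mul, Finset.card_univ] at hcard
  have hcard2 : (Fintype.card (↥(T ∪ bad) → Fin 3 → Prop) : ℝ) ≤ 8 ^ T.card * 8 ^ bad.card := by
    rw [Fintype.card_fun, Fintype.card_fun, Fintype.card_prop, Fintype.card_fin,
      Fintype.card_coe]
    push_cast
    rw [← pow_add]
    exact pow_le_pow_right₀ (by norm_num) (Finset.card_union_le _ _)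
  have hR0 : 0 ≤ C₂ * R ^ (1 + ε) := mul_nonneg hC₂ (Real.rpow_nonneg (by linarith) _)
  calc (Rs.card : ℝ) ≤ Fintype.card (↥(T ∪ bad) → Fin 3 → Prop) * (C₂ * R ^ (1 + ε)) := hcard
    _ ≤ 8 ^ T.card * 8 ^ bad.card * (C₂ * R ^ (1 + ε)) :=
        mul_le_mul_of_nonneg_right hcard2 hR0
    _ = 8 ^ bad.card * C₂ * (max C₁ 1) ^ (1 + ε) * 8 ^ T.card *
        (Z / ∏ l ∈ T, (nm l : ℝ)) ^ (1 + ε) := by
      rw [hR, Real.mul_rpow (by linarith) hZT.le]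
      ring

end H38.WM
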