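import Pool.Agent.H38.ML.Mult
import Pool.Agent.H63.MC.CDef
import Pool.Agent.H63.MA.SUnit

/-!
# WM-DEF: the border between chapters 1, 10 and the core of THEOREM W1 (complete)

THEOREM W1 (think 1027, 1028, helper88): weak Malle for `A_4` in degree 4 over every number field `K` with a primitive cube root of
unity. `rt u v` is a cube root of `u v ^ 2`, `Fd u v = K(rt u v)`, `Adm` are the normalised pairs of step 1, `Dat` are the triples
`(u, v, a)` counted by the core, `CoreBound K` is the core theorem (steps 2-9), the hypothesis of step 10.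
-/

set_option autoImplicit false

open scoped NumberField
open IsDedekindDomain NumberField H38.ML H63.MA

noncomputable section

namespace H38.WM

/-- the normalised absolute value `|N x|^(1/d)` -/
def nrm1 (K : Type) [Field K] [NumberField K] (x : 𝓞 K) : ℝ :=
  (|(Algebra.norm ℤ x : ℤ)| : ℝ) ^ (1 / (Module.finrank ℚ K : ℝ))

variable (K : IntermediateField ℚ QBar) [NumberField K]

/-- a cube root of `u v ^ 2` -/
def rt (u v : 𝓞 K) : QBar :=
  Classical.choose (IsAlgClosed.exists_pow_nat_eq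
    (algebraMap K QBar (algebraMap (𝓞 K) K (u * v ^ 2))) (by norm_num : 0 < 3))

omit [NumberField K] in
theorem rt_pow (u v : 𝓞 K) :
    rt K u v ^ 3 = algebraMap K QBar (algebraMap (𝓞 K) K (u * v ^ 2)) :=
  Classical.choose_spec (IsAlgClosed.exists_pow_nat_eq
    (algebraMap K QBar (algebraMap (𝓞 K) K (u * v ^ 2))) (by norm_num : 0 < 3))

/-- the field `K(rt u v)` -/
def Fd (u v : 𝓞 K) : IntermediateField K QBar := IntermediateField.adjoin K {rt K u v}

instance (u v : 𝓞 K) : FiniteDimensional K (Fd K u v) := by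
  unfold Fd
  refine IntermediateField.adjoin.finiteDimensional ?_
  refine ⟨Polynomial.X ^ 3 - Polynomial.C (algebraMap (𝓞 K) K (u * v ^ 2)),
    Polynomial.monic_X_pow_sub_C _ (by norm_num), ?_⟩
  simp [rt_pow]

instance (u v : 𝓞 K) : NumberField (Fd K u v) := NumberField.of_module_finite K (Fd K u v)

/-- the normalised pairs: for primes `l` not dividing `M`, `l ^ 2` does not divide `u v`; at the primes dividing `M` the exponents are
less than `M`; all absolute values of `u` (of `v`) are of the same size up to the factor `C₀` -/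
structure Adm (M : ℕ) (C₀ : ℝ) (u v : 𝓞 K) : Prop where
  u0 : u ≠ 0
  v0 : v ≠ 0
  good : ∀ l : Pl K, (M : 𝓞 K) ∉ l.asIdeal → u * v ∉ l.asIdeal ^ 2
  badu : ∀ l : Pl K, (M : 𝓞 K) ∈ l.asIdeal → u ∉ l.asIdeal ^ M
  badv : ∀ l : Pl K, (M : 𝓞 K) ∈ l.asIdeal → v ∉ l.asIdeal ^ M
  upu : ∀ w : InfinitePlace K, w (u : K) ≤ C₀ * nrm1 K u
  lou : ∀ w : InfinitePlace K, nrm1 K u ≤ C₀ * w (u : K)
  upv : ∀ w : InfinitePlace K, w (v : K) ≤ C₀ * nrm1 K v
  lov : ∀ w : InfinitePlace K, nrm1 K v ≤ C₀ * w (v : K)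

/-- `a` is an element of `Sel_F` (before taking classes modulo squares), `F` a finite extension of `K` -/
structure Sel (F : IntermediateField K QBar) [NumberField F] (a : Fˣ) : Prop where
  nsq : IsSquare (Algebra.norm K (a : F))
  even : ∀ P : Pl F, Even (ord P a)

/-- the triples counted by the core theorem -/
def Dat (M : ℕ) (C₀ R : ℝ) (u v : 𝓞 K) (a : QBar) : Prop :=
  Adm K M C₀ u v ∧ (|(Algebra.norm ℤ (u * v) : ℤ)| : ℝ) ≤ R ∧ Module.finrank K (Fd K u v) = 3 ∧
    ∃ a' : (Fd K u v)ˣ, ((a' : Fd K u v) : QBar) = a ∧ Sel K (Fd K u v) a'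

/-- THE CORE THEOREM (steps 2-9): the triples up to squares are at most `C R^(1+ε)` in number -/
def CoreBound : Prop :=
  ∀ (M : ℕ) (C₀ ε : ℝ), M ≠ 0 → 6 ∣ M → 0 < ε → ∃ C : ℝ, ∀ R : ℝ, 1 ≤ R →
    ∀ S : Finset (𝓞 K × 𝓞 K × QBar),
      (∀ x ∈ S, Dat K M C₀ R x.1 x.2.1 x.2.2) →
      (∀ u v a b, (u, v, a) ∈ S → (u, v, b) ∈ S → (∃ c ∈ Fd K u v, a = b * c ^ 2) → a = b) →
      (S.card : ℝ) ≤ C * R ^ (1 + ε)

/-- `G` is an extension of a cyclic group of order 3 by an elementary abelian 2-group on which the three conjugates of the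
character `psi` multiply to 1 and separate the elements (`A_4`, `SL_2(3) / ±1`, ...) -/
structure TD (G : Type) [Group G] where
  pi : G →* Multiplicative (ZMod 3)
  psi : G → ZMod 2
  surj : Function.Surjective pi
  add : ∀ x y : G, pi x = 1 → pi y = 1 → psi (x * y) = psi x + psi y
  tr : ∀ g x : G, pi g ≠ 1 → pi x = 1 →
    psi x + psi (g * x * g⁻¹) + psi (g ^ 2 * x * (g ^ 2)⁻¹) = 0
  sep : ∀ x : G, pi x = 1 → (∀ g : G, psi (g * x * g⁻¹) = 0) → x = 1

variable {K} {G : Type} [Group G]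

/-- the primes at which `ρ` is ramified -/
def Rm (Q : DP K QBar) (ρ : Gal(QBar/K) →* G) : Set (Pl K) :=
  {l | ∃ τ ∈ (Q.P l).inertia Gal(QBar/K), ρ τ ≠ 1}

/-- the primes at which the cubic field of `ρ` is ramified -/
def R3 (D : TD G) (Q : DP K QBar) (ρ : Gal(QBar/K) →* G) : Set (Pl K) :=
  {l | ∃ τ ∈ (Q.P l).inertia Gal(QBar/K), D.pi (ρ τ) ≠ 1}

/-- the `ρ` counted in step 10: surjective, of finite type, product of the norms of the ramified primes at most `Z` -/
def Cn (Q : DP K QBar) (Z : ℝ) (ρ : Gal(QBar/K) →* G) : Prop :=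
  Function.Surjective ρ ∧ FT ρ ∧
    ∀ S : Finset (Pl K), (∀ l ∈ S, l ∈ Rm Q ρ) → ∏ l ∈ S, (nm l : ℝ) ≤ Z

/-- `F` is the cubic field of `ρ` and `a` the Kummer class of `psi` on `Gal(QBar/F)` -/
structure KD (D : TD G) (ρ : Gal(QBar/K) →* G) (F : IntermediateField K QBar) (a : Fˣ) : Prop where
  deg : Module.finrank K F = 3
  fix : ∀ σ : Gal(QBar/K), σ ∈ F.fixingSubgroup ↔ D.pi (ρ σ) = 1
  kum : ∀ σ : Gal(QBar/F), kk 2 (-1 : F) a σ = D.psi (ρ (σ.restrictScalars K))

end H38.WM
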