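import Pool.Agent.H38.WM.Gen

/-!
# WM-DEF2: stage 2 (base fields `K` without a primitive cube root of unity): the border with the core (complete)

`M` is the field `K(ω)` (as a subfield of `QBar` over `K`), `τ` the automorphism of `M/K` with `τ ω = ω^2`. `rt2 τ u` is a cube root of
`u (τ u)^2`; `Cf τ F u`: `F/K` is cyclic cubic and `F M = M(rt2 τ u)`; `Fl2 τ u` is this field `F` (it is unique: [WM CfU]). `AdmG` is
`Adm` of stage 1 for an arbitrary number field. `CoreBound2` is the core theorem of stage 2.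
-/

set_option autoImplicit false

open scoped NumberField
open IsDedekindDomain NumberField H38.ML H63.MA

noncomputable section

namespace H38.WM

/-- normalised pairs over any number field, see `Adm` -/
structure AdmG (M : Type) [Field M] [NumberField M] (m : ℕ) (C₀ : ℝ) (u v : 𝓞 M) : Prop where
  u0 : u ≠ 0
  v0 : v ≠ 0
  good : ∀ l : Pl M, (m : 𝓞 M) ∉ l.asIdeal → u * v ∉ l.asIdeal ^ 2
  badu : ∀ l : Pl M, (m : 𝓞 M) ∈ l.asIdeal → u ∉ l.asIdeal ^ m
  badv : ∀ l : Pl M, (m : 𝓞 M) ∈ l.asIdeal → v ∉ l.asIdeal ^ m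
  upu : ∀ w : InfinitePlace M, w (u : M) ≤ C₀ * nrm1 M u
  lou : ∀ w : InfinitePlace M, nrm1 M u ≤ C₀ * w (u : M)
  upv : ∀ w : InfinitePlace M, w (v : M) ≤ C₀ * nrm1 M v
  lov : ∀ w : InfinitePlace M, nrm1 M v ≤ C₀ * w (v : M)

variable {K : IntermediateField ℚ QBar} [NumberField K] {M : IntermediateField K QBar}
  [NumberField M]

/-- a cube root of `u (τ u) ^ 2` -/
def rt2 (τ : Gal(M/K)) (u : 𝓞 M) : QBar :=
  Classical.choose (IsAlgClosed.exists_pow_nat_eq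
    (algebraMap M QBar (algebraMap (𝓞 M) M (u * (τ • u) ^ 2))) (by norm_num : 0 < 3))

omit [NumberField K] [NumberField M] in
theorem rt2_pow (τ : Gal(M/K)) (u : 𝓞 M) :
    rt2 τ u ^ 3 = algebraMap M QBar (algebraMap (𝓞 M) M (u * (τ • u) ^ 2)) :=
  Classical.choose_spec (IsAlgClosed.exists_pow_nat_eq
    (algebraMap M QBar (algebraMap (𝓞 M) M (u * (τ • u) ^ 2))) (by norm_num : 0 < 3))

/-- `F` is a cyclic cubic field over `K` and `F M = M(rt2 τ u)` -/
structure Cf (τ : Gal(M/K)) (F : IntermediateField K QBar) (u : 𝓞 M) : Prop where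
  deg : Module.finrank K F = 3
  gal : IsGalois K F
  fix : ∀ σ : Gal(QBar/M),
    (σ.restrictScalars K : Gal(QBar/K)) ∈ F.fixingSubgroup ↔ σ (rt2 τ u) = rt2 τ u

open scoped Classical in
/-- the cubic field of `u` -/
def Fl2 (τ : Gal(M/K)) (u : 𝓞 M) : IntermediateField K QBar :=
  if h : ∃ F : IntermediateField K QBar, Cf τ F u then h.choose else ⊥

instance fl2_fin (τ : Gal(M/K)) (u : 𝓞 M) : FiniteDimensional K (Fl2 τ u) := by
  by_cases h : ∃ F : IntermediateField K QBar, Cf τ F u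
  · have h1 : Fl2 τ u = h.choose := by
      unfold Fl2
      rw [dif_pos h]
    rw [h1]
    exact Module.finite_of_finrank_pos (by rw [h.choose_spec.deg]; norm_num)
  · have h1 : Fl2 τ u = ⊥ := by
      unfold Fl2
      rw [dif_neg h]
    rw [h1]
    infer_instance

instance fl2_nf (τ : Gal(M/K)) (u : 𝓞 M) : NumberField (Fl2 τ u) :=
  NumberField.of_module_finite K (Fl2 τ u)

/-- the family of cubic fields of stage 2 -/
def Fam2 (τ : Gal(M/K)) (m : ℕ) (C₀ : ℝ) : Famc K where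
  ι := 𝓞 M
  Fl := Fl2 τ
  nf := fun u => fl2_nf τ u
  sz := fun u => (|(Algebra.norm ℤ u : ℤ)| : ℝ)
  Ad := fun u => AdmG M m C₀ u (τ • u) ∧ Cf τ (Fl2 τ u) u

/-- THE CORE THEOREM of stage 2: the pairs `(u, a)` up to squares are at most `C R^(1+ε)` in number -/
def CoreBound2 (τ : Gal(M/K)) : Prop :=
  ∀ (m : ℕ) (C₀ ε : ℝ), m ≠ 0 → 6 ∣ m → 0 < ε → ∃ C : ℝ, ∀ R : ℝ, 1 ≤ R →
    ∀ S : Finset (𝓞 M × QBar),
      (∀ x ∈ S, AdmG M m C₀ x.1 (τ • x.1) ∧ Cf τ (Fl2 τ x.1) x.1 ∧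
        (|(Algebra.norm ℤ x.1 : ℤ)| : ℝ) ≤ R ∧
        ∃ a' : (Fl2 τ x.1)ˣ, ((a' : Fl2 τ x.1) : QBar) = x.2 ∧ Sel K (Fl2 τ x.1) a') →
      (∀ u a b, (u, a) ∈ S → (u, b) ∈ S → (∃ c ∈ Fl2 τ u, a = b * c ^ 2) → a = b) →
      (S.card : ℝ) ≤ C * R ^ (1 + ε)

/-- the standing hypothesis of stage 2: `M = K(ω)`, `τ ω = ω ^ 2` -/
structure Om (τ : Gal(M/K)) (ω : M) : Prop where
  prim : IsPrimitiveRoot ω 3
  top : IntermediateField.adjoin K {(ω : QBar)} = M
  act : τ ω = ω ^ 2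

end H38.WM
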