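import Pool.Agent.H38.WM.Lab

/-!
# WM-DFC: definitions for the counting part of step 10 (complete)
-/

set_option autoImplicit false

open scoped NumberField
open IsDedekindDomain NumberField H38.ML H63.MA
open scoped Classical

noncomputable section

namespace H38.WM

variable (K : IntermediateField ℚ QBar) [NumberField K]

/-- numbers `0, 1, 2` for the primes of `Fd u v` over every prime of `K` -/
def elb (u v : 𝓞 K) : Pl (Fd K u v) → Fin 3 :=
  if h : Module.finrank K (Fd K u v) = 3 then (lab (Fd K u v) h).choose else fun _ => 0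

/-- the label of `(u, v, a)`: the numbers of the primes over `l` at which `a` has odd order -/
def Lb (u v : 𝓞 K) (a : QBar) (l : Pl K) (i : Fin 3) : Prop :=
  ∃ (a' : (Fd K u v)ˣ) (P : Pl (Fd K u v)), ((a' : Fd K u v) : QBar) = a ∧ Over P l ∧
    elb K u v P = i ∧ Odd (ord P a')

variable {K} {G : Type} [Group G]

/-- everything about the triple `(u, v, a)` of a homomorphism `ρ`; `T` is the set of the primes at which `ρ` is ramified and its cubic
field is not -/
def Tr (D : TD G) (Q : DP K QBar) (M : ℕ) (C₀ : ℝ) (ρ : Gal(QBar/K) →* G) (u v : 𝓞 K)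
    (a : QBar) : Prop :=
  Adm K M C₀ u v ∧ Module.finrank K (Fd K u v) = 3 ∧
    (∀ l : Pl K, (M : 𝓞 K) ∉ l.asIdeal → u * v ∈ l.asIdeal → l ∈ R3 D Q ρ) ∧
    ∃ a' : (Fd K u v)ˣ, ((a' : Fd K u v) : QBar) = a ∧ KD D ρ (Fd K u v) a' ∧
      IsSquare (Algebra.norm K (a' : Fd K u v)) ∧
      ∀ (P : Pl (Fd K u v)) (l : Pl K), Over P l → (M : 𝓞 K) ∉ l.asIdeal →
        ¬ (l ∈ Rm Q ρ ∧ l ∉ R3 D Q ρ) → Even (ord P a')

end H38.WM
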