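import Pool.Agent.H38.WM.Def2

/-!
# [H38 WM NrG] `|N u|` is bounded by the product of the norms of the good primes dividing `u`, 50-80 lines. File Pool/Agent/H38/WM/NrG.lean

Same proof as Nrb.lean (please look whether it is already filled on main, and copy it) for one element `u` of any number field `M`:
the ideal `(u)` divides `(∏ l ∈ T, l) (∏ l ∈ S₀, l^m)`, `S₀` = the primes containing `m`: at a prime `l` with `m ∉ l` the exponent of `u`
is at most 1 (`u v ∉ l^2`, so `u ∉ l^2`), and `l ∈ T` if it is 1; at `l ∋ m` it is `< m`.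
-/

set_option autoImplicit false

open scoped NumberField
open IsDedekindDomain NumberField H38.ML H63.MA

noncomputable section

namespace H38.WM

section

variable (M : Type) [Field M] [NumberField M]

private theorem pow_dvd_iff_cnt [DecidableEq (Ideal (𝓞 M))]
    (l : Pl M) (n : ℕ) (I : Ideal (𝓞 M)) (hI : I ≠ 0) :
    l.asIdeal ^ n ∣ I ↔ n ≤ (UniqueFactorizationMonoid.normalizedFactors I).count l.asIdeal := by
  have hirr : Irreducible l.asIdeal := l.prime.irreducible
  rw [pow_dvd_iff_le_emultiplicity,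
    UniqueFactorizationMonoid.le_emultiplicity_iff_replicate_le_normalizedFactors hirr hI,
    normalize_eq, Multiset.le_count_iff_replicate_le]

private theorem dvd_of_pow (I J : Ideal (𝓞 M)) (hI : I ≠ 0) (hJ : J ≠ 0)
    (h : ∀ (l : Pl M) (n : ℕ), l.asIdeal ^ n ∣ I → l.asIdeal ^ n ∣ J) : I ∣ J := by
  classical
  rw [UniqueFactorizationMonoid.dvd_iff_normalizedFactors_le_normalizedFactors hI hJ,
    Multiset.le_iff_count]
  intro P
  by_cases hP : P ∈ UniqueFactorizationMonoid.normalizedFactors I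
  · have h1 := UniqueFactorizationMonoid.prime_of_normalized_factor P hP
    let l : Pl M := ⟨P, Ideal.isPrime_of_prime h1, h1.ne_zero⟩
    exact (pow_dvd_iff_cnt M l _ J hJ).1 (h l _ ((pow_dvd_iff_cnt M l _ I hI).2 le_rfl))
  · rw [Multiset.count_eq_zero_of_notMem hP]
    exact Nat.zero_le _

end

theorem nrG (M : Type) [Field M] [NumberField M] (m : ℕ) (C₀ : ℝ) (hm : m ≠ 0) :
    ∃ C : ℝ, 0 < C ∧ ∀ u v : 𝓞 M, AdmG M m C₀ u v →
      ∀ T : Finset (Pl M), (∀ l : Pl M, (m : 𝓞 M) ∉ l.asIdeal → u ∈ l.asIdeal → l ∈ T) →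
        (|(Algebra.norm ℤ u : ℤ)| : ℝ) ≤ C * ∏ l ∈ T, (nm l : ℝ) := by
  classical
  have hM0 : (Ideal.span {(m : 𝓞 M)}) ≠ 0 := by
    rw [Ne, Ideal.zero_eq_bot, Ideal.span_singleton_eq_bot]
    exact Nat.cast_ne_zero.2 hm
  have hfin := Ideal.finite_factors hM0
  set S₀ : Finset (Pl M) := hfin.toFinset with hS₀
  have hS₀m : ∀ l : Pl M, l ∈ S₀ ↔ (m : 𝓞 M) ∈ l.asIdeal := by
    intro l
    rw [hS₀, Set.Finite.mem_toFinset]
    exact Ideal.dvd_span_singleton
  have hnm : ∀ l : Pl M, nm l ≠ 0 := fun l h =>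
    l.ne_bot (Ideal.absNorm_eq_zero_iff.1 h)
  refine ⟨∏ l ∈ S₀, (nm l : ℝ) ^ m, ?_, ?_⟩
  · exact Finset.prod_pos fun l _ => pow_pos (Nat.cast_pos.2 (Nat.pos_of_ne_zero (hnm l))) _
  · intro u v hadm T hT
    have hI : Ideal.span {u} ≠ 0 := by
      rw [Ne, Ideal.zero_eq_bot, Ideal.span_singleton_eq_bot]
      exact hadm.u0
    set J : Ideal (𝓞 M) := (∏ l ∈ S₀, l.asIdeal ^ m) * ∏ l ∈ T, l.asIdeal with hJ
    have hJ0 : J ≠ 0 := by
      rw [hJ]
      refine mul_ne_zero (Finset.prod_ne_zero_iff.2 fun l _ => pow_ne_zero _ l.ne_bot)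
        (Finset.prod_ne_zero_iff.2 fun l _ => l.ne_bot)
    have hdvd : Ideal.span {u} ∣ J := by
      refine dvd_of_pow M _ _ hI hJ0 fun l n hn => ?_
      by_cases hl : (m : 𝓞 M) ∈ l.asIdeal
      · have h1 : n ≤ m := by
          by_contra hcon
          push Not at hcon
          exact hadm.badu l hl (Ideal.dvd_span_singleton.1 ((pow_dvd_pow _ hcon.le).trans hn))
        exact ((pow_dvd_pow _ h1).trans
          (Finset.dvd_prod_of_mem (fun l : Pl M => l.asIdeal ^ m) ((hS₀m l).2 hl))).trans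
          (Dvd.intro _ rfl)
      · have h2 : n < 2 := by
          by_contra hcon
          push Not at hcon
          exact hadm.good l hl (Ideal.mul_mem_right _ _
            (Ideal.dvd_span_singleton.1 ((pow_dvd_pow _ hcon).trans hn)))
        rcases Nat.lt_or_ge n 1 with h3 | h3
        · rw [Nat.lt_one_iff.1 h3, pow_zero]
          exact one_dvd _
        · have h4 : n = 1 := by omega
          rw [h4, pow_one] at hn ⊢
          exact (Finset.dvd_prod_of_mem (fun l : Pl M => l.asIdeal)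
            (hT l hl (Ideal.dvd_span_singleton.1 hn))).trans (Dvd.intro_left _ rfl)
    have h5 := map_dvd Ideal.absNorm hdvd
    rw [Ideal.absNorm_span_singleton, hJ, map_mul Ideal.absNorm, map_prod, map_prod] at h5
    have h6 : (∏ l ∈ S₀, Ideal.absNorm (l.asIdeal ^ m)) * ∏ l ∈ T, Ideal.absNorm l.asIdeal
        ≠ 0 := by
      refine mul_ne_zero (Finset.prod_ne_zero_iff.2 fun l _ => ?_)
        (Finset.prod_ne_zero_iff.2 fun l _ => hnm l)
      rw [map_pow]
      exact pow_ne_zero _ (hnm l)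
    have h7 := Nat.le_of_dvd (Nat.pos_of_ne_zero h6) h5
    have h8 : (((Algebra.norm ℤ u).natAbs : ℕ) : ℝ)
        ≤ (∏ l ∈ S₀, (nm l : ℝ) ^ m) * ∏ l ∈ T, (nm l : ℝ) := by
      refine (Nat.cast_le.2 h7).trans (le_of_eq ?_)
      rw [Nat.cast_mul, Nat.cast_prod, Nat.cast_prod]
      congr 1
      refine Finset.prod_congr rfl fun l _ => ?_
      rw [map_pow, Nat.cast_pow]
      rfl
    rw [Nat.cast_natAbs, Int.cast_abs] at h8
    exact h8

end H38.WM
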