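import Pool.Agent.H38.WM.Def2
import Pool.Agent.H63.BU.UOrd

/-!
# [H38 WM RmG] good primes of `M` dividing `u` lie over primes of `K` which are ramified in the cubic field, 60-90 lines. File Pool/Agent/H38/WM/RmG.lean

Proof. As in Rml.lean over the field `M`: `¬ Above 3 l`; `π : Mˣ` with `ord l π = 1`; let `𝔓` be a prime of `𝓞 QBar` over `l`
(`gloc_over M QBar`); `H63.BU.uord_at QBar` over `M` gives `L : LD 3 ω QBar l π` with `L.P = 𝔓`, `t := L.t ∈ 𝔓.inertia Gal(QBar/M)`, and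
`kk 3 ω y t = ord l y` in `ZMod 3` (`ld_kk_t`), `ord l y = ord l u + 2 ord l (τ u) = 1`: `u ∈ l`, `u (τ u) ∉ l^2`, so `ord l u = 1`,
`ord l (τ u) = 0`. So `χ (t.restrictScalars K) ≠ 1` (`kk` is `toAdd` of `kc`), and `t.restrictScalars K ∈ 𝔓.inertia Gal(QBar/K)`. `𝔓` and `Q.P p`
both lie over `p`, so `𝔓 = g • Q.P p` for a `g : Gal(QBar/K)` (see the proof of `evu` in EvU.lean for this step), `g⁻¹ t g` is in the inertia
group of `Q.P p` and has the same value under `χ` (commutative target).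
-/

set_option autoImplicit false

open scoped NumberField Pointwise
open IsDedekindDomain NumberField H38.ML H63.MA

noncomputable section

namespace H38.WM

private theorem rmG_mem_pow {K : Type} [Field K] [NumberField K] (l : Pl K) (z : 𝓞 K) (x : Kˣ)
    (hx : (x : K) = (z : K)) (n : ℕ) : z ∈ l.asIdeal ^ n ↔ (n : ℤ) ≤ ord l x := by
  have h1 := val_eq l x
  have h2 : l.valuation K (z : K) = l.intValuation z := HeightOneSpectrum.valuation_of_algebraMap l z
  rw [hx, h2] at h1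
  rw [← HeightOneSpectrum.intValuation_le_pow_iff_mem, h1, WithZero.exp_le_exp]
  omega

private theorem rmG_trans {K : Type} [Field K] [NumberField K] {Ω : Type} [Field Ω] [Algebra K Ω]
    [IsAlgClosure K Ω] (P P' : Ideal (𝓞 Ω)) (hP : P.IsPrime) (hP' : P'.IsPrime)
    (h : P.under (𝓞 K) = P'.under (𝓞 K)) : ∃ g : Gal(Ω/K), P' = g • P := by
  have : IsGalois K Ω := IsAlgClosure.isGalois K Ω
  let _ : TopologicalSpace (𝓞 Ω) := ⊥
  have : DiscreteTopology (𝓞 Ω) := ⟨rfl⟩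
  have : ContinuousSMul Gal(Ω/K) (𝓞 Ω) := by
    rw [continuousSMul_iff_stabilizer_isOpen]
    intro x
    have h1 := stabilizer_isOpen_of_isIntegral (K := K) (L := Ω) (x : Ω)
    have h2 : (MulAction.stabilizer Gal(Ω/K) x : Set Gal(Ω/K)) =
        (MulAction.stabilizer Gal(Ω/K) (x : Ω) : Set Gal(Ω/K)) := by
      ext g
      simp only [SetLike.mem_coe, MulAction.mem_stabilizer_iff]
      constructor
      · intro hg
        exact congrArg (fun z : 𝓞 Ω => (z : Ω)) hg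
      · intro hg
        exact NumberField.RingOfIntegers.ext hg
    rw [h2]
    exact h1
  have : Algebra.IsInvariant (𝓞 K) (𝓞 Ω) Gal(Ω/K) := ⟨fun b hb => by
    have h1 : (b : Ω) ∈ (⊥ : IntermediateField K Ω) := by
      rw [← InfiniteGalois.fixedField_bot (k := K) (K := Ω), IntermediateField.mem_fixedField_iff]
      intro g _
      exact congrArg (fun z : 𝓞 Ω => (z : Ω)) (hb g)
    obtain ⟨a, ha⟩ := IntermediateField.mem_bot.1 h1
    have h2 : IsIntegral ℤ a := by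
      have h3 : IsIntegral ℤ (algebraMap K Ω a) := by
        rw [ha]
        exact b.2
      exact (isIntegral_algebraMap_iff (algebraMap K Ω).injective).1 h3
    refine ⟨⟨a, h2⟩, NumberField.RingOfIntegers.ext ?_⟩
    exact ha⟩
  exact Algebra.IsInvariant.exists_smul_of_under_eq_of_profinite (A := 𝓞 K) (G := Gal(Ω/K)) P P' h

private theorem rmG_inr {K : Type} [Field K] [NumberField K] {Ω : Type} [Field Ω] [Algebra K Ω]
    (P : Ideal (𝓞 Ω)) (g τ : Gal(Ω/K)) (h : τ ∈ (g • P).inertia Gal(Ω/K)) :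
    g⁻¹ * τ * g ∈ P.inertia Gal(Ω/K) := by
  intro x
  have h1 := h (g • x)
  have h2 : (g⁻¹ * τ * g) • x - x = g⁻¹ • (τ • (g • x) - g • x) := by
    rw [smul_sub, inv_smul_smul, mul_smul, mul_smul]
  change (g⁻¹ * τ * g) • x - x ∈ P
  rw [h2]
  have h3 : τ • (g • x) - g • x ∈ g • P := h1
  rwa [Ideal.mem_pointwise_smul_iff_inv_smul_mem] at h3

variable {K : IntermediateField ℚ QBar} [NumberField K] {M : IntermediateField K QBar}
  [NumberField M]

theorem rmG (τ : Gal(M/K)) (ω : M) (H : Om τ ω) (Q : DP K QBar) (m : ℕ) (C₀ : ℝ) (h6 : 6 ∣ m)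
    (χ : Gal(QBar/K) →* Multiplicative (ZMod 3)) (u : 𝓞 M) (y : Mˣ)
    (hA : AdmG M m C₀ u (τ • u)) (hy : (y : M) = (u : M) * ((τ • u : 𝓞 M) : M) ^ 2)
    (hχ : ∀ σ : Gal(QBar/M), χ (σ.restrictScalars K) = kc 3 ω QBar y σ)
    (l : Pl M) (p : Pl K) (hlp : Over l p) (hl : (m : 𝓞 M) ∉ l.asIdeal) (hu : u ∈ l.asIdeal) :
    ∃ t ∈ (Q.P p).inertia Gal(QBar/K), χ t ≠ 1 := by
  have hcl : IsAlgClosure M QBar :=
    { isAlgClosed := inferInstance
      isAlgebraic := by
        have h0 : Algebra.IsAlgebraic K QBar := inferInstance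
        exact Algebra.IsAlgebraic.tower_top (K := K) M }
  have h3 : ¬ Above 3 l := by
    intro h
    obtain ⟨c, hc⟩ := h6
    apply hl
    have h1 : (m : 𝓞 M) = ((3 : ℕ) : 𝓞 M) * ((2 * c : ℕ) : 𝓞 M) := by
      rw [hc]
      push_cast
      ring
    rw [h1]
    exact l.asIdeal.mul_mem_right _ h
  obtain ⟨B, hB, hBl⟩ := gloc_over M QBar l.asIdeal l.isPrime
  have hBp : B.under (𝓞 K) = p.asIdeal := by
    rw [← hlp, ← hBl]
    ext x
    exact Iff.rfl
  obtain ⟨g, hg⟩ := rmG_trans (K := K) (Q.P p) B (Q.prime p) hB ((Q.under p).trans hBp.symm)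
  obtain ⟨π, hπ⟩ := exists_unif l
  obtain ⟨L, hL⟩ := H63.BU.uord_at QBar Nat.prime_three H.prim h3 hπ B hB hBl
  obtain ⟨v, hv⟩ : ∃ v : 𝓞 M, v = τ • u := ⟨_, rfl⟩
  rw [← hv] at hA hy
  have hu0 : (u : M) ≠ 0 := fun h =>
    hA.u0 (NumberField.RingOfIntegers.ext (h.trans (map_zero (algebraMap (𝓞 M) M)).symm))
  have hv0 : (v : M) ≠ 0 := fun h =>
    hA.v0 (NumberField.RingOfIntegers.ext (h.trans (map_zero (algebraMap (𝓞 M) M)).symm))
  obtain ⟨x, hx⟩ : ∃ x : Mˣ, (x : M) = (u : M) := ⟨Units.mk0 _ hu0, rfl⟩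
  obtain ⟨z, hz⟩ : ∃ z : Mˣ, (z : M) = (v : M) := ⟨Units.mk0 _ hv0, rfl⟩
  have hyx : y = x * z ^ 2 := by
    apply Units.ext
    rw [hy, Units.val_mul, Units.val_pow_eq_pow_val, hx, hz]
  have a1 : 1 ≤ ord l x := by
    have := (rmG_mem_pow l u x hx 1).1 (by rw [pow_one]; exact hu)
    exact_mod_cast this
  have a2 : ¬ 2 ≤ ord l (x * z) := by
    intro h
    exact hA.good l hl ((rmG_mem_pow l (u * v) (x * z)
      (by rw [Units.val_mul, hx, hz]; exact (map_mul (algebraMap (𝓞 M) M) u v).symm) 2).2 (by exact_mod_cast h))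
  have a4 : 0 ≤ ord l z := by
    have := (rmG_mem_pow l v z hz 0).1 (by rw [pow_zero, Ideal.one_eq_top]; trivial)
    exact_mod_cast this
  rw [ord_mul] at a2
  have a5 : ord l y = 1 := by
    rw [hyx, ord_mul, ord_pow]
    have b1 : ord l x = 1 := by omega
    have b2 : ord l z = 0 := by omega
    rw [b1, b2]
    norm_num
  have a6 : kk 3 ω y L.t ≠ 0 := by
    rw [ld_kk_t Nat.prime_three H.prim h3 hπ L y, a5]
    decide
  have a7 : χ (L.t.restrictScalars K) ≠ 1 := by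
    intro h
    rw [hχ] at h
    exact a6 (congrArg Multiplicative.toAdd h)
  have a8 : L.t.restrictScalars K ∈ B.inertia Gal(QBar/K) := by
    intro x
    have h8 := L.ht
    rw [hL] at h8
    exact h8 x
  rw [hg] at a8
  refine ⟨_, rmG_inr (Q.P p) g _ a8, ?_⟩
  intro h
  apply a7
  rw [map_mul, map_mul, map_inv] at h
  have h4 : χ (L.t.restrictScalars K) =
    χ g * ((χ g)⁻¹ * χ (L.t.restrictScalars K) * χ g) * (χ g)⁻¹ := by group
  rw [h4, h, mul_one, mul_inv_cancel]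

end H38.WM
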