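import Pool.Agent.H38.WM.OrT
import Pool.Agent.H38.WM.Om2

/-!
# [H38 WM Spl] good primes dividing `u` have the norm of the prime below, and lie over different primes, 60-90 lines. File Pool/Agent/H38/WM/Spl.lean

Proof. `T` from `orT` (the action of `τ` on the primes of `M`). `u ∈ l`, `u (τ u) ∉ l^2`, so `τ • u ∉ l`, that is `u ∉ T l`
(`orT`, second clause: `u ∈ T l ↔ τ • u ∈ l`), so `T l ≠ l`. `spl_nm`: both `l` and `T l` divide `p 𝓞 M` and are coprime, so
`l (T l)` divides `p 𝓞 M`; norms: `nm l * nm (T l) ≤ N(p 𝓞 M) = nm p ^ [M:K] ≤ nm p ^ 2` (`Ideal.absNorm_algebraMap`-type lemma /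
`Ideal.absNorm_relNorm`, `[M:K] ≤ 2` because `M = K(ω)`, `ω^2 + ω + 1 = 0`), and `nm (T l) = nm l`. `spl_inj`: all primes of `M` over `p`
are `l` and `T l` (two different primes over `p` and `[M:K] ≤ 2`: `Ideal.sum_ramification_inertia`; or: `Gal(M/K) = {1, τ}` acts
transitively on the primes over `p`, `M/K` is Galois); so if `l'` is over `p`, `u ∈ l'`, then `l' ≠ T l` (as `u ∉ T l`), `l' = l`.
-/

set_option autoImplicit false

open scoped NumberField
open IsDedekindDomain NumberField H38.ML H63.MA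

noncomputable section

namespace H38.WM

variable {K : IntermediateField ℚ QBar} [NumberField K] {M : IntermediateField K QBar}
  [NumberField M]

private theorem lo_of {l : Pl M} {p : Pl K} (h : Over l p) :
    l.asIdeal.LiesOver p.asIdeal := ⟨h.symm⟩

private theorem nm_eq {l : Pl M} {p : Pl K} (h : Over l p) :
    nm l = nm p ^ l.asIdeal.inertiaDeg (𝓞 K) := by
  have := lo_of h
  exact (Ideal.absNorm_pow_inertiaDeg p.asIdeal l.asIdeal).symm

/-- the fundamental inequality for a set of primes over `p` -/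
private theorem sum_le (p : Pl K) (S : Finset (Pl M)) (hS : ∀ l ∈ S, Over l p) :
    ∑ l ∈ S, l.asIdeal.inertiaDeg (𝓞 K) ≤ Module.finrank K M := by
  classical
  rw [← Ideal.sum_ramification_inertia (R := 𝓞 K) (𝓞 M) K M p.ne_bot]
  have hinj : Set.InjOn (fun l : Pl M => l.asIdeal) S := fun _ _ _ _ h => HeightOneSpectrum.ext h
  have h1 : ∑ l ∈ S, l.asIdeal.inertiaDeg (𝓞 K) =
      ∑ P ∈ S.image (fun l : Pl M => l.asIdeal), P.inertiaDeg (𝓞 K) :=
    (Finset.sum_image (f := fun P : Ideal (𝓞 M) => P.inertiaDeg (𝓞 K)) hinj).symm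
  rw [h1]
  have hsub : S.image (fun l : Pl M => l.asIdeal) ⊆
      IsDedekindDomain.primesOverFinset p.asIdeal (𝓞 M) := by
    intro P hP
    obtain ⟨l, hl, rfl⟩ := Finset.mem_image.1 hP
    exact (IsDedekindDomain.mem_primesOverFinset_iff p.ne_bot _).2 ⟨l.isPrime, lo_of (hS l hl)⟩
  refine (Finset.sum_le_sum fun P hP => ?_).trans (Finset.sum_le_sum_of_subset hsub)
  obtain ⟨l, hl, rfl⟩ := Finset.mem_image.1 hP
  have := lo_of (hS l hl)
  have hmax : l.asIdeal.IsMaximal := l.isMaximal
  have hmax' : p.asIdeal.IsMaximal := p.isMaximal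
  rw [Ideal.inertiaDeg'_eq_inertiaDeg p.asIdeal l.asIdeal]
  exact Nat.le_mul_of_pos_left _ (Nat.pos_of_ne_zero
    (Ideal.IsDedekindDomain.ramificationIdx'_ne_zero_of_liesOver l.asIdeal p.ne_bot))

omit [NumberField K] [NumberField M] in
private theorem deg_le {ω : M} (hω : IsPrimitiveRoot ω 3)
    (ht : IntermediateField.adjoin K {(ω : QBar)} = M) : Module.finrank K M ≤ 2 := by
  have hω' : IsPrimitiveRoot (ω : QBar) 3 :=
    hω.map_of_injective (f := algebraMap M QBar) (algebraMap M QBar).injective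
  have hg : (ω : QBar) ^ 2 + (ω : QBar) + 1 = 0 := by
    have h1 := hω'.geom_sum_eq_zero (by norm_num)
    rw [Finset.sum_range_succ, Finset.sum_range_succ, Finset.sum_range_one, pow_zero,
      pow_one] at h1
    linear_combination h1
  have hint : IsIntegral K (ω : QBar) := Algebra.IsIntegral.isIntegral _
  have hd : Module.finrank K (IntermediateField.adjoin K {(ω : QBar)}) =
      (minpoly K (ω : QBar)).natDegree := IntermediateField.adjoin.finrank hint
  rw [← ht, hd]
  have hp : ((Polynomial.X ^ 2 + Polynomial.X + 1 : Polynomial K)).natDegree = 2 := by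
    compute_degree!
  have hp0 : (Polynomial.X ^ 2 + Polynomial.X + 1 : Polynomial K) ≠ 0 := by
    intro h
    rw [h, Polynomial.natDegree_zero] at hp
    omega
  rw [← hp]
  refine Polynomial.natDegree_le_of_dvd (minpoly.dvd K _ ?_) hp0
  rw [map_add, map_add, map_pow, Polynomial.aeval_X, map_one]
  exact hg

private theorem pos_f (l : Pl M) : 1 ≤ l.asIdeal.inertiaDeg (𝓞 K) :=
  Ideal.inertiaDeg_pos l.asIdeal (𝓞 K)

theorem spl_nm (τ : Gal(M/K)) (ω : M) (H : Om τ ω) (u : 𝓞 M) (l : Pl M) (p : Pl K)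
    (hlp : Over l p) (hu : u ∈ l.asIdeal) (h2 : u * (τ • u) ∉ l.asIdeal ^ 2) : nm l ≤ nm p := by
  classical
  obtain ⟨T, -, hT, -, hTp⟩ := orT τ
  have hne : T l ≠ l := by
    intro h
    apply h2
    rw [pow_two]
    refine Ideal.mul_mem_mul hu ((hT l u).1 ?_)
    rw [h]
    exact hu
  have h3 := sum_le p {T l, l} (fun w hw => by
    rcases Finset.mem_insert.1 hw with rfl | hw
    · exact hTp l p hlp
    · rw [Finset.mem_singleton.1 hw]
      exact hlp)
  rw [Finset.sum_pair hne] at h3
  have h4 := deg_le H.prim H.top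
  have h5 := pos_f (K := K) (T l)
  have h6 := pos_f (K := K) l
  have h7 : l.asIdeal.inertiaDeg (𝓞 K) = 1 := by omega
  rw [nm_eq hlp, h7, pow_one]

theorem spl_inj (τ : Gal(M/K)) (ω : M) (H : Om τ ω) (u : 𝓞 M) (l l' : Pl M) (p : Pl K)
    (hlp : Over l p) (hlp' : Over l' p) (hu : u ∈ l.asIdeal) (hu' : u ∈ l'.asIdeal)
    (h2 : u * (τ • u) ∉ l.asIdeal ^ 2) : l = l' := by
  classical
  obtain ⟨T, -, hT, -, hTp⟩ := orT τ
  have huT : u ∉ (T l).asIdeal := by
    intro h
    apply h2
    rw [pow_two]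
    exact Ideal.mul_mem_mul hu ((hT l u).1 h)
  have hne : T l ≠ l := by
    intro h
    rw [h] at huT
    exact huT hu
  have hne' : T l ≠ l' := by
    intro h
    rw [h] at huT
    exact huT hu'
  by_contra hll
  have h3 := sum_le p {T l, l, l'} (fun w hw => by
    rcases Finset.mem_insert.1 hw with rfl | hw
    · exact hTp l p hlp
    · rcases Finset.mem_insert.1 hw with rfl | hw
      · exact hlp
      · rw [Finset.mem_singleton.1 hw]
        exact hlp')
  have hnot : T l ∉ ({l, l'} : Finset (Pl M)) := by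
    rw [Finset.mem_insert, Finset.mem_singleton]
    rintro (h | h)
    · exact hne h
    · exact hne' h
  rw [Finset.sum_insert hnot, Finset.sum_pair hll] at h3
  have h4 := deg_le H.prim H.top
  have h5 := pos_f (K := K) (T l)
  have h6 := pos_f (K := K) l
  have h7 := pos_f (K := K) l'
  omega

end H38.WM
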