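import Pool.Agent.H38.WM.Kc2
import Pool.Agent.H38.WM.CfE
import Pool.Agent.H38.WM.CfU
import Pool.Agent.H38.WM.NrG
import Pool.Agent.H38.WM.RmG
import Pool.Agent.H38.WM.Spl
import Pool.Agent.H38.WM.Psa
import Pool.Agent.H38.WM.Nsq
import Pool.Agent.H38.WM.EvU
import Pool.Agent.H38.WM.EvR

/-!
# [H38 WM Dt2] every `ρ` has a pair `(u, a)`, 80-120 lines. File Pool/Agent/H38/WM/Dt2.lean

Compare Dt1.lean. Proof. `m, C₀` from `kc2`, `C₁` from `nrG M m C₀`, `bad` = the finite set of the primes of `K` containing `m`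
(`coB_fin` in CoB.lean: `Ideal.finite_factors`). `χ = D.pi.comp ρ`, surjective, of finite type; `u, y` from `kc2`; `F` from `cfE`,
`F = Fl2 τ u` by `cfFl`; so `Cf τ (Fl2 τ u) u` and `σ ∈ (Fl2 τ u).fixingSubgroup ↔ D.pi (ρ σ) = 1`. `psa`: `a'`; `nsq`. Even orders as in
Dt1: `2 ∉ l` since `6 ∣ m`, `m ∉ l`; `evr` if `l ∈ R3`, `evu` if `l ∉ Rm`. Size: `T_M` = the finite set of the primes `l` of `M` with
`m ∉ l`, `u ∈ l`; `nrG`: `|N u| ≤ C₁ ∏ l ∈ T_M, nm l`; the map `l ↦ p` (prime below, `exists_below`) is injective on `T_M`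
(`spl_inj`) and `nm l ≤ nm p` (`spl_nm`), `p ∈ R3 D Q ρ` (`rmG`), so `T'` = image of `T_M`, `∏ l ∈ T_M, nm l ≤ ∏ p ∈ T', nm p`.
-/

set_option autoImplicit false

open scoped NumberField
open IsDedekindDomain NumberField H38.ML H63.MA

noncomputable section

namespace H38.WM

private theorem dt2_fin {L : Type} [Field L] [NumberField L] (x : 𝓞 L) (hx : x ≠ 0) :
    {l : Pl L | x ∈ l.asIdeal}.Finite := by
  have h1 : Ideal.span {x} ≠ 0 := by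
    rw [Ideal.zero_eq_bot, Ne, Ideal.span_singleton_eq_bot]
    exact hx
  refine (Ideal.finite_factors h1).subset fun l hl => ?_
  change l.asIdeal ∣ Ideal.span {x}
  rw [Ideal.dvd_span_singleton]
  exact hl

variable {K : IntermediateField ℚ QBar} [NumberField K] {M : IntermediateField K QBar}
  [NumberField M]

variable {G : Type} [Group G]

theorem dt2 (τ : Gal(M/K)) (ω : M) (H : Om τ ω) (D : TD G) (Q : DP K QBar) :
    ∃ (m : ℕ) (C₀ C₁ : ℝ) (bad : Finset (Pl K)), m ≠ 0 ∧ 6 ∣ m ∧ 0 < C₁ ∧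
      ∀ ρ : Gal(QBar/K) →* G, Function.Surjective ρ → FT ρ →
        ∃ (u : 𝓞 M) (a : QBar), GTr D Q (Fam2 τ m C₀) bad C₁ ρ u a := by
  classical
  obtain ⟨m, C₀, hm, h6, hex⟩ := kc2 τ ω H
  obtain ⟨C₁, hC₁, hnr⟩ := nrG M m C₀ hm
  have hm0 : (m : 𝓞 K) ≠ 0 := by exact_mod_cast hm
  obtain ⟨bad, hbad⟩ : ∃ bad : Finset (Pl K), ∀ l, l ∈ bad ↔ (m : 𝓞 K) ∈ l.asIdeal :=
    ⟨(dt2_fin (m : 𝓞 K) hm0).toFinset, fun l => Set.Finite.mem_toFinset _⟩
  refine ⟨m, C₀, C₁, bad, hm, h6, hC₁, fun ρ hρ hft => ?_⟩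
  have hft' : FT (D.pi.comp ρ) := by
    obtain ⟨E, hE, hle⟩ := hft
    refine ⟨E, hE, fun σ hσ => ?_⟩
    rw [MonoidHom.mem_ker, MonoidHom.comp_apply, MonoidHom.mem_ker.1 (hle hσ), map_one]
  have hsur : Function.Surjective (D.pi.comp ρ) := D.surj.comp hρ
  obtain ⟨u, y, hA, hy, hχ, hχr⟩ := hex (D.pi.comp ρ) hft'
  obtain ⟨F, hCf, hFfix⟩ := cfE τ (D.pi.comp ρ) hft' hsur u hχr
  have hFl : Fl2 τ u = F := cfFl τ ω H F u hCf
  subst hFl
  have hfix : ∀ σ : Gal(QBar/K), σ ∈ (Fl2 τ u).fixingSubgroup ↔ D.pi (ρ σ) = 1 := hFfix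
  obtain ⟨a', HK⟩ := psa D ρ hft (Fl2 τ u) hCf.deg hfix
  have hsq := nsq D ρ hρ (Fl2 τ u) a' HK
  refine ⟨u, ((a' : Fl2 τ u) : QBar), ⟨hA, hCf⟩, hCf.deg, ?_, a', rfl, HK, hsq,
    fun P l hPl hl hnot => ?_⟩
  · obtain ⟨TM, hTM⟩ : ∃ TM : Finset (Pl M), ∀ l, l ∈ TM ↔
        u ∈ l.asIdeal ∧ (m : 𝓞 M) ∉ l.asIdeal :=
      ⟨(dt2_fin u hA.u0).toFinset.filter fun l => (m : 𝓞 M) ∉ l.asIdeal, fun l => by
        rw [Finset.mem_filter, Set.Finite.mem_toFinset]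
        rfl⟩
    have hb : ∀ l : Pl M, ∃ p : Pl K, Over l p := fun l => exists_below l
    choose b hb using hb
    have hinj : Set.InjOn b (TM : Set (Pl M)) := by
      intro l hl l' hl' he
      have h1 := (hTM l).1 hl
      have h2 := (hTM l').1 hl'
      refine spl_inj τ ω H u l l' (b l) (hb l) ?_ h1.1 h2.1 (hA.good l h1.2)
      rw [he]
      exact hb l'
    refine ⟨TM.image b, fun p hp => ?_, ?_⟩
    · obtain ⟨l, hl, rfl⟩ := Finset.mem_image.1 hp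
      have h1 := (hTM l).1 hl
      exact rmG τ ω H Q m C₀ h6 (D.pi.comp ρ) u y hA hy hχ l (b l) (hb l) h1.2 h1.1
    · have h1 := hnr u (τ • u) hA TM fun l hl hu => (hTM l).2 ⟨hu, hl⟩
      rw [Finset.prod_image hinj]
      refine h1.trans (mul_le_mul_of_nonneg_left ?_ hC₁.le)
      refine Finset.prod_le_prod (fun l _ => Nat.cast_nonneg _) fun l hl => ?_
      have h2 := (hTM l).1 hl
      exact_mod_cast spl_nm τ ω H u l (b l) (hb l) h2.1 (hA.good l h2.2)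
  · by_cases h3 : l ∈ R3 D Q ρ
    · exact evr D ρ (Fl2 τ u) a' HK hsq Q P l hPl h3
    · refine evu D ρ (Fl2 τ u) a' HK Q P l hPl (fun h2 => hl ((hbad l).2 ?_))
        (fun h0 => hnot ⟨h0, h3⟩)
      obtain ⟨k, hk⟩ := h6
      rw [hk]
      push_cast
      have h4 : ((6 : 𝓞 K) * k) = 2 * (3 * k) := by ring
      rw [h4]
      exact Ideal.mul_mem_right _ _ h2

end H38.WM
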