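import Pool.Agent.H38.WM.Om2

/-!
# [H38 WM Eqv] the Kummer class of a character of `Gal(QBar/K)` over `M`, 50-80 lines. File Pool/Agent/H38/WM/Eqv.lean

Proof. `s : Gal(QBar/K)` a lift of `τ` (`om_lift`). `b ∈ QBar`, `b^3 = x`; then `b' = s b` has `b'^3 = τ x`. For `σ : Gal(QBar/M)` let
`σ' = s⁻¹ σ s ∈ Gal(QBar/M)` (`om_conj`). `χ σ' = χ σ` (commutative target), so with `k = (kk 3 ω x σ).val`, `kk 3 ω x σ' = kk 3 ω x σ`:
`σ b' = s (σ' b) = s (ω^k b) = (ω^2)^k b'` (`kk_root`; `s ω = τ ω = ω^2`). So `kk 3 ω (τ x) σ = 2 k = - kk 3 ω x σ` (`kk_of_root`),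
`kk 3 ω (x τ(x)) σ = 0` for all `σ` (`kk_mul_arg`), and `kk_eq_zero_iff` gives a cube root.
-/

set_option autoImplicit false

open scoped NumberField
open IsDedekindDomain NumberField H38.ML H63.MA

noncomputable section

namespace H38.WM

variable {K : IntermediateField ℚ QBar} [NumberField K] {M : IntermediateField K QBar}
  [NumberField M]

theorem eqv (τ : Gal(M/K)) (ω : M) (H : Om τ ω) (χ : Gal(QBar/K) →* Multiplicative (ZMod 3))
    (x : Mˣ) (hx : ∀ σ : Gal(QBar/M), χ (σ.restrictScalars K) = kc 3 ω QBar x σ) :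
    ∃ y : Mˣ, x * Units.map (τ : M →* M) x = y ^ 3 := by
  have hp : Nat.Prime 3 := by norm_num
  have halg : Algebra.IsAlgebraic M QBar := Algebra.IsAlgebraic.tower_top (K := K) M
  have hcl : IsAlgClosure M QBar := ⟨inferInstance, halg⟩
  obtain ⟨s, hs⟩ := om_lift τ
  obtain ⟨b, hb⟩ := gkum_root (K := M) (Ω := QBar) (p := 3) hp x
  obtain ⟨x', hx'⟩ : ∃ x' : Mˣ, x' = Units.map (τ : M →* M) x := ⟨_, rfl⟩
  rw [← hx']
  have hx'c : (x' : M) = τ (x : M) := by
    rw [hx']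
    rfl
  have hb' : (s b) ^ 3 = algebraMap M QBar (x' : M) := by
    rw [← map_pow, hb, hx'c]
    exact hs (x : M)
  have hkk : ∀ σ : Gal(QBar/M), kk 3 ω x' σ = 2 * kk 3 ω x σ := by
    intro σ
    obtain ⟨σ', hσ'⟩ := om_conj τ ω H s σ
    have h1 : kc 3 ω QBar x σ' = kc 3 ω QBar x σ := by
      rw [← hx σ', ← hx σ, hσ', map_mul, map_mul, map_inv]
      rw [mul_comm (χ s)⁻¹, mul_assoc, inv_mul_cancel, mul_one]
    have h2 : kk 3 ω x σ' = kk 3 ω x σ := by
      unfold kk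
      rw [h1]
    have h3 : σ (s b) = s (σ' b) := by
      have h4 : (σ'.restrictScalars K : Gal(QBar/K)) b = σ' b := rfl
      have h5 : (σ.restrictScalars K : Gal(QBar/K)) (s b) = σ (s b) := rfl
      rw [← h4, ← h5, hσ']
      rw [← AlgEquiv.mul_apply, ← AlgEquiv.mul_apply]
      congr 1
      rw [← mul_assoc, ← mul_assoc, mul_inv_cancel, one_mul]
    have h4 := kk_root (Ω := QBar) hp H.prim x b hb σ'
    rw [h2] at h4
    have h5 : s (algebraMap M QBar ω) = (algebraMap M QBar ω) ^ 2 := by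
      have h6 : s ((ω : M) : QBar) = ((τ ω : M) : QBar) := hs ω
      rw [H.act] at h6
      exact h6
    have h6 : σ (s b) = algebraMap M QBar ω ^ (2 * ((kk 3 ω x σ).val : ℤ)) * s b := by
      rw [h3, h4, map_mul, map_pow, h5, ← pow_mul, ← zpow_natCast]
      congr 2
    have h7 := kk_of_root (Ω := QBar) hp H.prim x' (s b) hb' σ _ h6
    rw [h7]
    push_cast
    rw [ZMod.natCast_zmod_val]
  have hz : ∀ σ : Gal(QBar/M), kk 3 ω (x * x') σ = 0 := by
    intro σ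
    rw [kk_mul_arg hp H.prim, hkk σ]
    have h1 : (3 : ZMod 3) = 0 := by decide
    calc kk 3 ω x σ + 2 * kk 3 ω x σ = 3 * kk 3 ω x σ := by ring
      _ = 0 := by rw [h1, zero_mul]
  obtain ⟨y, hy⟩ := (kk_eq_zero_iff (Ω := QBar) hp H.prim (x * x')).1 hz
  exact ⟨y, hy.symm⟩

end H38.WM
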