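import Pool.Agent.H38.WM.Dt2
import Pool.Agent.H38.WM.NkG

/-!
# WM-FIN2: stage 2, weak Malle for `A_4` from `CoreBound2` (complete)
-/

set_option autoImplicit false

open scoped NumberField
open IsDedekindDomain NumberField H38.ML H63.MA

noncomputable section

namespace H38.WM

variable {K : IntermediateField ℚ QBar} [NumberField K] {M : IntermediateField K QBar}
  [NumberField M]

theorem gen2 (τ : Gal(M/K)) (core : CoreBound2 τ) (m : ℕ) (C₀ : ℝ) (hm : m ≠ 0) (h6 : 6 ∣ m) :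
    GenCore (Fam2 τ m C₀) := by
  intro ε hε
  obtain ⟨C, hC⟩ := core m C₀ ε hm h6 hε
  refine ⟨C, fun R hR S h1 h2 => hC R hR S (fun x hx => ?_) h2⟩
  obtain ⟨h3, h4, h5, h6⟩ := h1 x hx
  exact ⟨h3.1, h3.2, h4, h6⟩

theorem nkU2 (τ : Gal(M/K)) (ω : M) (H : Om τ ω) (core : CoreBound2 τ) (ε : ℝ) (hε : 0 < ε) :
    ∃ C : ℝ, 0 < C ∧ ∀ B : ℝ, 1 ≤ B →
      Spec.nK K QBar (alternatingGroup (Fin 4)) B ≤
        ((⌊C * B ^ (1 / 2 + ε)⌋₊ : ℕ) : ℕ∞) := by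
  obtain ⟨D⟩ := a4_td
  refine nkG (fun Q ε hε => ?_) ε hε
  obtain ⟨m, C₀, C₁, bad, hm, h6, hC₁, hex⟩ := dt2 τ ω H D Q
  exact gen_ten D Q (Fam2 τ m C₀) (gen2 τ core m C₀ hm h6) bad C₁ hex ε hε

end H38.WM
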