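import Pool.Agent.H38.WM.Fin2
import Pool.Agent.H38.WM.NkU

/-!
# WM-FINW: weak Malle for `A_4` over every number field from the two core theorems (complete)
-/

set_option autoImplicit false

open scoped NumberField
open IsDedekindDomain NumberField H38.ML H63.MA

noncomputable section

namespace H38.WM

theorem nkAll (K : IntermediateField ℚ QBar) [NumberField K]
    (h1 : ∀ ω : K, IsPrimitiveRoot ω 3 → CoreBound K)
    (h2 : ∀ (M : IntermediateField K QBar) (_ : NumberField M) (τ : Gal(M/K)) (ω : M),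
      Om τ ω → CoreBound2 τ) (ε : ℝ) (hε : 0 < ε) :
    ∃ C : ℝ, 0 < C ∧ ∀ B : ℝ, 1 ≤ B →
      Spec.nK K QBar (alternatingGroup (Fin 4)) B ≤
        ((⌊C * B ^ (1 / 2 + ε)⌋₊ : ℕ) : ℕ∞) := by
  by_cases h : ∃ ω : K, IsPrimitiveRoot ω 3
  · obtain ⟨ω, hω⟩ := h
    exact nkU ω hω (h1 ω hω) ε hε
  · obtain ⟨M, hM, τ, ω, H⟩ := exM K fun ω hω => h ⟨ω, hω⟩
    exact nkU2 τ ω H (h2 M hM τ ω H) ε hε

end H38.WM
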