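import Pool.Agent.H38.WM.Def
import Pool.Agent.H38.WM.Lab
import Pool.Agent.H38.WM.Ker
import Pool.Agent.H38.WM.SumT
import Pool.Agent.H38.WM.RmF
import Pool.Agent.H63.MA.KumB

/-!
# WM-GEN: the counting part of step 10 for an arbitrary family of cubic fields

The index type `ι` is `𝓞 K × 𝓞 K` in stage 1 and `𝓞 M`, `M = K(ζ_3)`, in stage 2 (base fields without a primitive cube root of unity).
`Fl i` is the cubic field with index `i`, `sz i` the size of its conductor, `Ad i` the normalisation. `GenCore` is the core theorem for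
the family, `gen_ten` is the radical form of step 10.
-/

set_option autoImplicit false

open scoped NumberField
open IsDedekindDomain NumberField H38.ML H63.MA

noncomputable section

namespace H38.WM

/-- a family of cubic extensions of `K` -/
structure Famc (K : IntermediateField ℚ QBar) [NumberField K] where
  ι : Type
  Fl : ι → IntermediateField K QBar
  nf : ∀ i, NumberField (Fl i)
  sz : ι → ℝ
  Ad : ι → Prop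

attribute [instance] Famc.nf

variable {K : IntermediateField ℚ QBar} [NumberField K]

/-- the core theorem for the family -/
def GenCore (Φ : Famc K) : Prop :=
  ∀ ε : ℝ, 0 < ε → ∃ C : ℝ, ∀ R : ℝ, 1 ≤ R → ∀ S : Finset (Φ.ι × QBar),
    (∀ x ∈ S, Φ.Ad x.1 ∧ Φ.sz x.1 ≤ R ∧ Module.finrank K (Φ.Fl x.1) = 3 ∧
      ∃ a' : (Φ.Fl x.1)ˣ, ((a' : Φ.Fl x.1) : QBar) = x.2 ∧ Sel K (Φ.Fl x.1) a') →
    (∀ i a b, (i, a) ∈ S → (i, b) ∈ S → (∃ c ∈ Φ.Fl i, a = b * c ^ 2) → a = b) →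
    (S.card : ℝ) ≤ C * R ^ (1 + ε)

open scoped Classical in
/-- numbers `0, 1, 2` for the primes of `Fl i` over every prime of `K` -/
def gelb (Φ : Famc K) (i : Φ.ι) : Pl (Φ.Fl i) → Fin 3 :=
  if h : Module.finrank K (Φ.Fl i) = 3 then (lab (Φ.Fl i) h).choose else fun _ => 0

/-- the label of `(i, a)` -/
def GLb (Φ : Famc K) (i : Φ.ι) (a : QBar) (l : Pl K) (j : Fin 3) : Prop :=
  ∃ (a' : (Φ.Fl i)ˣ) (P : Pl (Φ.Fl i)), ((a' : Φ.Fl i) : QBar) = a ∧ Over P l ∧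
    gelb Φ i P = j ∧ Odd (ord P a')

variable {G : Type} [Group G]

/-- everything about the pair `(i, a)` of a homomorphism `ρ` -/
def GTr (D : TD G) (Q : DP K QBar) (Φ : Famc K) (bad : Finset (Pl K)) (C₁ : ℝ)
    (ρ : Gal(QBar/K) →* G) (i : Φ.ι) (a : QBar) : Prop :=
  Φ.Ad i ∧ Module.finrank K (Φ.Fl i) = 3 ∧
    (∃ T' : Finset (Pl K), (∀ l ∈ T', l ∈ R3 D Q ρ) ∧ Φ.sz i ≤ C₁ * ∏ l ∈ T', (nm l : ℝ)) ∧
    ∃ a' : (Φ.Fl i)ˣ, ((a' : Φ.Fl i) : QBar) = a ∧ KD D ρ (Φ.Fl i) a' ∧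
      IsSquare (Algebra.norm K (a' : Φ.Fl i)) ∧
      ∀ (P : Pl (Φ.Fl i)) (l : Pl K), Over P l → l ∉ bad →
        ¬ (l ∈ Rm Q ρ ∧ l ∉ R3 D Q ρ) → Even (ord P a')

private theorem gcA_odd (Φ : Famc K) (i : Φ.ι) (a b : QBar) (h3 : Module.finrank K (Φ.Fl i) = 3)
    (a' b' : (Φ.Fl i)ˣ) (ha : ((a' : Φ.Fl i) : QBar) = a) (hb : ((b' : Φ.Fl i) : QBar) = b)
    (hl : ∀ l j, GLb Φ i a l j ↔ GLb Φ i b l j) (P : Pl (Φ.Fl i)) (h : Odd (ord P a')) :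
    Odd (ord P b') := by
  obtain ⟨l, hPl⟩ := exists_below (K := K) P
  obtain ⟨b'', P', hb'', hP', hi, hodd⟩ := (hl l (gelb Φ i P)).1 ⟨a', P, ha, hPl, rfl, h⟩
  have h1 : b'' = b' := by
    apply Units.ext
    apply Subtype.ext
    rw [hb'', hb]
  have h2 : P' = P := by
    have h4 := (lab (Φ.Fl i) h3).choose_spec P' P l hP' hPl
    apply h4
    have h5 : gelb Φ i = (lab (Φ.Fl i) h3).choose := by
      unfold gelb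
      rw [dif_pos h3]
    rw [← h5]
    exact hi
  rw [h1, h2] at hodd
  exact hodd

private theorem gcA_sel (D : TD G) (Q : DP K QBar) (Φ : Famc K) (bad : Finset (Pl K)) (C₁ : ℝ) (ρ ρ' : Gal(QBar/K) →* G)
    (i : Φ.ι) (a b : QBar) (h : GTr D Q Φ bad C₁ ρ i a) (h' : GTr D Q Φ bad C₁ ρ' i b)
    (hl : ∀ l j, GLb Φ i a l j ↔ GLb Φ i b l j) :
    ∃ c : (Φ.Fl i)ˣ, ((c : Φ.Fl i) : QBar) = a / b ∧ Sel K (Φ.Fl i) c := by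
  obtain ⟨-, h3, -, a', ha', -, hsq, -⟩ := h
  obtain ⟨-, -, -, b', hb', -, hsq', -⟩ := h'
  refine ⟨a' / b', ?_, ⟨?_, fun P => ?_⟩⟩
  · rw [Units.val_div_eq_div_val, ← ha', ← hb']
    rfl
  · have h1 : Algebra.norm K ((a' / b' : (Φ.Fl i)ˣ) : Φ.Fl i) *
        Algebra.norm K (b' : Φ.Fl i) = Algebra.norm K (a' : Φ.Fl i) := by
      rw [← map_mul, ← Units.val_mul, div_mul_cancel]
    have h2 : Algebra.norm K (b' : Φ.Fl i) ≠ 0 := by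
      rw [Ne, Algebra.norm_eq_zero_iff]
      exact b'.ne_zero
    rw [eq_div_of_mul_eq h2 h1]
    exact hsq.div hsq'
  · rw [div_eq_mul_inv, ord_mul, ord_inv, ← sub_eq_add_neg, Int.even_sub, ← Int.not_odd_iff_even,
      ← Int.not_odd_iff_even, not_iff_not]
    exact ⟨gcA_odd Φ i a b h3 a' b' ha' hb' hl P,
      gcA_odd Φ i b a h3 b' a' hb' ha' (fun l j => (hl l j).symm) P⟩

private theorem gcA_ne (D : TD G) (Q : DP K QBar) (Φ : Famc K) (bad : Finset (Pl K)) (C₁ : ℝ) (ρ : Gal(QBar/K) →* G)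
    (i : Φ.ι) (a : QBar) (h : GTr D Q Φ bad C₁ ρ i a) : a ≠ 0 := by
  obtain ⟨-, -, -, a', ha', -⟩ := h
  rw [← ha']
  intro h0
  exact a'.ne_zero (Subtype.ext h0)

private theorem gcA_ker (D : TD G) (Q : DP K QBar) (Φ : Famc K) (bad : Finset (Pl K)) (C₁ : ℝ) (ρ ρ' : Gal(QBar/K) →* G)
    (hρ : Function.Surjective ρ) (hρ' : Function.Surjective ρ')
    (i : Φ.ι) (a b c : QBar) (h : GTr D Q Φ bad C₁ ρ i a) (h' : GTr D Q Φ bad C₁ ρ' i b)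
    (hc : c ∈ Φ.Fl i) (hc0 : c ≠ 0) (hab : a = b * c ^ 2) : ρ.ker = ρ'.ker := by
  obtain ⟨-, -, -, a', ha', H, -⟩ := h
  obtain ⟨-, -, -, b', hb', H', -⟩ := h'
  have hc1 : (⟨c, hc⟩ : Φ.Fl i) ≠ 0 := fun h0 => hc0 (congrArg Subtype.val h0)
  refine ker_eq D ρ ρ' hρ hρ' (Φ.Fl i) a' b' (Units.mk0 ⟨c, hc⟩ hc1) H H' ?_
  apply Units.ext
  apply Subtype.ext
  rw [ha', hab, ← hb']
  rfl

open scoped Classical in
theorem gcA [Finite G] (D : TD G) (Q : DP K QBar) (Φ : Famc K) (core : GenCore Φ)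
    (bad : Finset (Pl K)) (C₁ : ℝ) (ε : ℝ) (hε : 0 < ε) : ∃ C : ℝ, 0 ≤ C ∧ ∀ R : ℝ, 1 ≤ R →
    ∀ (lam : Pl K → Fin 3 → Prop) (Rs : Finset (Gal(QBar/K) →* G))
      (I : (Gal(QBar/K) →* G) → Φ.ι) (A : (Gal(QBar/K) →* G) → QBar),
      (∀ ρ ∈ Rs, Function.Surjective ρ ∧ GTr D Q Φ bad C₁ ρ (I ρ) (A ρ) ∧ Φ.sz (I ρ) ≤ R ∧
        ∀ l j, GLb Φ (I ρ) (A ρ) l j ↔ lam l j) →
      (Rs.card : ℝ) ≤ C * R ^ (1 + ε) := by
  obtain ⟨C₂, hC₂⟩ := core ε hε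
  refine ⟨((Nat.card G ^ Nat.card G : ℕ) : ℝ) * max C₂ 0, by positivity,
    fun R hR lam Rs I A h => ?_⟩
  -- the base points
  obtain ⟨bp, hbp⟩ : ∃ bp : Φ.ι → (Gal(QBar/K) →* G), ∀ ρ ∈ Rs,
      bp (I ρ) ∈ Rs ∧ I (bp (I ρ)) = I ρ := by
    refine ⟨fun i => if hh : ∃ ρ ∈ Rs, I ρ = i then hh.choose else 1, fun ρ hρ => ?_⟩
    have hh : ∃ ρ' ∈ Rs, I ρ' = I ρ := ⟨ρ, hρ, rfl⟩
    simp only [dif_pos hh]
    exact hh.choose_spec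
  obtain ⟨z, hz⟩ : ∃ z : (Gal(QBar/K) →* G) → QBar, ∀ ρ, z ρ = A ρ / A (bp (I ρ)) :=
    ⟨_, fun ρ => rfl⟩
  have hbT : ∀ ρ ∈ Rs, GTr D Q Φ bad C₁ (bp (I ρ)) (I ρ) (A (bp (I ρ))) := by
    intro ρ hρ
    obtain ⟨h1, h2⟩ := hbp ρ hρ
    have h4 := (h _ h1).2.1
    rw [h2] at h4
    exact h4
  have hbL : ∀ ρ ∈ Rs, ∀ l j, GLb Φ (I ρ) (A ρ) l j ↔ GLb Φ (I ρ) (A (bp (I ρ))) l j := by
    intro ρ hρ l j
    obtain ⟨h1, h2⟩ := hbp ρ hρ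
    have h4 := (h _ h1).2.2.2 l j
    rw [h2] at h4
    rw [h4]
    exact (h ρ hρ).2.2.2 l j
  have hz0 : ∀ ρ ∈ Rs, z ρ ≠ 0 := by
    intro ρ hρ
    rw [hz]
    exact div_ne_zero (gcA_ne D Q Φ bad C₁ ρ _ _ (h ρ hρ).2.1)
      (gcA_ne D Q Φ bad C₁ _ _ _ (hbT ρ hρ))
  -- the relation
  obtain ⟨rel, hrel⟩ : ∃ rel : (Gal(QBar/K) →* G) → (Gal(QBar/K) →* G) → Prop, ∀ ρ ρ',
      rel ρ ρ' ↔ ρ ∈ Rs ∧ ρ' ∈ Rs ∧ I ρ = I ρ' ∧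
        ∃ c ∈ Φ.Fl (I ρ), z ρ = z ρ' * c ^ 2 := ⟨_, fun _ _ => Iff.rfl⟩
  have hrefl : ∀ ρ ∈ Rs, rel ρ ρ := by
    intro ρ hρ
    rw [hrel]
    exact ⟨hρ, hρ, rfl, 1, one_mem _, by rw [one_pow, mul_one]⟩
  have hsymm : ∀ ρ ρ', rel ρ ρ' → rel ρ' ρ := by
    intro ρ ρ' hh
    rw [hrel] at hh ⊢
    obtain ⟨h1, h2, h3, c, hc, h5⟩ := hh
    have hc0 : c ≠ 0 := by
      rintro rfl
      apply hz0 ρ h1
      rw [h5]
      ring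
    refine ⟨h2, h1, h3.symm, c⁻¹, ?_, ?_⟩
    · rw [← h3]
      exact inv_mem hc
    · rw [h5]
      field_simp
  have htrans : ∀ ρ ρ' ρ'', rel ρ ρ' → rel ρ' ρ'' → rel ρ ρ'' := by
    intro ρ ρ' ρ'' hh hh'
    rw [hrel] at hh hh' ⊢
    obtain ⟨h1, h2, h3, c, hc, h5⟩ := hh
    obtain ⟨h1', h2', h3', c', hc', h5'⟩ := hh'
    refine ⟨h1, h2', h3.trans h3', c * c', ?_, ?_⟩
    · rw [← h3] at hc'
      exact mul_mem hc hc'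
    · rw [h5, h5']
      ring
  -- the representatives
  obtain ⟨r, hr1, hr2⟩ : ∃ r : (Gal(QBar/K) →* G) → (Gal(QBar/K) →* G),
      (∀ ρ ∈ Rs, rel ρ (r ρ)) ∧ ∀ ρ ρ', rel ρ ρ' → r ρ = r ρ' := by
    obtain ⟨cl, hcl⟩ : ∃ cl : (Gal(QBar/K) →* G) → Set (Gal(QBar/K) →* G), ∀ ρ,
        cl ρ = {ρ' | rel ρ ρ'} := ⟨_, fun _ => rfl⟩
    obtain ⟨sel, hsel⟩ : ∃ sel : Set (Gal(QBar/K) →* G) → (Gal(QBar/K) →* G),
        ∀ s, s.Nonempty → sel s ∈ s :=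
      ⟨fun s => if hh : s.Nonempty then hh.some else 1, fun s hs => by
        simp only [dif_pos hs]
        exact hs.some_mem⟩
    refine ⟨fun ρ => sel (cl ρ), fun ρ hρ => ?_, fun ρ ρ' hh => ?_⟩
    · have h2 := hsel (cl ρ) ⟨ρ, by rw [hcl]; exact hrefl ρ hρ⟩
      have h3 : ∀ x, x ∈ cl ρ → rel ρ x := by
        intro x hx
        rw [hcl] at hx
        exact hx
      exact h3 _ h2
    · have h1 : cl ρ = cl ρ' := by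
        rw [hcl, hcl]
        ext ρ''
        exact ⟨fun h2 => htrans _ _ _ (hsymm _ _ hh) h2, fun h2 => htrans _ _ _ hh h2⟩
      simp only [h1]
  have hrRs : ∀ ρ ∈ Rs, r ρ ∈ Rs := fun ρ hρ => ((hrel _ _).1 (hr1 ρ hρ)).2.1
  obtain ⟨f, hf⟩ : ∃ f : (Gal(QBar/K) →* G) → Φ.ι × QBar, ∀ ρ,
      f ρ = (I (r ρ), z (r ρ)) := ⟨_, fun _ => rfl⟩
  have hS1 : ∀ x ∈ Rs.image f, Φ.Ad x.1 ∧ Φ.sz x.1 ≤ R ∧ Module.finrank K (Φ.Fl x.1) = 3 ∧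
      ∃ a' : (Φ.Fl x.1)ˣ, ((a' : Φ.Fl x.1) : QBar) = x.2 ∧ Sel K (Φ.Fl x.1) a' := by
    intro x hx
    obtain ⟨ρ, hρ, rfl⟩ := Finset.mem_image.1 hx
    rw [hf]
    have h1 := hrRs ρ hρ
    obtain ⟨h2, h3, h4, h5⟩ := h _ h1
    obtain ⟨c, hc, hsel⟩ := gcA_sel D Q Φ bad C₁ _ _ _ _ _ h3 (hbT _ h1) (hbL _ h1)
    refine ⟨h3.1, h4, h3.2.1, c, ?_, hsel⟩
    rw [hc, hz]
  have hkey : ∀ ρ ∈ Rs, ∀ ρ' ∈ Rs, I (r ρ) = I (r ρ') →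
      (∃ c ∈ Φ.Fl (I (r ρ)), z (r ρ) = z (r ρ') * c ^ 2) → r ρ = r ρ' := by
    intro ρ hρ ρ' hρ' h1 h3
    have h4 : rel (r ρ) (r ρ') := by
      rw [hrel]
      exact ⟨hrRs ρ hρ, hrRs ρ' hρ', h1, h3⟩
    have h5 := htrans _ _ _ (hr1 ρ hρ) (htrans _ _ _ h4 (hsymm _ _ (hr1 ρ' hρ')))
    exact hr2 _ _ h5
  have hS2 : ∀ i a b, (i, a) ∈ Rs.image f → (i, b) ∈ Rs.image f →
      (∃ c ∈ Φ.Fl i, a = b * c ^ 2) → a = b := by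
    intro i a b ha hb hh
    obtain ⟨ρ, hρ, h1⟩ := Finset.mem_image.1 ha
    obtain ⟨ρ', hρ', h2⟩ := Finset.mem_image.1 hb
    rw [hf, Prod.mk.injEq] at h1 h2
    obtain ⟨h3, h5⟩ := h1
    obtain ⟨h3', h5'⟩ := h2
    have h6 := hkey ρ hρ ρ' hρ' (h3.trans h3'.symm) (by
      rw [h3, h5, h5']
      exact hh)
    rw [← h5, ← h5', h6]
  have hcore := hC₂ R hR (Rs.image f) hS1 hS2
  have hcard : Rs.card ≤ Nat.card G ^ Nat.card G * (Rs.image f).card := by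
    refine Finset.card_le_mul_card_image _ _ fun x hx => ?_
    refine fib _ (fun ρ hρ => (h ρ (Finset.mem_filter.1 hρ).1).1) fun ρ hρ ρ' hρ' => ?_
    obtain ⟨h1, h2⟩ := Finset.mem_filter.1 hρ
    obtain ⟨h1', h2'⟩ := Finset.mem_filter.1 hρ'
    have h3 : f ρ = f ρ' := h2.trans h2'.symm
    rw [hf, hf, Prod.mk.injEq] at h3
    have h4 := hkey ρ h1 ρ' h1' h3.1 ⟨1, one_mem _, by rw [h3.2]; ring⟩
    have h5 : rel ρ ρ' := htrans _ _ _ (hr1 ρ h1) (by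
      rw [h4]
      exact hsymm _ _ (hr1 ρ' h1'))
    rw [hrel] at h5
    obtain ⟨-, -, h6, c, hc, h8⟩ := h5
    have hT' : GTr D Q Φ bad C₁ ρ' (I ρ) (A ρ') := by
      have h9 := (h ρ' h1').2.1
      rw [← h6] at h9
      exact h9
    have hc0 : c ≠ 0 := by
      rintro rfl
      apply hz0 ρ h1
      rw [h8]
      ring
    refine gcA_ker D Q Φ bad C₁ ρ ρ' (h ρ h1).1 (h ρ' h1').1 (I ρ) (A ρ) (A ρ') c
      (h ρ h1).2.1 hT' hc hc0 ?_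
    rw [hz, hz, ← h6] at h8
    have hne := gcA_ne D Q Φ bad C₁ _ _ _ (hbT ρ h1)
    field_simp at h8
    exact h8
  have hR0 : 0 ≤ R ^ (1 + ε) := Real.rpow_nonneg (by linarith) _
  calc (Rs.card : ℝ) ≤ ((Nat.card G ^ Nat.card G : ℕ) : ℝ) * ((Rs.image f).card : ℝ) := by
        exact_mod_cast hcard
    _ ≤ ((Nat.card G ^ Nat.card G : ℕ) : ℝ) * (C₂ * R ^ (1 + ε)) :=
        mul_le_mul_of_nonneg_left hcore (Nat.cast_nonneg _)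
    _ ≤ ((Nat.card G ^ Nat.card G : ℕ) : ℝ) * (max C₂ 0 * R ^ (1 + ε)) :=
        mul_le_mul_of_nonneg_left
          (mul_le_mul_of_nonneg_right (le_max_left _ _) hR0) (Nat.cast_nonneg _)
    _ = ((Nat.card G ^ Nat.card G : ℕ) : ℝ) * max C₂ 0 * R ^ (1 + ε) := by ring

private theorem gcB_nm (l : Pl K) : (1 : ℝ) ≤ (nm l : ℝ) := by
  exact_mod_cast (one_lt_nm l).le

private theorem gcB_prod (T : Finset (Pl K)) : (1 : ℝ) ≤ ∏ l ∈ T, (nm l : ℝ) := by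
  refine Finset.prod_induction _ (fun x : ℝ => 1 ≤ x) (fun a b ha hb => ?_) le_rfl
    fun l _ => gcB_nm l
  nlinarith

open scoped Classical in
theorem gcB [Finite G] (D : TD G) (Q : DP K QBar) (Φ : Famc K) (core : GenCore Φ)
    (bad : Finset (Pl K)) (C₁ : ℝ)
    (hex : ∀ ρ : Gal(QBar/K) →* G, Function.Surjective ρ → FT ρ →
      ∃ (i : Φ.ι) (a : QBar), GTr D Q Φ bad C₁ ρ i a)
    (ε : ℝ) (hε : 0 < ε) : ∃ C : ℝ, 0 ≤ C ∧ ∀ Z : ℝ, 1 ≤ Z →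
    ∀ (T : Finset (Pl K)) (Rs : Finset (Gal(QBar/K) →* G)),
      (∀ ρ ∈ Rs, Cn Q Z ρ ∧ ∀ l, l ∈ T ↔ l ∈ Rm Q ρ ∧ l ∉ R3 D Q ρ) →
      (Rs.card : ℝ) ≤ C * 8 ^ T.card * (Z / ∏ l ∈ T, (nm l : ℝ)) ^ (1 + ε) := by
  obtain ⟨C₂, hC₂, hcoA⟩ := gcA D Q Φ core bad C₁ ε hε
  have hm1 : (1 : ℝ) ≤ max C₁ 1 := le_max_right _ _
  refine ⟨8 ^ bad.card * C₂ * (max C₁ 1) ^ (1 + ε), by positivity, fun Z hZ T Rs h => ?_⟩
  have hT1 := gcB_prod T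
  have hZT : 0 < Z / ∏ l ∈ T, (nm l : ℝ) := by positivity
  rcases Rs.eq_empty_or_nonempty with rfl | hne
  · rw [Finset.card_empty, Nat.cast_zero]
    positivity
  have hU : ∀ ρ : Gal(QBar/K) →* G, ∃ x : Φ.ι × QBar, Function.Surjective ρ → FT ρ →
      GTr D Q Φ bad C₁ ρ x.1 x.2 := by
    intro ρ
    by_cases h1 : Function.Surjective ρ ∧ FT ρ
    · obtain ⟨i, a, hh⟩ := hex ρ h1.1 h1.2
      exact ⟨(i, a), fun _ _ => hh⟩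
    · obtain ⟨ρ₀, hρ₀⟩ := hne
      obtain ⟨i, a, -⟩ := hex ρ₀ (h ρ₀ hρ₀).1.1 (h ρ₀ hρ₀).1.2.1
      exact ⟨(i, a), fun h2 h3 => absurd ⟨h2, h3⟩ h1⟩
  choose W hW using hU
  have hTr : ∀ ρ ∈ Rs, GTr D Q Φ bad C₁ ρ (W ρ).1 (W ρ).2 := fun ρ hρ =>
    hW ρ (h ρ hρ).1.1 (h ρ hρ).1.2.1
  have hTZ : ∏ l ∈ T, (nm l : ℝ) ≤ Z := by
    obtain ⟨ρ, hρ⟩ := hne
    exact (h ρ hρ).1.2.2 T fun l hl => (((h ρ hρ).2 l).1 hl).1
  obtain ⟨R, hR⟩ : ∃ R : ℝ, R = max C₁ 1 * (Z / ∏ l ∈ T, (nm l : ℝ)) := ⟨_, rfl⟩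
  have hR1 : 1 ≤ R := by
    have h1 : 1 ≤ Z / ∏ l ∈ T, (nm l : ℝ) := (one_le_div (by linarith)).2 hTZ
    rw [hR]
    nlinarith
  have hN : ∀ ρ ∈ Rs, Φ.sz (W ρ).1 ≤ R := by
    intro ρ hρ
    obtain ⟨-, -, ⟨T', hR3, h1⟩, -⟩ := hTr ρ hρ
    have hdisj : Disjoint T T' := by
      rw [Finset.disjoint_left]
      intro l hl hl'
      exact (((h ρ hρ).2 l).1 hl).2 (hR3 l hl')
    have h2 := (h ρ hρ).1.2.2 (T ∪ T') fun l hl => by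
      rcases Finset.mem_union.1 hl with h3 | h3
      · exact (((h ρ hρ).2 l).1 h3).1
      · obtain ⟨τ, hτ, hne⟩ := hR3 l h3
        exact ⟨τ, hτ, fun h0 => hne (by rw [h0, map_one])⟩
    rw [Finset.prod_union hdisj] at h2
    have h3 : ∏ l ∈ T', (nm l : ℝ) ≤ Z / ∏ l ∈ T, (nm l : ℝ) := by
      rw [le_div_iff₀ (by linarith), mul_comm]
      exact h2
    have h4 : (1 : ℝ) ≤ ∏ l ∈ T', (nm l : ℝ) := gcB_prod T'
    calc Φ.sz (W ρ).1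
        ≤ C₁ * ∏ l ∈ T', (nm l : ℝ) := h1
      _ ≤ max C₁ 1 * ∏ l ∈ T', (nm l : ℝ) :=
          mul_le_mul_of_nonneg_right (le_max_left _ _) (by linarith)
      _ ≤ max C₁ 1 * (Z / ∏ l ∈ T, (nm l : ℝ)) :=
          mul_le_mul_of_nonneg_left h3 (by linarith)
      _ = R := hR.symm
  -- labels
  obtain ⟨lb, hlb⟩ : ∃ lb : (Gal(QBar/K) →* G) → (↥(T ∪ bad) → Fin 3 → Prop), ∀ ρ x j,
      lb ρ x j = GLb Φ (W ρ).1 (W ρ).2 x.1 j := ⟨_, fun _ _ _ => rfl⟩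
  have hfib : ∀ lam : ↥(T ∪ bad) → Fin 3 → Prop,
      ((Rs.filter fun ρ => lb ρ = lam).card : ℝ) ≤ C₂ * R ^ (1 + ε) := by
    intro lam
    refine hcoA R hR1 (fun l j => ∃ hl : l ∈ T ∪ bad, lam ⟨l, hl⟩ j) _ (fun ρ => (W ρ).1)
      (fun ρ => (W ρ).2) fun ρ hρ' => ?_
    obtain ⟨hρ, hlam⟩ := Finset.mem_filter.1 hρ'
    refine ⟨(h ρ hρ).1.1, hTr ρ hρ, hN ρ hρ, fun l j => ?_⟩
    constructor
    · intro hL
      by_cases hl : l ∈ T ∪ bad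
      · refine ⟨hl, ?_⟩
        rw [← hlam, hlb]
        exact hL
      · exfalso
        obtain ⟨a'', P, ha'', hPl, -, hodd⟩ := hL
        obtain ⟨-, -, -, a', ha', -, -, hev⟩ := hTr ρ hρ
        have h1 : a'' = a' := by
          apply Units.ext
          apply Subtype.ext
          rw [ha'', ha']
        rw [Finset.mem_union, not_or] at hl
        have h2 := hev P l hPl hl.2 (fun h0 => hl.1 (((h ρ hρ).2 l).2 h0))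
        rw [h1] at hodd
        exact (Int.not_even_iff_odd.2 hodd) h2
    · rintro ⟨hl, h1⟩
      rw [← hlam, hlb] at h1
      exact h1
  have hcard : (Rs.card : ℝ) ≤ ∑ lam : ↥(T ∪ bad) → Fin 3 → Prop, C₂ * R ^ (1 + ε) := by
    rw [Finset.card_eq_sum_card_fiberwise (f := lb) (t := Finset.univ) fun _ _ =>
      Finset.mem_coe.2 (Finset.mem_univ _)]
    push_cast
    exact Finset.sum_le_sum fun lam _ => hfib lam
  rw [Finset.sum_const, nsmul_eq_mul, Finset.card_univ] at hcard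
  have hcard2 : (Fintype.card (↥(T ∪ bad) → Fin 3 → Prop) : ℝ) ≤ 8 ^ T.card * 8 ^ bad.card := by
    rw [Fintype.card_fun, Fintype.card_fun, Fintype.card_prop, Fintype.card_fin,
      Fintype.card_coe]
    push_cast
    rw [← pow_add]
    exact pow_le_pow_right₀ (by norm_num) (Finset.card_union_le _ _)
  have hR0 : 0 ≤ C₂ * R ^ (1 + ε) := mul_nonneg hC₂ (Real.rpow_nonneg (by linarith) _)
  calc (Rs.card : ℝ) ≤ Fintype.card (↥(T ∪ bad) → Fin 3 → Prop) * (C₂ * R ^ (1 + ε)) := hcard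
    _ ≤ 8 ^ T.card * 8 ^ bad.card * (C₂ * R ^ (1 + ε)) :=
        mul_le_mul_of_nonneg_right hcard2 hR0
    _ = 8 ^ bad.card * C₂ * (max C₁ 1) ^ (1 + ε) * 8 ^ T.card *
        (Z / ∏ l ∈ T, (nm l : ℝ)) ^ (1 + ε) := by
      rw [hR, Real.mul_rpow (by linarith) hZT.le]
      ring


theorem gen_ten [Finite G] (D : TD G) (Q : DP K QBar) (Φ : Famc K) (core : GenCore Φ)
    (bad : Finset (Pl K)) (C₁ : ℝ)
    (hex : ∀ ρ : Gal(QBar/K) →* G, Function.Surjective ρ → FT ρ →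
      ∃ (i : Φ.ι) (a : QBar), GTr D Q Φ bad C₁ ρ i a)
    (ε : ℝ) (hε : 0 < ε) : ∃ C : ℝ, 0 ≤ C ∧ ∀ Z : ℝ, 1 ≤ Z →
    ∀ Rs : Finset (Gal(QBar/K) →* G), (∀ ρ ∈ Rs, Cn Q Z ρ) →
      (Rs.card : ℝ) ≤ C * Z ^ (1 + ε) := by
  classical
  obtain ⟨C₁, hC₁, h₁⟩ := gcB D Q Φ core bad C₁ hex ε hε
  obtain ⟨C₂, hC₂, h₂⟩ := sumT K 8 ε (by norm_num) hε
  refine ⟨C₁ * C₂, mul_nonneg hC₁ hC₂, fun Z hZ Rs hRs => ?_⟩
  have hfin : ∀ ρ : Gal(QBar/K) →* G, FT ρ → (Rm Q ρ \ R3 D Q ρ).Finite := fun ρ h =>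
    (rmF Q ρ h).subset Set.sdiff_subset
  let T : (Gal(QBar/K) →* G) → Finset (Pl K) := fun ρ =>
    if h : FT ρ then (hfin ρ h).toFinset else ∅
  have hT : ∀ ρ ∈ Rs, ∀ l, l ∈ T ρ ↔ l ∈ Rm Q ρ ∧ l ∉ R3 D Q ρ := by
    intro ρ hρ l
    have hft : FT ρ := (hRs ρ hρ).2.1
    simp only [T, dif_pos hft, Set.Finite.mem_toFinset, Set.mem_sdiff]
  have hZ0 : 0 ≤ Z := by linarith
  have hcard : (Rs.card : ℝ) = ∑ S ∈ Rs.image T, ((Rs.filter fun ρ => T ρ = S).card : ℝ) := by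
    rw [← Nat.cast_sum, ← Finset.card_eq_sum_card_image]
  have hterm : ∀ S ∈ Rs.image T, ((Rs.filter fun ρ => T ρ = S).card : ℝ) ≤
      C₁ * Z ^ (1 + ε) * (8 ^ S.card / (∏ l ∈ S, (nm l : ℝ)) ^ (1 + ε)) := by
    intro S _
    have h := h₁ Z hZ S (Rs.filter fun ρ => T ρ = S) (fun ρ hρ => by
      rw [Finset.mem_filter] at hρ
      refine ⟨hRs ρ hρ.1, fun l => ?_⟩
      rw [← hρ.2]
      exact hT ρ hρ.1 l)
    rw [Real.div_rpow hZ0 (Finset.prod_nonneg fun _ _ => Nat.cast_nonneg _)] at h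
    calc ((Rs.filter fun ρ => T ρ = S).card : ℝ)
        ≤ C₁ * 8 ^ S.card * (Z ^ (1 + ε) / (∏ l ∈ S, (nm l : ℝ)) ^ (1 + ε)) := h
      _ = C₁ * Z ^ (1 + ε) * (8 ^ S.card / (∏ l ∈ S, (nm l : ℝ)) ^ (1 + ε)) := by ring
  rw [hcard]
  calc ∑ S ∈ Rs.image T, ((Rs.filter fun ρ => T ρ = S).card : ℝ)
      ≤ ∑ S ∈ Rs.image T,
        C₁ * Z ^ (1 + ε) * (8 ^ S.card / (∏ l ∈ S, (nm l : ℝ)) ^ (1 + ε)) :=
        Finset.sum_le_sum hterm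
    _ = C₁ * Z ^ (1 + ε) *
        ∑ S ∈ Rs.image T, 8 ^ S.card / (∏ l ∈ S, (nm l : ℝ)) ^ (1 + ε) := by
        rw [Finset.mul_sum]
    _ ≤ C₁ * Z ^ (1 + ε) * C₂ :=
        mul_le_mul_of_nonneg_left (h₂ _) (mul_nonneg hC₁ (Real.rpow_nonneg hZ0 _))
    _ = C₁ * C₂ * Z ^ (1 + ε) := by ring


end H38.WM
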