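import Pool.Agent.H38.WM.AdE2
import Pool.Agent.H38.WM.Eqv
import Pool.Agent.H63.MA.GKus

/-!
# [H38 WM Kc2] the cubic character in terms of `u ∈ 𝓞 M`, 50-80 lines. File Pool/Agent/H38/WM/Kc2.lean

Proof. `m, C₀` from `adE2`. The restriction of `χ` to `Gal(QBar/M)` (`σ ↦ χ (σ.restrictScalars K)`) is a homomorphism of finite type
(compositum of the finite field `E` with `M`, as in the proof of `psa` in Psa.lean), so `kc_all` gives `x : Mˣ` with
`χ (σ.restrictScalars K) = kc 3 ω QBar x σ`. `eqv`: `x τ(x)` is a cube. `adE2`: `x = u τ(u)^2 c^3`; `y = x (c^3)⁻¹` as in `kch` (Kch.lean).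
Last clause: `rt2 τ u ^ 3 = y`, `kk_root`: `σ (rt2 τ u) = ω^k rt2 τ u`, `rt2 τ u ≠ 0`.
-/

set_option autoImplicit false

open scoped NumberField
open IsDedekindDomain NumberField H38.ML H63.MA

noncomputable section

namespace H38.WM

variable {K : IntermediateField ℚ QBar} [NumberField K] {M : IntermediateField K QBar}
  [NumberField M]

theorem kc2 (τ : Gal(M/K)) (ω : M) (H : Om τ ω) : ∃ (m : ℕ) (C₀ : ℝ), m ≠ 0 ∧ 6 ∣ m ∧
    ∀ χ : Gal(QBar/K) →* Multiplicative (ZMod 3), FT χ → ∃ (u : 𝓞 M) (y : Mˣ),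
      AdmG M m C₀ u (τ • u) ∧ (y : M) = (u : M) * ((τ • u : 𝓞 M) : M) ^ 2 ∧
      (∀ σ : Gal(QBar/M), χ (σ.restrictScalars K) = kc 3 ω QBar y σ) ∧
      ∀ σ : Gal(QBar/M), χ (σ.restrictScalars K) = 1 ↔ σ (rt2 τ u) = rt2 τ u := by
  obtain ⟨m, C₀, hm, h6, h⟩ := adE2 τ ω H
  refine ⟨m, C₀, hm, h6, fun χ hχ => ?_⟩
  have hfd : FiniteDimensional K M := FiniteDimensional.right ℚ K M
  have halg : Algebra.IsAlgebraic M QBar := Algebra.IsAlgebraic.tower_top (K := K) M
  have hcl : IsAlgClosure M QBar := ⟨IsAlgClosure.isAlgClosed K, halg⟩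
  obtain ⟨χ', hχ'⟩ : ∃ χ' : Gal(QBar/M) →* Multiplicative (ZMod 3),
      ∀ σ, χ' σ = χ (σ.restrictScalars K) :=
    ⟨⟨⟨fun σ => χ (σ.restrictScalars K), by
      have h1 : (1 : Gal(QBar/M)).restrictScalars K = 1 := rfl
      rw [h1, map_one]⟩, fun σ τ => by
      have h1 : (σ * τ).restrictScalars K = σ.restrictScalars K * τ.restrictScalars K := rfl
      show χ ((σ * τ).restrictScalars K) = _
      rw [h1, map_mul]⟩, fun σ => rfl⟩
  have hFT : FT χ' := by
    obtain ⟨E, hE1, hE2⟩ := hχ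
    have hle : M ≤ M ⊔ E := le_sup_left
    have hfs : FiniteDimensional K (M ⊔ E : IntermediateField K QBar) :=
      IntermediateField.finiteDimensional_sup M E
    refine ⟨IntermediateField.extendScalars hle, ?_, ?_⟩
    · have h1 : FiniteDimensional K (IntermediateField.extendScalars hle) := hfs
      exact FiniteDimensional.right K M _
    · intro τ hτ
      rw [IntermediateField.mem_fixingSubgroup_iff] at hτ
      have h1 : τ.restrictScalars K ∈ E.fixingSubgroup := by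
        rw [IntermediateField.mem_fixingSubgroup_iff]
        intro x hx
        refine hτ x ?_
        rw [IntermediateField.mem_extendScalars]
        exact (le_sup_right : E ≤ M ⊔ E) hx
      have h2 : χ (τ.restrictScalars K) = 1 := hE2 h1
      show χ' τ = 1
      rw [hχ', h2]
  obtain ⟨x, hx⟩ := kc_all Nat.prime_three H.prim χ' hFT
  have hx1 : ∀ σ : Gal(QBar/M), χ (σ.restrictScalars K) = kc 3 ω QBar x σ := by
    intro σ
    rw [← hx, hχ']
  obtain ⟨u, c, hA, hxc⟩ := h x (eqv τ ω H χ x hx1)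
  have hxy : x = (x * (c ^ (3 : ℤ))⁻¹) * c ^ (3 : ℤ) := by rw [inv_mul_cancel_right]
  have hyv : ((x * (c ^ (3 : ℤ))⁻¹ : Mˣ) : M) = (u : M) * ((τ • u : 𝓞 M) : M) ^ 2 := by
    have hc : (c : M) ≠ 0 := c.ne_zero
    rw [Units.val_mul, hxc, Units.val_inv_eq_inv_val]
    have h1 : ((c ^ (3 : ℤ) : Mˣ) : M) = (c : M) ^ 3 := by
      rw [show (3 : ℤ) = ((3 : ℕ) : ℤ) by norm_num, zpow_natCast, Units.val_pow_eq_pow_val]
    rw [h1, mul_inv_cancel_right₀ (pow_ne_zero 3 hc)]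
  have hyc : ∀ σ : Gal(QBar/M),
      χ (σ.restrictScalars K) = kc 3 ω QBar (x * (c ^ (3 : ℤ))⁻¹) σ := by
    intro σ
    rw [hx1]
    apply Multiplicative.toAdd.injective
    show kk 3 ω x σ = kk 3 ω (x * (c ^ (3 : ℤ))⁻¹) σ
    conv_lhs => rw [hxy]
    rw [kk_mul_arg Nat.prime_three H.prim, kk_zpow_arg Nat.prime_three H.prim]
    have h3 : (((3 : ℤ)) : ZMod 3) = 0 := by decide
    rw [h3, zero_mul, add_zero]
  refine ⟨u, x * (c ^ (3 : ℤ))⁻¹, hA, hyv, hyc, fun σ => ?_⟩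
  rw [hyc σ]
  have hB : rt2 τ u ^ 3 = algebraMap M QBar ((x * (c ^ (3 : ℤ))⁻¹ : Mˣ) : M) := by
    rw [rt2_pow, hyv, map_mul (algebraMap (𝓞 M) M), map_pow (algebraMap (𝓞 M) M)]
  constructor
  · intro h1
    have h2 : kk 3 ω (x * (c ^ (3 : ℤ))⁻¹) σ = 0 := congrArg Multiplicative.toAdd h1
    have h3 := kk_root Nat.prime_three H.prim _ (rt2 τ u) hB σ
    rw [h2, ZMod.val_zero, pow_zero, one_mul] at h3
    exact h3
  · intro h1
    have h2 := kk_of_root Nat.prime_three H.prim _ (rt2 τ u) hB σ 0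
      (by rw [zpow_zero, one_mul]; exact h1)
    rw [Int.cast_zero] at h2
    exact Multiplicative.toAdd.injective h2

end H38.WM
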