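import Pool.Agent.H38.WM.Def2

/-!
# [H38 WM OrT] the action of `τ` on the primes of `M`, 40-70 lines. File Pool/Agent/H38/WM/OrT.lean

Proof. For `l : Pl M` let `T l` be the comap of `l.asIdeal` under the ring automorphism `a ↦ τ • a` of `𝓞 M` (prime, not `⊥`:
comap by an equivalence). Second clause by definition. First clause: for `x = a / b` with integral `a, b` (or directly): the valuation of
`T l` is the valuation of `l` composed with `τ` : for an integer `a` the exponent of `T l` in `(a)` is the exponent of `l` in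
`(τ • a)` (the automorphism maps `(T l)^n` onto `l^n`: `a ∈ (T l)^n ↔ τ • a ∈ l^n`, `Ideal.comap_pow`-type statement for a ring
equivalence, `Ideal.map_pow`), and `ord` of an integer is determined by the powers containing it (`HeightOneSpectrum.
intValuation_le_pow_iff_mem`, `valuation_of_algebraMap`), then `ord (a / b) = ord a - ord b`. Third clause: the quotients
`𝓞 M ⧸ T l` and `𝓞 M ⧸ l` are isomorphic (`Ideal.quotientEquiv`), `nm l = Ideal.absNorm l.asIdeal` = cardinality of the quotient.
Fourth clause: `τ • a = a` for `a` from `𝓞 K`.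
-/

set_option autoImplicit false

open scoped NumberField
open IsDedekindDomain NumberField H38.ML H63.MA

noncomputable section

namespace H38.WM

variable {K : IntermediateField ℚ QBar} [NumberField K] {M : IntermediateField K QBar}
  [NumberField M]

/-- the automorphism of the ring of integers -/
private def eT (τ : Gal(M/K)) : 𝓞 M ≃+* 𝓞 M := MulSemiringAction.toRingEquiv Gal(M/K) (𝓞 M) τ

omit [NumberField K] [NumberField M] in
private theorem eT_apply (τ : Gal(M/K)) (a : 𝓞 M) : eT τ a = τ • a := rfl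

/-- the prime -/
private def pT (τ : Gal(M/K)) (l : Pl M) : Pl M where
  asIdeal := l.asIdeal.comap (eT τ)
  isPrime := Ideal.comap_isPrime _ _
  ne_bot := by
    obtain ⟨x, hx, h0⟩ := Submodule.exists_mem_ne_zero_of_ne_bot l.ne_bot
    intro h
    have h1 : (eT τ).symm x ∈ l.asIdeal.comap (eT τ) := by
      rw [Ideal.mem_comap, RingEquiv.apply_symm_apply]
      exact hx
    rw [h, Ideal.mem_bot] at h1
    apply h0
    rw [← (eT τ).apply_symm_apply x, h1, map_zero]

private theorem mem_pow (τ : Gal(M/K)) (l : Pl M) (a : 𝓞 M) (n : ℕ) :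
    a ∈ (pT τ l).asIdeal ^ n ↔ τ • a ∈ l.asIdeal ^ n := by
  have h1 : (pT τ l).asIdeal ^ n = (l.asIdeal ^ n).comap (eT τ) := by
    change (l.asIdeal.comap (eT τ)) ^ n = _
    rw [← Ideal.map_symm, ← Ideal.map_symm, Ideal.map_pow]
  rw [h1, Ideal.mem_comap, eT_apply]

private theorem intVal (τ : Gal(M/K)) (l : Pl M) (a : 𝓞 M) :
    (pT τ l).intValuation a = l.intValuation (τ • a) := by
  by_cases ha : a = 0
  · rw [ha, smul_zero, map_zero, map_zero]
  · have ha' : τ • a ≠ 0 := by
      rw [← eT_apply]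
      exact (map_ne_zero_iff _ (eT τ).injective).2 ha
    have key : ∀ n : ℕ, (pT τ l).intValuation a ≤ WithZero.exp (-(n : ℤ)) ↔
        l.intValuation (τ • a) ≤ WithZero.exp (-(n : ℤ)) := by
      intro n
      rw [HeightOneSpectrum.intValuation_le_pow_iff_mem,
        HeightOneSpectrum.intValuation_le_pow_iff_mem, mem_pow]
    have e1 := HeightOneSpectrum.intValuation_if_neg (pT τ l) ha
    have e2 := HeightOneSpectrum.intValuation_if_neg l ha'
    apply le_antisymm
    · rw [e2, key, ← e2]
    · rw [e1, ← key, ← e1]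

private theorem val (τ : Gal(M/K)) (l : Pl M) (x : M) :
    (pT τ l).valuation M x = l.valuation M (τ x) := by
  obtain ⟨a, b, -, rfl⟩ := IsFractionRing.div_surjective (A := 𝓞 M) x
  have h1 : ∀ a : 𝓞 M, τ (algebraMap (𝓞 M) M a) = algebraMap (𝓞 M) M (τ • a) := fun a => rfl
  rw [map_div₀ τ, h1, h1, map_div₀, map_div₀, HeightOneSpectrum.valuation_of_algebraMap,
    HeightOneSpectrum.valuation_of_algebraMap, HeightOneSpectrum.valuation_of_algebraMap,
    HeightOneSpectrum.valuation_of_algebraMap, intVal, intVal]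

theorem orT (τ : Gal(M/K)) : ∃ T : Pl M → Pl M,
    (∀ (l : Pl M) (x : Mˣ), ord (T l) x = ord l (Units.map (τ : M →* M) x)) ∧
    (∀ (l : Pl M) (a : 𝓞 M), a ∈ (T l).asIdeal ↔ τ • a ∈ l.asIdeal) ∧
    (∀ l : Pl M, nm (T l) = nm l) ∧
    ∀ (l : Pl M) (p : Pl K), Over l p → Over (T l) p := by
  refine ⟨pT τ, fun l x => ?_, fun l a => ?_, fun l => ?_, fun l p h => ?_⟩
  · unfold ord
    rw [val]
    rfl
  · have h := mem_pow τ l a 1
    rw [pow_one, pow_one] at h
    exact h
  · unfold nm
    have h1 : l.asIdeal = (pT τ l).asIdeal.map (eT τ) := by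
      change l.asIdeal = (l.asIdeal.comap (eT τ)).map (eT τ)
      exact (Ideal.map_comap_of_surjective _ (eT τ).surjective _).symm
    rw [Ideal.absNorm_apply, Ideal.absNorm_apply, Submodule.cardQuot_apply,
      Submodule.cardQuot_apply]
    exact Nat.card_congr (Ideal.quotientEquiv _ _ (eT τ) h1).toEquiv
  · unfold Over at h ⊢
    rw [← h]
    ext a
    rw [Ideal.mem_comap, Ideal.mem_comap]
    change eT τ (algebraMap (𝓞 K) (𝓞 M) a) ∈ l.asIdeal ↔ _
    have h2 : eT τ (algebraMap (𝓞 K) (𝓞 M) a) = algebraMap (𝓞 K) (𝓞 M) a := by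
      rw [eT_apply]
      apply RingOfIntegers.ext
      exact τ.commutes (a : K)
    rw [h2]

end H38.WM
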